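import Pool.Agent.DFJ.EO

/-!
# DFJ/Adj: the ring `ℤ[w]`
-/

set_option autoImplicit false

namespace Pool.Agent.DFJ

open Polynomial

/-- `x² al n (x² + 2)`. -/
def FF (n : ℕ) {R : Type*} [CommRing R] (x : R) : R := x ^ 2 * al n (x ^ 2 + 2)

theorem map_FF {R S : Type*} [CommRing R] [CommRing S] (f : R →+* S) (n : ℕ) (x : R) :
    f (FF n x) = FF n (f x) := by
  unfold FF
  rw [map_mul, map_pow, map_al, map_add, map_pow, map_ofNat]

section monic

theorem monic_al {q : ℤ[X]} (hq : q.Monic) (he : 1 ≤ q.natDegree) (n : ℕ) :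
    (al (n + 1) q).Monic ∧ (al (n + 1) q).natDegree = n * q.natDegree := by
  induction n using Nat.strong_induction_on with
  | _ n ih =>
    match n with
    | 0 => simp
    | 1 =>
      have e : al (1 + 1) q = q := by
        rw [al_step 0]
        simp
      rw [e]
      exact ⟨hq, by ring⟩
    | (n + 2) =>
      obtain ⟨h1, h2⟩ := ih (n + 1) (by omega)
      obtain ⟨h3, h4⟩ := ih n (by omega)
      have h5 : (q * al (n + 1 + 1) q).Monic := hq.mul h1
      have h6 : (q * al (n + 1 + 1) q).natDegree = (n + 2) * q.natDegree := by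
        rw [hq.natDegree_mul h1, h2]
        ring
      have h7 : (al (n + 1) q).natDegree < (q * al (n + 1 + 1) q).natDegree := by
        rw [h4, h6]
        nlinarith
      have e : al (n + 2 + 1) q = q * al (n + 1 + 1) q - al (n + 1) q := al_step (n + 1) q
      rw [e]
      refine ⟨h5.sub_of_left (degree_lt_degree h7), ?_⟩
      rw [natDegree_sub_eq_left_of_natDegree_lt h7, h6]

theorem monic_FF {p : ℤ[X]} (hp : p.Monic) (hd : 1 ≤ p.natDegree) {n : ℕ} (hn : 1 ≤ n) :
    (FF n p).Monic ∧ (FF n p).natDegree = 2 * n * p.natDegree := by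
  obtain ⟨n, rfl⟩ : ∃ m, n = m + 1 := ⟨n - 1, by omega⟩
  have h1 : (p ^ 2).Monic := hp.pow 2
  have h2 : (p ^ 2).natDegree = 2 * p.natDegree := hp.natDegree_pow 2
  have h3 : ((2 : ℤ[X])).natDegree < (p ^ 2).natDegree := by
    rw [h2, natDegree_ofNat]
    omega
  have h4 : (p ^ 2 + 2).Monic := h1.add_of_left (degree_lt_degree h3)
  have h5 : (p ^ 2 + 2).natDegree = 2 * p.natDegree := by
    rw [natDegree_add_eq_left_of_natDegree_lt h3, h2]
  obtain ⟨h6, h7⟩ := monic_al h4 (by rw [h5]; omega) n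
  refine ⟨h1.mul h6, ?_⟩
  unfold FF
  rw [h1.natDegree_mul h6, h2, h7, h5]
  ring

/-- The polynomial for `w`. -/
noncomputable def GG (a b : ℕ) (ε : ℤ) : ℤ[X] := FF b (FF a X) - C ε * X

theorem monic_GG {a b : ℕ} (ha : 1 ≤ a) (hb : 1 ≤ b) (ε : ℤ) : (GG a b ε).Monic := by
  obtain ⟨h1, h2⟩ := monic_FF monic_X (by simp) ha
  obtain ⟨h3, h4⟩ := monic_FF h1 (by rw [h2]; simp; omega) hb
  refine h3.sub_of_left (degree_lt_degree ?_)
  have h5 : (C ε * X : ℤ[X]).natDegree ≤ 1 := (natDegree_C_mul_le ε X).trans natDegree_X.le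
  rw [h4, h2, natDegree_X]
  have : 1 ≤ a * b := Nat.mul_pos ha hb
  nlinarith

end monic

section separable

theorem derivative_al {q : (ZMod 2)[X]} (hq : derivative q = 0) (n : ℕ) :
    derivative (al n q) = 0 := by
  induction n using Nat.strong_induction_on with
  | _ n ih =>
    match n with
    | 0 => simp
    | 1 => simp
    | (n + 2) =>
      rw [al_step, derivative_sub, derivative_mul, hq, ih (n + 1) (by omega), ih n (by omega)]
      simp

theorem derivative_FF (p : (ZMod 2)[X]) (n : ℕ) : derivative (FF n p) = 0 := by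
  have h1 : derivative (p ^ 2) = 0 := by
    rw [derivative_pow]
    have : (C ((2 : ℕ) : ZMod 2) : (ZMod 2)[X]) = 0 := by
      have h2 : ((2 : ℕ) : ZMod 2) = 0 := by decide
      rw [h2, C_0]
    rw [this]
    simp
  have h2 : derivative (p ^ 2 + 2) = 0 := by
    rw [derivative_add, h1]
    simp
  unfold FF
  rw [derivative_mul, h1, derivative_al h2]
  simp

theorem separable_GG (a b : ℕ) {ε : ℤ} (hε : ε = 1 ∨ ε = -1) :
    ((GG a b ε).map (Int.castRingHom (ZMod 2))).Separable := by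
  have h1 : (GG a b ε).map (Int.castRingHom (ZMod 2)) = FF b (FF a X) - C 1 * X := by
    have h2 : (GG a b ε).map (Int.castRingHom (ZMod 2)) =
        mapRingHom (Int.castRingHom (ZMod 2)) (GG a b ε) := rfl
    rw [h2]
    unfold GG
    rw [map_sub, map_FF, map_FF, map_mul, coe_mapRingHom, map_X, map_C]
    congr 3
    rcases hε with h | h
    · rw [h]; simp
    · rw [h]; decide
  rw [h1]
  rw [separable_def]
  have h3 : derivative (FF b (FF a X) - C 1 * X : (ZMod 2)[X]) = -1 := by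
    rw [derivative_sub, derivative_FF]
    simp
  rw [h3]
  exact ⟨0, -1, by ring⟩

end separable

/-- The ring `ℤ[w]`. -/
abbrev Zw (w : ℂ) : Subalgebra ℤ ℂ := Algebra.adjoin ℤ ({w} : Set ℂ)

/-- The generator. -/
def wR (w : ℂ) : Zw w := ⟨w, Algebra.subset_adjoin rfl⟩

theorem coe_aeval (w : ℂ) (g : ℤ[X]) : ((aeval (wR w) g : Zw w) : ℂ) = aeval w g := by
  have h := aeval_algHom_apply (Zw w).val (wR w) g
  exact h.symm

theorem exists_poly {w : ℂ} (x : Zw w) : ∃ g : ℤ[X], aeval (wR w) g = x := by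
  have h : (x : ℂ) ∈ Algebra.adjoin ℤ ({w} : Set ℂ) := x.2
  rw [Algebra.adjoin_singleton_eq_range_aeval] at h
  obtain ⟨g, hg⟩ := h
  refine ⟨g, Subtype.ext ?_⟩
  rw [coe_aeval]
  exact hg

/-- reduction modulo two -/
noncomputable abbrev rd (g : ℤ[X]) : (ZMod 2)[X] := g.map (Int.castRingHom (ZMod 2))

theorem rd_eq_zero {g : ℤ[X]} (h : rd g = 0) : ∃ k : ℤ[X], g = 2 * k := by
  have h1 : ∀ n, (2 : ℤ) ∣ g.coeff n := by
    intro n
    have h2 : (rd g).coeff n = 0 := by rw [h]; simp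
    rw [coeff_map] at h2
    exact (ZMod.intCast_zmod_eq_zero_iff_dvd _ 2).1 h2
  have h3 : C (2 : ℤ) ∣ g := (C_dvd_iff_dvd_coeff _ _).2 h1
  obtain ⟨k, hk⟩ := h3
  exact ⟨k, by rw [hk]; rfl⟩

theorem rd_surj (g : (ZMod 2)[X]) : ∃ k : ℤ[X], rd k = g :=
  map_surjective _ (ZMod.ringHom_surjective (Int.castRingHom (ZMod 2))) g

theorem two_dvd_iff {w : ℂ} (hw : IsIntegral ℤ w) (g : ℤ[X]) :
    (2 : Zw w) ∣ aeval (wR w) g ↔ rd (minpoly ℤ w) ∣ rd g := by
  constructor
  · rintro ⟨x, hx⟩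
    obtain ⟨h, rfl⟩ := exists_poly x
    have h1 : aeval w (g - 2 * h) = 0 := by
      have h2 : ((aeval (wR w) g : Zw w) : ℂ) = ((2 * aeval (wR w) h : Zw w) : ℂ) := by rw [hx]
      rw [map_sub, map_mul, map_ofNat, ← coe_aeval w g, ← coe_aeval w h, h2]
      exact sub_eq_zero.2 rfl
    obtain ⟨k, hk⟩ := minpoly.isIntegrallyClosed_dvd hw h1
    refine ⟨rd k, ?_⟩
    have h3 := congrArg rd hk
    rw [rd, rd, Polynomial.map_sub, Polynomial.map_mul, Polynomial.map_mul,
      Polynomial.map_ofNat] at h3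
    have h4 : (2 : (ZMod 2)[X]) = 0 := by
      have : ((2 : ℕ) : (ZMod 2)[X]) = 0 := CharP.cast_eq_zero _ 2
      exact_mod_cast this
    rw [h4, zero_mul, sub_zero] at h3
    exact h3
  · rintro ⟨k, hk⟩
    obtain ⟨k, rfl⟩ := rd_surj k
    have h1 : rd (g - minpoly ℤ w * k) = 0 := by
      rw [rd, Polynomial.map_sub, Polynomial.map_mul]
      exact sub_eq_zero.2 hk
    obtain ⟨h, hh⟩ := rd_eq_zero h1
    refine ⟨aeval (wR w) h, ?_⟩
    have h2 : g = minpoly ℤ w * k + 2 * h := by linear_combination hh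
    have h3 : aeval (wR w) (minpoly ℤ w) = 0 := by
      apply Subtype.ext
      rw [coe_aeval, minpoly.aeval]
      rfl
    rw [h2, map_add, map_mul, map_mul, h3, zero_mul, zero_add, map_ofNat]

theorem Ok_Zw {w : ℂ} (hw : IsIntegral ℤ w) (hs : (rd (minpoly ℤ w)).Separable) :
    Ok (Zw w) := by
  refine ⟨fun x hx => ?_, fun h => ?_, fun x hx => ?_⟩
  · have h1 : ((2 * x : Zw w) : ℂ) = ((0 : Zw w) : ℂ) := by rw [hx]
    push_cast at h1
    apply Subtype.ext
    have h2 : (x : ℂ) = 0 := by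
      rcases mul_eq_zero.1 h1 with h | h
      · norm_num at h
      · exact h
    rw [h2]
    rfl
  · have h1 : (2 : Zw w) ∣ aeval (wR w) (1 : ℤ[X]) := by rwa [map_one]
    have h2 := (two_dvd_iff hw 1).1 h1
    rw [rd, rd, Polynomial.map_one] at h2
    have h3 : IsUnit (rd (minpoly ℤ w)) := isUnit_of_dvd_one h2
    have h4 : (rd (minpoly ℤ w)).Monic := (minpoly.monic hw).map _
    have h6 := h4.eq_one_of_isUnit h3
    have h7 : (rd (minpoly ℤ w)).natDegree = (minpoly ℤ w).natDegree :=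
      (minpoly.monic hw).natDegree_map _
    rw [h6, natDegree_one] at h7
    have h8 := minpoly.natDegree_pos hw
    omega
  · obtain ⟨g, rfl⟩ := exists_poly x
    have h1 : (2 : Zw w) ∣ aeval (wR w) (g ^ 2) := by rwa [map_pow]
    have h2 := (two_dvd_iff hw _).1 h1
    rw [two_dvd_iff hw]
    have h3 : rd (g ^ 2) = rd g ^ 2 := Polynomial.map_pow _ _
    rw [h3] at h2
    exact (hs.squarefree.isRadical) 2 _ h2

end Pool.Agent.DFJ
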