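import Pool.Agent.DFJ.FinEE

/-!
# DFJ/Arith: the arithmetic theorem

For a solution `w ≠ 0` of `FF b (FF a w) = ε w` the number
`L = PP a (w² + 2) PP b ((FF a w)² + 2)` is not `0` and not `-1`, and it is `1` exactly for
`a = b = 1`.
-/

set_option autoImplicit false

namespace Pool.Agent.DFJ

/-- the number `L` -/
def Lc (a b : ℕ) (w : ℂ) : ℂ := PP a (w ^ 2 + 2) * PP b (FF a w ^ 2 + 2)

theorem Lc_ne_zero {a b : ℕ} {ε : ℤ} {w : ℂ} (h : Sys a b ε w) : Lc a b w ≠ 0 := by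
  intro h0
  apply L_ne_zero h
  apply Subtype.ext
  rw [coe_LR]
  exact h0

theorem Lc_ne_neg {a b : ℕ} {ε : ℤ} {w : ℂ} (h : Sys a b ε w) : Lc a b w ≠ -1 := by
  intro h0
  apply L_ne_neg h
  apply Subtype.ext
  rw [coe_LR]
  exact h0

theorem LR_of {a b : ℕ} {w : ℂ} (h : Lc a b w = 1) : LR a b w = 1 := by
  apply Subtype.ext
  rw [coe_LR]
  exact h

theorem Lc_eq_one {a b : ℕ} {ε : ℤ} {w : ℂ} (h : Sys a b ε w) :
    Lc a b w = 1 ↔ a = 1 ∧ b = 1 := by
  constructor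
  · intro hL
    by_contra hne
    rcases Nat.even_or_odd' a with ⟨k, rfl | rfl⟩ <;>
      rcases Nat.even_or_odd' b with ⟨l, rfl | rfl⟩
    · exact fin_ee h (LR_of hL)
    · exact fin_eo h (LR_of hL)
    · have h1 := h.swap
      apply fin_eo h1
      apply LR_of
      have h2 := h.swap_L
      unfold Lc at hL ⊢
      rw [h2, hL]
    · exact fin_oo h (by omega) (LR_of hL)
  · rintro ⟨rfl, rfl⟩
    unfold Lc
    rw [PP_one, PP_one, one_mul]

end Pool.Agent.DFJ
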