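import Pool.Agent.DFJ.Setup

/-!
# DFJ/Cases: the three cases for the parities
-/

set_option autoImplicit false

namespace Pool.Agent.DFJ

open Polynomial

section phi

variable {R : Type*} [CommRing R]

theorem phi_al_s (w : R) (n : ℕ) :
    Phi (al n (w ^ 2 + 2)) (al n ((w ^ 2 + 2) ^ 2 - 2)) := (Phi.s w).al n

theorem phi_odd_s (w : R) (k : ℕ) :
    Phi (al (k + 1) (w ^ 2 + 2) + al k (w ^ 2 + 2)) ((al (k + 1) (w ^ 2 + 2) +
      al k (w ^ 2 + 2)) * (al (k + 1) (w ^ 2 + 2) - al k (w ^ 2 + 2))) := by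
  rw [← al_odd, ← odd_two]
  exact (phi_al_s w (k + 1)).add (phi_al_s w k)

/-- the Frobenius lift of `FF n w` -/
theorem phi_FF (w : R) (n : ℕ) : ∃ y : R, Phi (FF n w) y ∧
    (w ^ 2 + 2) * y = FF n w * w ^ 2 * te n (w ^ 2 + 2) := by
  refine ⟨w ^ 4 * al n ((w ^ 2 + 2) ^ 2 - 2), (Phi.sq w).mul (phi_al_s w n), ?_⟩
  have h := al_two n (w ^ 2 + 2)
  rw [al_even] at h
  unfold FF
  linear_combination w ^ 4 * h

end phi

variable {k l : ℕ} {ε : ℤ} {w : ℂ}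

theorem Sys.phiW {a b : ℕ} (h : Sys a b ε w) : ∃ w2 : Zw w, Phi (wR w) w2 ∧
    (zR a w ^ 2 + 2) * w2 = wR w * zR a w ^ 2 * te b (zR a w ^ 2 + 2) := by
  obtain ⟨y, h1, h2⟩ := phi_FF (zR a w) b
  refine ⟨(ε : Zw w) * y, ?_, ?_⟩
  · have h3 := (Phi.sign h.signR).mul h1
    have h4 : (ε : Zw w) * FF b (zR a w) = wR w := by
      rw [h.eqR]
      linear_combination wR w * sign_sq h.signR
    rwa [h4] at h3
  · rw [h.eqR] at h2
    linear_combination (ε : Zw w) * h2 + wR w * zR a w ^ 2 * te b (zR a w ^ 2 + 2) *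
      sign_sq h.signR

theorem case_oo (h : Sys (2 * k + 1) (2 * l + 1) ε w) (hL : LR (2 * k + 1) (2 * l + 1) w = 1) :
    (2 : Zw w) ∣ wR w ^ 3 + 1 ∧ (2 : Zw w) ∣ zR (2 * k + 1) w * wR w - 1 := by
  obtain ⟨w', hw'⟩ := h.inv
  have h1 : zR (2 * k + 1) w = wR w ^ 2 * ((al (k + 1) (wR w ^ 2 + 2) + al k (wR w ^ 2 + 2)) *
      (al (k + 1) (wR w ^ 2 + 2) - al k (wR w ^ 2 + 2))) := by
    rw [zR_def, al_odd]
  have h2 := h.eqW
  rw [al_odd l] at h2
  have h3 := odd_sq k (wR w ^ 2 + 2)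
  have h4 := odd_sq l (zR (2 * k + 1) w ^ 2 + 2)
  unfold LR at hL
  rw [PP_odd, PP_odd] at hL
  set A := al (k + 1) (wR w ^ 2 + 2) + al k (wR w ^ 2 + 2) with hA
  set C := al (k + 1) (wR w ^ 2 + 2) - al k (wR w ^ 2 + 2) with hC
  set z := zR (2 * k + 1) w with hz
  set B := al (l + 1) (z ^ 2 + 2) + al l (z ^ 2 + 2) with hB
  set D := al (l + 1) (z ^ 2 + 2) - al l (z ^ 2 + 2) with hD
  have h5 : (A * B) * (A * B) = 1 := by linear_combination hL
  have hk : A * B = 1 ∨ A * B = -1 := mul_self_eq_one_iff.1 h5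
  exact oo h.ok h.signR hk hw' h1 h2 (by linear_combination h3) (by linear_combination h4) rfl
    (phi_odd_s (wR w) k) (phi_odd_s z l)

theorem case_eo (h : Sys (2 * k) (2 * l + 1) ε w) (hL : LR (2 * k) (2 * l + 1) w = 1) :
    (2 : Zw w) ∣ wR w ^ 6 + wR w ^ 4 + wR w ^ 3 + wR w + 1 ∧
      (2 : Zw w) ∣ zR (2 * k) w * wR w - 1 ∧
      ∃ y, (2 : Zw w) ∣ y ^ 2 + y + zR (2 * k) w ^ 2 := by
  obtain ⟨w', hw'⟩ := h.inv
  obtain ⟨w2, hw2, hw3⟩ := h.phiW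
  have h1 : zR (2 * k) w = wR w ^ 2 * (al k (wR w ^ 2 + 2) * te k (wR w ^ 2 + 2)) := by
    rw [zR_def, al_even]
  have h2 := h.eqW
  rw [al_odd l] at h2
  have h3 := te_sq k (wR w ^ 2 + 2)
  have h4 := odd_sq l (zR (2 * k) w ^ 2 + 2)
  have h6 := al_two k (wR w ^ 2 + 2)
  rw [al_even] at h6
  unfold LR at hL
  rw [PP_even, PP_odd] at hL
  rw [te_odd] at hw3
  set A := al k (wR w ^ 2 + 2) with hA
  set C := te k (wR w ^ 2 + 2) with hC
  set z := zR (2 * k) w with hz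
  set B := al (l + 1) (z ^ 2 + 2) + al l (z ^ 2 + 2) with hB
  set D := al (l + 1) (z ^ 2 + 2) - al l (z ^ 2 + 2) with hD
  exact eo h.ok h.signR hw' h1 h2 (by linear_combination h3) (by linear_combination h4)
    (by linear_combination hL) (phi_al_s (wR w) k) h6 (phi_odd_s z l) hw2
    (by linear_combination hw3)

theorem case_ee (h : Sys (2 * k) (2 * l) ε w) (hL : LR (2 * k) (2 * l) w = 1) :
    (2 : Zw w) ∣ (wR w + 1) * (wR w ^ 6 + wR w ^ 3 + 1) ∧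
      (2 : Zw w) ∣ zR (2 * k) w * wR w - 1 := by
  obtain ⟨w', hw'⟩ := h.inv
  obtain ⟨w2, hw2, hw3⟩ := h.phiW
  obtain ⟨z2, hz2, hz3⟩ := phi_FF (wR w) (2 * k)
  have h1 : zR (2 * k) w = wR w ^ 2 * (al k (wR w ^ 2 + 2) * te k (wR w ^ 2 + 2)) := by
    rw [zR_def, al_even]
  have h2 := h.eqW
  rw [al_even l] at h2
  have h3 := te_sq k (wR w ^ 2 + 2)
  have h4 := te_sq l (zR (2 * k) w ^ 2 + 2)
  have h6 := al_two k (wR w ^ 2 + 2)
  rw [al_even] at h6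
  have h7 := al_two l (zR (2 * k) w ^ 2 + 2)
  rw [al_even] at h7
  unfold LR at hL
  rw [PP_even, PP_even] at hL
  rw [te_even] at hw3 hz3
  change Phi (zR (2 * k) w) z2 at hz2
  change _ = zR (2 * k) w * _ * _ at hz3
  set A := al k (wR w ^ 2 + 2) with hA
  set C := te k (wR w ^ 2 + 2) with hC
  set z := zR (2 * k) w with hz
  set B := al l (z ^ 2 + 2) with hB
  set D := te l (z ^ 2 + 2) with hD
  exact ee h.ok h.signR hw' h1 h2 (by linear_combination h3) (by linear_combination h4)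
    (by linear_combination hL) (phi_al_s (wR w) k) h6 (phi_al_s z l) h7 hw2
    (by linear_combination hw3) hz2 (by linear_combination hz3)

theorem L_ne_neg {a b : ℕ} (h : Sys a b ε w) : LR a b w ≠ -1 := by
  intro hL
  unfold LR at hL
  rcases Nat.even_or_odd' a with ⟨k, rfl | rfl⟩ <;> rcases Nat.even_or_odd' b with ⟨l, rfl | rfl⟩
  · rw [PP_even, PP_even] at hL
    exact h.ok.no_neg (x := al k (wR w ^ 2 + 2) * al l (zR (2 * k) w ^ 2 + 2) * wR w *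
      zR (2 * k) w) (q := (al k (wR w ^ 2 + 2) * al l (zR (2 * k) w ^ 2 + 2)) ^ 2 *
      (wR w ^ 2 + zR (2 * k) w ^ 2 + 4)) (by linear_combination hL)
  · rw [PP_even, PP_odd] at hL
    exact h.ok.no_neg (x := al k (wR w ^ 2 + 2) * (al (l + 1) (zR (2 * k) w ^ 2 + 2) +
      al l (zR (2 * k) w ^ 2 + 2)) * wR w) (q := (al k (wR w ^ 2 + 2) *
      (al (l + 1) (zR (2 * k) w ^ 2 + 2) + al l (zR (2 * k) w ^ 2 + 2))) ^ 2)
      (by linear_combination hL)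
  · rw [PP_odd, PP_even] at hL
    exact h.ok.no_neg (x := al l (zR (2 * k + 1) w ^ 2 + 2) * (al (k + 1) (wR w ^ 2 + 2) +
      al k (wR w ^ 2 + 2)) * zR (2 * k + 1) w) (q := (al l (zR (2 * k + 1) w ^ 2 + 2) *
      (al (k + 1) (wR w ^ 2 + 2) + al k (wR w ^ 2 + 2))) ^ 2)
      (by linear_combination hL)
  · rw [PP_odd, PP_odd] at hL
    exact h.ok.no_neg (x := (al (l + 1) (zR (2 * k + 1) w ^ 2 + 2) +
      al l (zR (2 * k + 1) w ^ 2 + 2)) * (al (k + 1) (wR w ^ 2 + 2) +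
      al k (wR w ^ 2 + 2))) (q := 0)
      (by linear_combination hL)

/-- `x² + 4 ≠ 0` for a unit `x` -/
theorem Ok.sq_add_four {R : Type*} [CommRing R] (ok : Ok R) {x x' : R} (hx : x * x' = 1) :
    x ^ 2 + 4 ≠ 0 := by
  intro h
  have h1 : (2 : R) ∣ x := ok.red x ⟨-2, by linear_combination h⟩
  obtain ⟨c, hc⟩ := h1
  exact ok.nun ⟨c * x', by linear_combination x' * hc - hx⟩

theorem PP_ne_zero {R : Type*} [CommRing R] [IsDomain R] (ok : Ok R) {x x' : R} (hx : x * x' = 1)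
    {n : ℕ} (hn : al n (x ^ 2 + 2) ≠ 0) : PP n (x ^ 2 + 2) ≠ 0 := by
  rcases Nat.even_or_odd' n with ⟨k, rfl | rfl⟩
  · rw [PP_even]
    rw [al_even] at hn
    have h1 := left_ne_zero_of_mul hn
    have h2 := ok.sq_add_four hx
    have h3 : x ^ 2 + 2 + 2 = x ^ 2 + 4 := by ring
    rw [h3]
    exact mul_ne_zero h2 (pow_ne_zero 2 h1)
  · rw [PP_odd]
    rw [al_odd] at hn
    exact pow_ne_zero 2 (left_ne_zero_of_mul hn)

theorem L_ne_zero {a b : ℕ} (h : Sys a b ε w) : LR a b w ≠ 0 := by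
  obtain ⟨w', hw'⟩ := h.inv
  have h2 := h.eqW
  set z := zR a w with hz
  have hw0 : wR w ≠ 0 := wR_ne h.hw
  have hz1 : z * (z * al b (z ^ 2 + 2) * ε * w') = 1 := by
    linear_combination hw' - w' * h2
  have hz0 : z ≠ 0 := by
    intro h0
    rw [h0, zero_mul] at hz1
    exact zero_ne_one hz1
  have h3 : al a (wR w ^ 2 + 2) ≠ 0 := by
    intro h0
    apply hz0
    rw [hz, zR_def, h0, mul_zero]
  have h4 : al b (z ^ 2 + 2) ≠ 0 := by
    intro h0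
    rw [h0, mul_zero, mul_zero] at h2
    exact hw0 h2
  exact mul_ne_zero (PP_ne_zero h.ok hw' h3) (PP_ne_zero h.ok hz1 h4)

end Pool.Agent.DFJ
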