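import Mathlib

/-!
# DFJ/Cheb: Chebyshev polynomials in a commutative ring

`al n s` with `al 0 = 0`, `al 1 = 1`, `al (n+2) = s al (n+1) - al n`; for `s = λ + λ⁻¹` this is
`(λ^n - λ^-n) / (λ - λ⁻¹)`. `te n s = λ^n + λ^-n`. `PP n s = (te n s - 2) / (s - 2)`.
-/

set_option autoImplicit false

namespace Pool.Agent.DFJ

variable {R : Type*} [CommRing R]

/-- `(λ^n - λ^-n) / (λ - λ⁻¹)` for `s = λ + λ⁻¹`. -/
def al : ℕ → R → R
  | 0, _ => 0
  | 1, _ => 1
  | (n + 2), s => s * al (n + 1) s - al n s

/-- `λ^n + λ^-n` for `s = λ + λ⁻¹`. -/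
def te : ℕ → R → R
  | 0, _ => 2
  | 1, s => s
  | (n + 2), s => s * te (n + 1) s - te n s

@[simp] theorem al_zero (s : R) : al 0 s = 0 := rfl
@[simp] theorem al_one (s : R) : al 1 s = 1 := rfl
theorem al_step (n : ℕ) (s : R) : al (n + 2) s = s * al (n + 1) s - al n s := rfl
@[simp] theorem te_zero (s : R) : te 0 s = 2 := rfl
@[simp] theorem te_one (s : R) : te 1 s = s := rfl
theorem te_step (n : ℕ) (s : R) : te (n + 2) s = s * te (n + 1) s - te n s := rfl

theorem map_al {S : Type*} [CommRing S] (f : R →+* S) (n : ℕ) (s : R) :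
    f (al n s) = al n (f s) := by
  induction n using Nat.strong_induction_on with
  | _ n ih =>
    match n with
    | 0 => simp
    | 1 => simp
    | (n + 2) => rw [al_step, al_step, map_sub, map_mul, ih (n + 1) (by omega), ih n (by omega)]

theorem map_te {S : Type*} [CommRing S] (f : R →+* S) (n : ℕ) (s : R) :
    f (te n s) = te n (f s) := by
  induction n using Nat.strong_induction_on with
  | _ n ih =>
    match n with
    | 0 => exact map_ofNat f 2
    | 1 => simp
    | (n + 2) => rw [te_step, te_step, map_sub, map_mul, ih (n + 1) (by omega), ih n (by omega)]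

theorem te_eq (n : ℕ) (s : R) : te n s = 2 * al (n + 1) s - s * al n s := by
  induction n using Nat.strong_induction_on with
  | _ n ih =>
    match n with
    | 0 => simp
    | 1 => simp [al_step]; ring
    | (n + 2) =>
      rw [te_step, ih (n + 1) (by omega), ih n (by omega), al_step (n + 1), al_step n]
      ring

theorem cassini (n : ℕ) (s : R) :
    al (n + 1) s ^ 2 - s * al (n + 1) s * al n s + al n s ^ 2 = 1 := by
  induction n with
  | zero => simp
  | succ n ih =>
    rw [al_step]
    linear_combination ih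

theorem al_add (m n : ℕ) (s : R) :
    al (m + n + 1) s = al (m + 1) s * al (n + 1) s - al m s * al n s := by
  induction n using Nat.strong_induction_on with
  | _ n ih =>
    match n with
    | 0 => simp
    | 1 => simp [al_step]; ring
    | (n + 2) =>
      have h1 := ih (n + 1) (by omega)
      have h2 := ih n (by omega)
      have e1 : m + (n + 2) + 1 = (m + n + 1) + 2 := by ring
      have e2 : m + (n + 1) + 1 = (m + n + 1) + 1 := by ring
      rw [e2] at h1
      rw [e1, al_step, h1, h2, al_step (n + 1), al_step n]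
      ring

/-- odd index -/
theorem al_odd (k : ℕ) (s : R) :
    al (2 * k + 1) s = (al (k + 1) s + al k s) * (al (k + 1) s - al k s) := by
  have h := al_add k k s
  have e : k + k + 1 = 2 * k + 1 := by ring
  rw [e] at h
  rw [h]
  ring

/-- even index -/
theorem al_even (k : ℕ) (s : R) : al (2 * k) s = al k s * te k s := by
  match k with
  | 0 => simp
  | (k + 1) =>
    have h := al_add (k + 1) k s
    have e : k + 1 + k + 1 = 2 * (k + 1) := by ring
    rw [e] at h
    rw [h, te_eq, al_step]
    ring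

theorem te_sq (k : ℕ) (s : R) : te k s ^ 2 = 4 + (s ^ 2 - 4) * al k s ^ 2 := by
  rw [te_eq]
  linear_combination 4 * cassini k s

theorem odd_sq (k : ℕ) (s : R) : (al (k + 1) s - al k s) ^ 2 * (s + 2) -
    (al (k + 1) s + al k s) ^ 2 * (s - 2) = 4 := by
  linear_combination 4 * cassini k s

theorem te_even (k : ℕ) (s : R) : te (2 * k) s = 2 + (s ^ 2 - 4) * al k s ^ 2 := by
  rw [te_eq, al_odd, al_even, te_eq]
  linear_combination 2 * cassini k s

theorem te_odd (k : ℕ) (s : R) :
    te (2 * k + 1) s = 2 + (s - 2) * (al (k + 1) s + al k s) ^ 2 := by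
  have h : al (2 * k + 1 + 1) s = al (k + 1) s * te (k + 1) s := al_even (k + 1) s
  rw [te_eq, h, al_odd, te_eq, al_step]
  linear_combination 2 * cassini k s

/-- The Chebyshev polynomial at `s² - 2`, even case. -/
theorem al_two (n : ℕ) (s : R) : s * al n (s ^ 2 - 2) = al (2 * n) s := by
  induction n using Nat.strong_induction_on with
  | _ n ih =>
    match n with
    | 0 => simp
    | 1 => simp [al_step]
    | (n + 2) =>
      have h1 := ih (n + 1) (by omega)
      have h2 := ih n (by omega)
      have e1 : 2 * (n + 2) = (2 * n + 2) + 2 := by ring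
      have e2 : 2 * (n + 1) = 2 * n + 2 := by ring
      rw [e2] at h1
      rw [e1, al_step (n + 0 + 0) (s ^ 2 - 2), al_step (2 * n + 2), al_step (2 * n + 1)]
      rw [al_step (2 * n)] at h1 ⊢
      linear_combination (s ^ 2 - 2) * h1 - h2

theorem odd_two (n : ℕ) (s : R) :
    al (n + 1) (s ^ 2 - 2) + al n (s ^ 2 - 2) = al (2 * n + 1) s := by
  induction n using Nat.strong_induction_on with
  | _ n ih =>
    match n with
    | 0 => simp
    | 1 => simp [al_step]; ring
    | (n + 2) =>
      have h1 := ih (n + 1) (by omega)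
      have h2 := ih n (by omega)
      have e1 : 2 * (n + 2) + 1 = (2 * n + 1) + 2 + 2 := by ring
      have e2 : 2 * (n + 1) + 1 = (2 * n + 1) + 2 := by ring
      rw [e2] at h1
      rw [e1, al_step (n + 1) (s ^ 2 - 2), al_step (2 * n + 1 + 2), al_step (2 * n + 1 + 1)]
      rw [al_step n (s ^ 2 - 2)] at h1 ⊢
      rw [al_step (2 * n + 1)] at h1 ⊢
      linear_combination (s ^ 2 - 2) * h1 - h2

/-- `(te n s - 2) / (s - 2)`. -/
def PP (n : ℕ) (s : R) : R :=
  if Even n then (s + 2) * al (n / 2) s ^ 2 else (al (n / 2 + 1) s + al (n / 2) s) ^ 2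

theorem PP_even (k : ℕ) (s : R) : PP (2 * k) s = (s + 2) * al k s ^ 2 := by
  unfold PP
  rw [if_pos (even_two_mul k)]
  congr 3
  omega

theorem PP_odd (k : ℕ) (s : R) : PP (2 * k + 1) s = (al (k + 1) s + al k s) ^ 2 := by
  unfold PP
  rw [if_neg (by rw [Nat.not_even_iff_odd]; exact ⟨k, rfl⟩)]
  have e : (2 * k + 1) / 2 = k := by omega
  rw [e]

theorem PP_one (s : R) : PP 1 s = 1 := by
  have h := PP_odd 0 s
  simpa using h

theorem PP_spec (n : ℕ) (s : R) : (s - 2) * PP n s = te n s - 2 := by
  rcases Nat.even_or_odd' n with ⟨k, rfl | rfl⟩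
  · rw [PP_even, te_even]; ring
  · rw [PP_odd, te_odd]; ring

theorem map_PP {S : Type*} [CommRing S] (f : R →+* S) (n : ℕ) (s : R) :
    f (PP n s) = PP n (f s) := by
  rcases Nat.even_or_odd' n with ⟨k, rfl | rfl⟩
  · rw [PP_even, PP_even, map_mul, map_pow, map_al, map_add, map_ofNat]
  · rw [PP_odd, PP_odd, map_pow, map_add, map_al, map_al]

end Pool.Agent.DFJ
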