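import Pool.Agent.DFJ.Defs

/-!
# DFJ/Cross: crossed homomorphisms
-/

set_option autoImplicit false

namespace Pool.Agent.DFJ

section cross

variable {G S : Type*} [Group G] [Ring S]

/-- `(ρ(g)^n - 1) / (ρ(g) - 1)` -/
def om (ρ : G →* S) (g : G) : ℤ → S
  | Int.ofNat k => ∑ i ∈ Finset.range k, ρ g ^ i
  | Int.negSucc k => -(ρ (g ^ Int.negSucc k) * ∑ i ∈ Finset.range (k + 1), ρ g ^ i)

theorem om_ofNat (ρ : G →* S) (g : G) (k : ℕ) :
    om ρ g (k : ℤ) = ∑ i ∈ Finset.range k, ρ g ^ i := rfl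

theorem om_negSucc (ρ : G →* S) (g : G) (k : ℕ) :
    om ρ g (Int.negSucc k) = -(ρ (g ^ Int.negSucc k) * ∑ i ∈ Finset.range (k + 1), ρ g ^ i) := rfl

theorem om_spec (ρ : G →* S) (g : G) (n : ℤ) : (ρ g - 1) * om ρ g n = ρ (g ^ n) - 1 := by
  cases n with
  | ofNat k =>
    change (ρ g - 1) * om ρ g (k : ℤ) = ρ (g ^ (k : ℤ)) - 1
    rw [om_ofNat, mul_geom_sum, zpow_natCast, map_pow]
  | negSucc k =>
    have hc : (ρ g - 1) * ρ (g ^ Int.negSucc k) = ρ (g ^ Int.negSucc k) * (ρ g - 1) := by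
      rw [sub_mul, mul_sub, ← map_mul, ← map_mul, one_mul, mul_one, ← zpow_one_add, ← zpow_add_one,
        add_comm]
    rw [om_negSucc, mul_neg, ← mul_assoc, hc, mul_assoc, mul_geom_sum, mul_sub, ← map_pow,
      ← map_mul, zpow_negSucc, inv_mul_cancel, map_one, mul_one]
    abel

theorem om_congr {ρ ρ' : G →* S} {g : G} (h : ∀ n : ℤ, ρ (g ^ n) = ρ' (g ^ n)) (n : ℤ) :
    om ρ g n = om ρ' g n := by
  have h1 : ρ g = ρ' g := by
    have := h 1
    rwa [zpow_one] at this
  cases n with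
  | ofNat k =>
    change om ρ g (k : ℤ) = om ρ' g (k : ℤ)
    rw [om_ofNat, om_ofNat, h1]
  | negSucc k => rw [om_negSucc, om_negSucc, h1, h]

theorem map_om {S' : Type*} [Ring S'] (f : S →+* S') (ρ : G →* S) (g : G) (n : ℤ) :
    f (om ρ g n) = om ((f : S →* S').comp ρ) g n := by
  cases n with
  | ofNat k =>
    change f (om ρ g (k : ℤ)) = om _ g (k : ℤ)
    rw [om_ofNat, om_ofNat, map_sum]
    simp
  | negSucc k =>
    rw [om_negSucc, om_negSucc, map_neg, map_mul, map_sum]
    simp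

variable {ρ : G →* S} {d : G → S} (hd : ∀ u v, d (u * v) = d u + ρ u * d v)

include hd

theorem d_one : d 1 = 0 := by
  have h := hd 1 1
  rw [mul_one, map_one, one_mul] at h
  exact (left_eq_add.1 h)

theorem d_inv (u : G) : d u⁻¹ = -(ρ u⁻¹ * d u) := by
  have h := hd u⁻¹ u
  rw [inv_mul_cancel, d_one hd] at h
  exact eq_neg_of_add_eq_zero_left h.symm

theorem d_pow (u : G) (k : ℕ) : d (u ^ k) = (∑ i ∈ Finset.range k, ρ u ^ i) * d u := by
  induction k with
  | zero => simp [d_one hd]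
  | succ k ih =>
    rw [pow_succ, hd, ih, Finset.sum_range_succ, add_mul, map_pow]

theorem d_zpow (u : G) (n : ℤ) : d (u ^ n) = om ρ u n * d u := by
  cases n with
  | ofNat k =>
    change d (u ^ (k : ℤ)) = om ρ u (k : ℤ) * d u
    rw [zpow_natCast, d_pow hd, om_ofNat]
  | negSucc k =>
    rw [om_negSucc, zpow_negSucc, d_inv hd, d_pow hd, neg_mul, mul_assoc]

end cross

/-- Existence of crossed homomorphisms on free groups. -/
theorem exists_fox {ι S : Type*} [Ring S] (ρ : FreeGroup ι →* S) (d : ι → S) :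
    ∃ D : FreeGroup ι → S, (∀ i, D (FreeGroup.of i) = d i) ∧
      ∀ u v, D (u * v) = D u + ρ u * D v := by
  set ρ' : FreeGroup ι →* Sˣ := ρ.toHomUnits with hρ'
  -- the affine group acting on `S` by permutations
  let aff : Sˣ → S → Equiv.Perm S := fun u t =>
    { toFun := fun x => t + u * x
      invFun := fun x => (u⁻¹ : Sˣ) * (x - t)
      left_inv := fun x => by simp
      right_inv := fun x => by simp }
  let F : FreeGroup ι →* Equiv.Perm S := FreeGroup.lift fun i => aff (ρ' (FreeGroup.of i)) (d i)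
  have key : ∀ u : FreeGroup ι, ∀ x, F u x = F u 0 + ρ u * x := by
    intro u
    induction u using FreeGroup.induction_on with
    | C1 => intro x; simp
    | of i =>
      intro x
      have h1 : F (FreeGroup.of i) = aff (ρ' (FreeGroup.of i)) (d i) := FreeGroup.lift_apply_of
      rw [h1]
      change d i + (ρ' (FreeGroup.of i) : S) * x = d i + (ρ' (FreeGroup.of i) : S) * 0 + ρ _ * x
      rw [mul_zero, add_zero]; rfl
    | inv_of i h =>
      intro x
      have h2 : ∀ x, F (FreeGroup.of i)⁻¹ x = (F (FreeGroup.of i)).symm x := by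
        intro x; rw [map_inv]; rfl
      rw [h2, h2, Equiv.symm_apply_eq, h]
      have h3 := h ((F (FreeGroup.of i)).symm 0)
      rw [Equiv.apply_symm_apply] at h3
      rw [mul_add, ← mul_assoc, ← map_mul, mul_inv_cancel, map_one, one_mul, ← add_assoc, ← h3,
        zero_add]
    | mul a b ha hb =>
      intro x
      have h2 : ∀ x, F (a * b) x = F a (F b x) := by intro x; rw [map_mul]; rfl
      rw [h2, h2, ha (F b x), ha (F b 0), hb x, map_mul, mul_add, mul_assoc, add_assoc]
  refine ⟨fun u => F u 0, ?_, ?_⟩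
  · intro i
    have h1 : F (FreeGroup.of i) = aff (ρ' (FreeGroup.of i)) (d i) := FreeGroup.lift_apply_of
    simp only [h1]
    change d i + (ρ' (FreeGroup.of i) : S) * 0 = d i
    simp
  · intro u v
    have h2 : F (u * v) 0 = F u (F v 0) := by rw [map_mul]; rfl
    simp only [h2]
    rw [key u (F v 0)]

end Pool.Agent.DFJ
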