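import Mathlib

/-!
# DFJ/Defs: genus one two-bridge knots and the twisted Alexander torsion

Definitions used in the statement of the main theorem.
-/

set_option autoImplicit false

namespace Pool.Agent.DFJ

open LaurentPolynomial Matrix

/-- `SL(2,ℂ)` -/
abbrev SLC : Type := SpecialLinearGroup (Fin 2) ℂ

/-- The matrix underlying an element of `SL(2,ℂ)`. -/
def mx (g : SLC) : Matrix (Fin 2) (Fin 2) ℂ := g.val

theorem mx_mul (g h : SLC) : mx (g * h) = mx g * mx h := rfl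

theorem mx_one : mx 1 = 1 := rfl

theorem mx_det (g : SLC) : (mx g).det = 1 := g.property

/-- The element `w = (b a⁻¹)^m (b⁻¹ a)^m` of a group. -/
def wd {G : Type*} [Group G] (a b : G) (m : ℤ) : G := (b * a⁻¹) ^ m * (b⁻¹ * a) ^ m

/-- The relator `a wⁿ b⁻¹ w⁻ⁿ` in the free group on `a = x₀` and `b = x₁`. -/
def relator (m n : ℤ) : FreeGroup (Fin 2) :=
  FreeGroup.of 0 * wd (FreeGroup.of 0) (FreeGroup.of 1) m ^ n * (FreeGroup.of 1)⁻¹ *
    (wd (FreeGroup.of 0) (FreeGroup.of 1) m ^ n)⁻¹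

/-- The group `⟨a, b | a wⁿ = wⁿ b⟩`, with `w = (b a⁻¹)^m (b⁻¹ a)^m`: for `m, n ≠ 0` it is the
group of the two-bridge knot `C(2m, 2n)` (Conway's notation; the fraction is `2m + 1/(2n)`), a
double twist knot of genus one, and every two-bridge knot of genus one is of this form; `a` and
`b` are meridians. -/
abbrev KnotGroup (m n : ℤ) : Type := PresentedGroup ({relator m n} : Set (FreeGroup (Fin 2)))

/-- `D 0` and `D 1` are the Fox derivatives `∂/∂x₀` and `∂/∂x₁` on the free group on `x₀, x₁`. -/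
def IsFox (D : Fin 2 → FreeGroup (Fin 2) → MonoidAlgebra ℤ (FreeGroup (Fin 2))) : Prop :=
  (∀ j i, D j (FreeGroup.of i) = if i = j then 1 else 0) ∧
    ∀ j u v, D j (u * v) = D j u + MonoidAlgebra.of ℤ (FreeGroup (Fin 2)) u * D j v

/-- The representation `g ↦ t^φ(g) α(g)`. -/
noncomputable def twist {G : Type} [Group G] (φ : G →* Multiplicative ℤ) (α : G →* SLC) :
    G →* Matrix (Fin 2) (Fin 2) ℂ[T;T⁻¹] where
  toFun g := Matrix.of fun i j => T (φ g).toAdd * C (mx (α g) i j)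
  map_one' := by
    refine Matrix.ext fun i j => ?_
    rw [map_one α, map_one φ, of_apply, mx_one, toAdd_one, T_zero, one_mul, one_apply, one_apply]
    split_ifs <;> simp
  map_mul' g h := by
    refine Matrix.ext fun i j => ?_
    rw [map_mul α, map_mul φ, mx_mul]
    simp only [toAdd_mul, T_add, of_apply, mul_apply, Fin.sum_univ_two, map_add, map_mul]
    ring

/-- The ring map `Φ : ℤ[F] → M₂(ℂ[t^±])`, `u ↦ t^φ(u) α(u)`, for a representation of the group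
`⟨x₀, x₁ | r⟩`. -/
noncomputable def ringMap {r : FreeGroup (Fin 2)}
    (φ : PresentedGroup ({r} : Set (FreeGroup (Fin 2))) →* Multiplicative ℤ)
    (α : PresentedGroup ({r} : Set (FreeGroup (Fin 2))) →* SLC) :
    MonoidAlgebra ℤ (FreeGroup (Fin 2)) →ₐ[ℤ] Matrix (Fin 2) (Fin 2) ℂ[T;T⁻¹] :=
  MonoidAlgebra.lift ℤ (Matrix (Fin 2) (Fin 2) ℂ[T;T⁻¹]) (FreeGroup (Fin 2))
    ((twist φ α).comp (PresentedGroup.mk {r}))

/-- `τ` is the twisted Alexander torsion of `α` by Wada's formula for the presentation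
`⟨x₀, x₁ | r⟩`: it is `det Φ(∂r/∂x₀) / det Φ(x₁ - 1)`. -/
def IsTorsion {r : FreeGroup (Fin 2)}
    (φ : PresentedGroup ({r} : Set (FreeGroup (Fin 2))) →* Multiplicative ℤ)
    (α : PresentedGroup ({r} : Set (FreeGroup (Fin 2))) →* SLC)
    (τ : ℂ[T;T⁻¹]) : Prop :=
  φ (PresentedGroup.of 1) ≠ 1 ∧ ∃ D, IsFox D ∧
    (ringMap φ α (D 0 r)).det =
      τ * (ringMap φ α (MonoidAlgebra.of ℤ _ (FreeGroup.of 1) - 1)).det

/-- The highest minus the lowest exponent occurring in `τ` is `d`. -/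
def HasDegree (τ : ℂ[T;T⁻¹]) (d : ℕ) : Prop :=
  ∃ p : ℤ, τ.coeff p ≠ 0 ∧ τ.coeff (p + d) ≠ 0 ∧ ∀ k, τ.coeff k ≠ 0 → p ≤ k ∧ k ≤ p + d

/-- The coefficient of the highest exponent occurring in `τ` is `1` or `-1`. -/
def IsMonic (τ : ℂ[T;T⁻¹]) : Prop :=
  ∃ p : ℤ, (τ.coeff p = 1 ∨ τ.coeff p = -1) ∧ ∀ k, τ.coeff k ≠ 0 → k ≤ p

end Pool.Agent.DFJ
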