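import Pool.Agent.DFJ.OO

/-!
# DFJ/EE: both indices even
-/

set_option autoImplicit false

namespace Pool.Agent.DFJ

section two

variable {Q : Type*} [CommRing Q]

/-- `z` is a unit. -/
theorem unit_z {w z w' X : Q} (hw : w * w' = 1) (h2 : w = z ^ 2 * X) : z * (z * X * w') = 1 := by
  linear_combination hw - w' * h2

/-- if `z w = (z w)²` then `z w = 1`. -/
theorem zw_one {w z w' X : Q} (hw : w * w' = 1) (h2 : w = z ^ 2 * X)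
    (h7 : z * w = (z * w) ^ 2) : z * w = 1 := by
  have hz := unit_z hw h2
  have h8 : (z * w) * ((z * X * w') * w') = 1 := by
    linear_combination (z * (z * X * w')) * hw + hz
  linear_combination ((z * X * w') * w') * h7 * (-1) + (1 - z * w) * h8

theorem ee_two (hQ : Red Q) {w z A B C D w' y c0 : Q} (hw : w * w' = 1)
    (h1 : z = w ^ 2 * (A * C)) (h2 : w = z ^ 2 * (B * D)) (h3 : C ^ 2 = w ^ 4 * A ^ 2)
    (h4 : D ^ 2 = z ^ 4 * B ^ 2) (h5 : A ^ 2 * B ^ 2 * (w ^ 2 * z ^ 2) = 1)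
    (h6 : y + y ^ 2 + A ^ 2 * B ^ 2 * (w ^ 2 + z ^ 2) = 0) (hc : c0 ^ 2 = c0)
    (h7 : w ^ 2 * z ^ 2 * (c0 * (w ^ 2 * z ^ 2) + w ^ 4 * A ^ 2 + z ^ 4 * B ^ 2 +
      w ^ 2 * z ^ 2 * y ^ 2) = 0) :
    (w + 1) * (w ^ 6 + w ^ 3 + 1) = 0 ∧ z * w = 1 := by
  have h0 := hQ.two
  have hC : C = w ^ 2 * A := by
    apply hQ.sq
    linear_combination h3
  have hD : D = z ^ 2 * B := by
    apply hQ.sq
    linear_combination h4
  subst hC hD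
  have hzw : z * w = 1 := by
    apply zw_one hw h2
    linear_combination w * h1 + w ^ 4 * A ^ 2 * h2 + w ^ 2 * z ^ 2 * h5
  refine ⟨?_, hzw⟩
  have hAB : A ^ 2 * B ^ 2 = 1 := by
    linear_combination h5 - A ^ 2 * B ^ 2 * (z * w + 1) * hzw
  have h8 : c0 + z + w + y ^ 2 = 0 := by
    have e1 : (w ^ 2 * z ^ 2) = 1 := by linear_combination (z * w + 1) * hzw
    rw [e1] at h7
    linear_combination h7 + h1 + h2
  have h9 : y + y ^ 2 + w ^ 2 + z ^ 2 = 0 := by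
    linear_combination h6 - (w ^ 2 + z ^ 2) * hAB
  have h10 : y = c0 + z + w + w ^ 2 + z ^ 2 := by
    linear_combination h9 - h8 - (w ^ 2 + z ^ 2) * h0
  have h11 : z + w + z ^ 2 + w ^ 2 + z ^ 4 + w ^ 4 = 0 := by
    rw [h10] at h8
    linear_combination h8 - hc - (z * w + z * w ^ 2 + z * c0 + z ^ 2 * w + z ^ 2 * w ^ 2 +
      z ^ 2 * c0 + z ^ 3 + w * c0 + w ^ 2 * c0 + w ^ 3 + c0) * h0
  have h12 : ((w + 1) * (w ^ 6 + w ^ 3 + 1)) ^ 2 = 0 := by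
    have h13 : (w + 1) ^ 2 * (w ^ 6 + w ^ 3 + 1) = 0 := by
      linear_combination w ^ 4 * h11 - (w ^ 3 + w ^ 2 * (z * w + 1) +
        (z ^ 2 * w ^ 2 + 1) * (z * w + 1)) * hzw + (w ^ 7 + w ^ 4 + w) * h0
    linear_combination (w ^ 6 + w ^ 3 + 1) * h13
  exact hQ.red _ h12

end two

variable {R : Type*} [CommRing R]

theorem sign_c {ε : R} (h : ε = 1 ∨ ε = -1) : ∃ c : R, (c = 0 ∨ c = 1) ∧ ε = 1 - 2 * c := by
  rcases h with h | h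
  · exact ⟨0, Or.inl rfl, by rw [h]; ring⟩
  · exact ⟨1, Or.inr rfl, by rw [h]; ring⟩

/-- Both indices even. -/
theorem ee (ok : Ok R) {w z A B C D w' ε A2 B2 w2 z2 : R} (hε : ε = 1 ∨ ε = -1)
    (hw : w * w' = 1) (h1 : z = w ^ 2 * (A * C)) (h2 : w = ε * (z ^ 2 * (B * D)))
    (h3 : C ^ 2 = 4 + w ^ 2 * (w ^ 2 + 4) * A ^ 2)
    (h4 : D ^ 2 = 4 + z ^ 2 * (z ^ 2 + 4) * B ^ 2)
    (h5 : A ^ 2 * B ^ 2 * ((w ^ 2 + 4) * (z ^ 2 + 4)) = 1)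
    (hA : Phi A A2) (hA2 : (w ^ 2 + 2) * A2 = A * C)
    (hB : Phi B B2) (hB2 : (z ^ 2 + 2) * B2 = B * D)
    (hW : Phi w w2) (hW2 : (z ^ 2 + 2) * w2 = w * z ^ 2 * (2 + z ^ 2 * (z ^ 2 + 4) * B ^ 2))
    (hZ : Phi z z2) (hZ2 : (w ^ 2 + 2) * z2 = z * w ^ 2 * (2 + w ^ 2 * (w ^ 2 + 4) * A ^ 2)) :
    (2 : R) ∣ (w + 1) * (w ^ 6 + w ^ 3 + 1) ∧ (2 : R) ∣ z * w - 1 := by
  obtain ⟨c0, hc0, hc1⟩ := sign_c hε
  have hε2 := sign_sq hε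
  have hpi : (2 : R) ∣ A * B * w * z - 1 := by
    apply ok.sq_congr
    refine ⟨-(2 * (A ^ 2 * B ^ 2 * (w ^ 2 + z ^ 2 + 4))), ?_⟩
    linear_combination h5
  obtain ⟨y, hy0⟩ := hpi
  have hy : A * B * w * z = 1 + 2 * y := by linear_combination hy0
  have hyy : y + y ^ 2 + A ^ 2 * B ^ 2 * (w ^ 2 + z ^ 2 + 4) = 0 := by
    apply ok.cancel
    apply ok.cancel
    linear_combination h5 - (A * B * w * z + 1 + 2 * y) * hy
  have hP := ((hA.mul hB).mul hW).mul hZ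
  rw [hy] at hP
  obtain ⟨g, hg⟩ := hP.unique ok (Phi.one_add_two y)
  have hzb : z ^ 2 * (B * D) = ε * w := by
    linear_combination (-(z ^ 2 * (B * D))) * hε2 - ε * h2
  have key : (w ^ 2 + 2) ^ 2 * (z ^ 2 + 2) ^ 2 * (A2 * B2 * w2 * z2) =
      ε * w ^ 2 * z ^ 2 * ((2 + w ^ 2 * (w ^ 2 + 4) * A ^ 2) *
        (2 + z ^ 2 * (z ^ 2 + 4) * B ^ 2)) := by
    have e1 : (w ^ 2 + 2) ^ 2 * (z ^ 2 + 2) ^ 2 * (A2 * B2 * w2 * z2) =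
      ((w ^ 2 + 2) * A2) * ((z ^ 2 + 2) * B2) * ((z ^ 2 + 2) * w2) * ((w ^ 2 + 2) * z2) := by
      ring
    rw [e1, hA2, hB2, hW2, hZ2]
    have e2 : A * C * (B * D) * (w * z ^ 2 * (2 + z ^ 2 * (z ^ 2 + 4) * B ^ 2)) *
      (z * w ^ 2 * (2 + w ^ 2 * (w ^ 2 + 4) * A ^ 2)) =
      (w ^ 2 * (A * C)) * (z ^ 2 * (B * D)) * (w * z) *
        ((2 + w ^ 2 * (w ^ 2 + 4) * A ^ 2) * (2 + z ^ 2 * (z ^ 2 + 4) * B ^ 2)) := by ring
    rw [e2, ← h1, hzb]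
    ring
  have hX : (2 : R) ∣ w ^ 2 * z ^ 2 * (-(c0 * (w ^ 2 * z ^ 2)) + w ^ 4 * A ^ 2 + z ^ 4 * B ^ 2 -
      w ^ 2 * z ^ 2 * y ^ 2) := by
    apply ok.dvd_of_four
    refine ⟨(w ^ 4 * (z ^ 2 + 1) + z ^ 4 * (w ^ 2 + 1) + 4 * (w ^ 2 + 1) * (z ^ 2 + 1)) *
      (1 + 2 * y ^ 2) + (w ^ 2 + 2) ^ 2 * (z ^ 2 + 2) ^ 2 * g -
      ε * w ^ 2 * z ^ 2 * (1 + 2 * (w ^ 2 * A ^ 2) + 2 * (z ^ 2 * B ^ 2) +
        w ^ 4 * A ^ 2 * (z ^ 2 * B ^ 2) + w ^ 2 * A ^ 2 * (z ^ 4 * B ^ 2) +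
        4 * (w ^ 2 * A ^ 2) * (z ^ 2 * B ^ 2) -
        w ^ 2 * z ^ 2 * (A ^ 2 * B ^ 2) * (w ^ 2 + z ^ 2 + 4)) +
      c0 * w ^ 2 * z ^ 2 * (w ^ 4 * A ^ 2 + z ^ 4 * B ^ 2), ?_⟩
    rw [hc1] at key ⊢
    linear_combination ((w ^ 2 + 2) ^ 2 * (z ^ 2 + 2) ^ 2) * hg - key -
      (1 - 2 * c0) * w ^ 4 * z ^ 4 * h5
  have hQ := ok.toRed
  have hε' := hQ.sign (sign_map (qm R) hε)
  have f1 := congrArg (qm R) h1
  have f2 := congrArg (qm R) h2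
  have f3 := congrArg (qm R) h3
  have f4 := congrArg (qm R) h4
  have f5 := congrArg (qm R) h5
  have f6 := congrArg (qm R) hyy
  have f7 := congrArg (qm R) hw
  have f8 := (qm_eq_zero _).2 hX
  have hc' : (qm R c0) ^ 2 = qm R c0 := by
    rcases hc0 with h | h
    · rw [h, map_zero]; ring
    · rw [h, map_one]; ring
  simp only [map_mul, map_add, map_sub, map_neg, map_pow, map_one, map_zero, map_ofNat, hε',
    one_mul] at f1 f2 f3 f4 f5 f6 f7 f8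
  have h0 := hQ.two
  obtain ⟨r1, r2⟩ := ee_two hQ (y := qm R y) (c0 := qm R c0) f7 f1 f2
    (by linear_combination f3 + (2 + 2 * qm R w ^ 2 * qm R A ^ 2) * h0)
    (by linear_combination f4 + (2 + 2 * qm R z ^ 2 * qm R B ^ 2) * h0)
    (by linear_combination f5 - (qm R A ^ 2 * qm R B ^ 2 * (2 * qm R w ^ 2 + 2 * qm R z ^ 2 + 8)) *
      h0)
    (by linear_combination f6 - (qm R A ^ 2 * qm R B ^ 2 * 2) * h0) hc'
    (by linear_combination f8 + (qm R w ^ 2 * qm R z ^ 2 * (qm R c0 * (qm R w ^ 2 * qm R z ^ 2) +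
      qm R w ^ 2 * qm R z ^ 2 * qm R y ^ 2)) * h0)
  constructor
  · rw [← qm_eq_zero]
    simp only [map_mul, map_add, map_pow, map_one]
    exact r1
  · rw [← qm_eq_zero, map_sub, map_mul, map_one, r2, sub_self]

end Pool.Agent.DFJ
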