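import Pool.Agent.DFJ.EE

/-!
# DFJ/EO: first index even, second index odd
-/

set_option autoImplicit false

namespace Pool.Agent.DFJ

section two

variable {Q : Type*} [CommRing Q]

theorem eo_zw (hQ : Red Q) {w z A B C D w' : Q} (hw : w * w' = 1)
    (h1 : z = w ^ 2 * (A * C)) (h2 : w = z ^ 2 * (B * D)) (h3 : C ^ 2 = w ^ 4 * A ^ 2)
    (h4 : D ^ 2 * z ^ 2 = B ^ 2 * z ^ 2) (h5 : A ^ 2 * B ^ 2 * w ^ 2 = 1) :
    D = B ∧ z * w = 1 ∧ z ^ 2 * B ^ 2 = w := by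
  have hC : C = w ^ 2 * A := by
    apply hQ.sq
    linear_combination h3
  have hz := unit_z hw h2
  have hD : D = B := by
    apply hQ.sq
    linear_combination (z * (B * D) * w') ^ 2 * h4 -
      (D ^ 2 - B ^ 2) * (z * (z * (B * D) * w') + 1) * hz
  subst hC hD
  refine ⟨rfl, ?_, ?_⟩
  · apply zw_one hw h2
    linear_combination w * h1 + w ^ 4 * A ^ 2 * h2 + w ^ 2 * z ^ 2 * h5
  · linear_combination -h2

theorem eo_two (hQ : Red Q) {w z B c y t d p c0 : Q} (hzw : z * w = 1) (hp : p * w = 1)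
    (hy : y + y ^ 2 + p ^ 2 = 0) (hc : w * c + c ^ 2 = B ^ 2) (hB : z ^ 2 * B ^ 2 = w)
    (hc0 : c0 ^ 2 = c0)
    (hX1 : z + t + z ^ 3 * (B * d) + w ^ 2 + z ^ 2 + w ^ 2 * z ^ 2 * y ^ 2 = 0)
    (hX2 : c0 + t + z ^ 3 * (B * d) + y + p * c = 0) :
    w ^ 6 + w ^ 4 + w ^ 3 + w + 1 = 0 ∧ y ^ 2 + y + z ^ 2 = 0 := by
  have h0 := hQ.two
  have hpz : p = z := by linear_combination z * hp - p * hzw
  rw [hpz] at hy hX2
  have e1 : z * c = z + w ^ 2 + c0 := by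
    linear_combination hX1 + hX2 - hy - (z * w + 1) * y ^ 2 * hzw -
      (t + z ^ 3 * (B * d) + z + w ^ 2 + c0) * h0
  refine ⟨?_, by linear_combination hy⟩
  have e2 : z * c + (z * c) ^ 2 = w := by
    linear_combination z ^ 2 * hc + hB - z * c * hzw
  rw [e1] at e2
  linear_combination w ^ 2 * e2 - w * hzw - (z * w + 1) * hzw - w ^ 2 * hc0 +
    (w ^ 3 - w ^ 2 * c0 - w ^ 2 * (z * w ^ 2 + z * c0 + w ^ 2 * c0)) * h0

end two

variable {R : Type*} [CommRing R]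

/-- First index even, second index odd. -/
theorem eo (ok : Ok R) {w z A B C D w' ε A2 w2 : R} (hε : ε = 1 ∨ ε = -1)
    (hw : w * w' = 1) (h1 : z = w ^ 2 * (A * C)) (h2 : w = ε * (z ^ 2 * (B * D)))
    (h3 : C ^ 2 = 4 + w ^ 2 * (w ^ 2 + 4) * A ^ 2)
    (h4 : D ^ 2 * (z ^ 2 + 4) - B ^ 2 * z ^ 2 = 4)
    (h5 : A ^ 2 * B ^ 2 * (w ^ 2 + 4) = 1)
    (hA : Phi A A2) (hA2 : (w ^ 2 + 2) * A2 = A * C) (hB : Phi B (B * D))
    (hW : Phi w w2) (hW2 : (z ^ 2 + 2) * w2 = w * z ^ 2 * (2 + z ^ 2 * B ^ 2)) :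
    (2 : R) ∣ w ^ 6 + w ^ 4 + w ^ 3 + w + 1 ∧ (2 : R) ∣ z * w - 1 ∧
      ∃ y, (2 : R) ∣ y ^ 2 + y + z ^ 2 := by
  obtain ⟨c0, hc0, hc1⟩ := sign_c hε
  have hε2 := sign_sq hε
  have hQ := ok.toRed
  have h0 := hQ.two
  have hε' := hQ.sign (sign_map (qm R) hε)
  have f1 := congrArg (qm R) h1
  have f2 := congrArg (qm R) h2
  have f3 := congrArg (qm R) h3
  have f4 := congrArg (qm R) h4
  have f5 := congrArg (qm R) h5
  have f7 := congrArg (qm R) hw
  simp only [map_mul, map_add, map_sub, map_pow, map_one, map_ofNat, hε', one_mul] at f1 f2 f3 f4 f5 f7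
  obtain ⟨q1, q2, q3⟩ := eo_zw hQ f7 f1 f2
    (by linear_combination f3 + (2 + 2 * qm R w ^ 2 * qm R A ^ 2) * h0)
    (by linear_combination f4 + (2 - 2 * qm R D ^ 2) * h0)
    (by linear_combination f5 - (qm R A ^ 2 * qm R B ^ 2 * 2) * h0)
  -- the exact relations
  have hpi : (2 : R) ∣ A * B * w - 1 := by
    apply ok.sq_congr
    refine ⟨-(2 * (A ^ 2 * B ^ 2)), ?_⟩
    linear_combination h5
  obtain ⟨y, hy0⟩ := hpi
  have hy : A * B * w = 1 + 2 * y := by linear_combination hy0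
  have hyy : y + y ^ 2 + (A * B) ^ 2 = 0 := by
    apply ok.cancel
    apply ok.cancel
    linear_combination h5 - (A * B * w + 1 + 2 * y) * hy
  have hD : (2 : R) ∣ D - B := by
    rw [← qm_eq_zero, map_sub, q1, sub_self]
  obtain ⟨d, hd0⟩ := hD
  have hd : D = B + 2 * d := by linear_combination hd0
  have hBC : (2 : R) ∣ B * C - w := by
    apply ok.sq_congr
    refine ⟨2 * B ^ 2, ?_⟩
    linear_combination B ^ 2 * h3 + w ^ 2 * h5
  obtain ⟨c, hc2⟩ := hBC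
  have hc : B * C = w + 2 * c := by linear_combination hc2
  have hcc : w * c + c ^ 2 = B ^ 2 := by
    apply ok.cancel
    apply ok.cancel
    linear_combination B ^ 2 * h3 + w ^ 2 * h5 - (B * C + w + 2 * c) * hc
  have hzw : (2 : R) ∣ z * w - 1 := by
    rw [← qm_eq_zero, map_sub, map_mul, map_one, q2, sub_self]
  obtain ⟨t, ht0⟩ := hzw
  have ht : z * w = 1 + 2 * t := by linear_combination ht0
  have hzB : z ^ 2 * B ^ 2 = ε * w - 2 * (z ^ 2 * (B * d)) := by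
    rw [hd] at h2
    linear_combination (-(z ^ 2 * (B * (B + 2 * d)))) * hε2 - ε * h2
  -- the Frobenius lift
  have hP := (hA.mul hB).mul hW
  rw [hy] at hP
  obtain ⟨g, hg⟩ := hP.unique ok (Phi.one_add_two y)
  have hzb : z ^ 2 * (B * D) = ε * w := by
    linear_combination (-(z ^ 2 * (B * D))) * hε2 - ε * h2
  have hzb2 : A * C * (B * D) * (w * z ^ 2) = ε * z := by
    have e1 : w ^ 2 * (A * C * (B * D) * (w * z ^ 2)) = w ^ 2 * (ε * z) := by
      have e2 : w ^ 2 * (A * C * (B * D) * (w * z ^ 2)) =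
        (w ^ 2 * (A * C)) * (z ^ 2 * (B * D)) * w := by ring
      rw [e2, ← h1, hzb]
      ring
    linear_combination w' ^ 2 * e1 -
      (w * w' + 1) * (A * C * (B * D) * (w * z ^ 2) - ε * z) * hw
  have key : (w ^ 2 + 2) * (z ^ 2 + 2) * (A2 * (B * D) * w2) =
      ε * z * (2 + z ^ 2 * B ^ 2) := by
    have e1 : (w ^ 2 + 2) * (z ^ 2 + 2) * (A2 * (B * D) * w2) =
      ((w ^ 2 + 2) * A2) * (B * D) * ((z ^ 2 + 2) * w2) := by ring
    rw [e1, hA2, hW2]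
    linear_combination (2 + z ^ 2 * B ^ 2) * hzb2
  have hX1 : (2 : R) ∣ ε * z - t - ε * z ^ 3 * (B * d) - w ^ 2 - z ^ 2 - w ^ 2 * z ^ 2 * y ^ 2 := by
    apply ok.dvd_of_four
    refine ⟨(w ^ 2 + z ^ 2) * y ^ 2 + 1 + 2 * y ^ 2 +
      (w ^ 2 + 2) * (z ^ 2 + 2) * g + t ^ 2, ?_⟩
    linear_combination (-1 : R) * key + (w ^ 2 + 2) * (z ^ 2 + 2) * hg - ε * z * hzB -
      z * w * hε2 + (z * w + 2 * t) * ht
  have hX2 : (2 : R) ∣ -c0 + t - z ^ 3 * (B * d) - y - A * B * c := by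
    apply ok.dvd_of_four
    refine ⟨c0 * t + (t + t ^ 2) * (1 + 2 * y + 2 * (A * B * c)), ?_⟩
    linear_combination (-z) * hzB + z ^ 2 * B ^ 2 * h1 + z ^ 2 * w ^ 2 * (A * B * hc + hy) -
      ε * ht - (1 + 2 * t) * hc1 + (1 + 2 * y + 2 * (A * B * c)) * (z * w + 1 + 2 * t) * ht
  have g1 := (qm_eq_zero _).2 hX1
  have g2 := (qm_eq_zero _).2 hX2
  have g3 := congrArg (qm R) hyy
  have g4 := congrArg (qm R) hcc
  have g5 := congrArg (qm R) hy
  have hc' : (qm R c0) ^ 2 = qm R c0 := by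
    rcases hc0 with h | h
    · rw [h, map_zero]; ring
    · rw [h, map_one]; ring
  simp only [map_mul, map_add, map_sub, map_neg, map_pow, map_one, map_zero, map_ofNat, hε',
    one_mul] at g1 g2 g3 g4 g5
  obtain ⟨r1, r2⟩ := eo_two hQ (w := qm R w) (z := qm R z) (B := qm R B) (c := qm R c)
    (y := qm R y) (t := qm R t) (d := qm R d) (p := qm R A * qm R B) (c0 := qm R c0) q2
    (by linear_combination g5 + qm R y * h0) g3 g4 q3 hc'
    (by linear_combination g1 + (qm R t + qm R z ^ 3 * (qm R B * qm R d) + qm R w ^ 2 +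
      qm R z ^ 2 + qm R w ^ 2 * qm R z ^ 2 * qm R y ^ 2) * h0)
    (by linear_combination g2 + (qm R c0 + qm R z ^ 3 * (qm R B * qm R d) + qm R y +
      qm R A * qm R B * qm R c) * h0)
  refine ⟨?_, ⟨t, ht0⟩, y, ?_⟩
  · rw [← qm_eq_zero]
    simp only [map_add, map_pow, map_one]
    exact r1
  · rw [← qm_eq_zero]
    simp only [map_add, map_pow]
    exact r2

end Pool.Agent.DFJ
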