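import Pool.Agent.DFJ.Phi9

/-!
# DFJ/FinEE: both indices even: the top coefficient is not `1`
-/

set_option autoImplicit false

namespace Pool.Agent.DFJ

open Polynomial

section ring

variable {R : Type*} [CommRing R]

/-- The 2-adic computation. -/
theorem ee_fin (ok : Ok R) (hpr : ∀ x y : R, (2 : R) ∣ x * y → (2 : R) ∣ x ∨ (2 : R) ∣ y)
    {w z B D ε ρ : R} (hε : ε = 1 ∨ ε = -1) (h2 : w = ε * (z ^ 2 * (B * D)))
    (h4 : D ^ 2 = 4 + z ^ 2 * (z ^ 2 + 4) * B ^ 2) (hzw : (2 : R) ∣ z * w - 1)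
    (hf : w ^ 6 + w ^ 3 + 1 + 2 * ρ = 0) :
    ∃ n : ℤ, (2 : R) ∣ ρ - (w ^ 4 + w + w ^ 5 + (n : R) * w ^ 3) := by
  obtain ⟨c, hc0, hc⟩ := sign_c hε
  have hε2 := sign_sq hε
  have hQ := ok.toRed
  have h0 := hQ.two
  have hε' := hQ.sign (sign_map (qm R) hε)
  have hD : (2 : R) ∣ D - z ^ 2 * B := by
    apply ok.sq_congr
    exact ⟨2 + 2 * z ^ 2 * B ^ 2, by linear_combination h4⟩
  obtain ⟨d, hd0⟩ := hD
  have hd : D = z ^ 2 * B + 2 * d := by linear_combination hd0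
  have hmd : z ^ 2 * B * d + d ^ 2 = 1 + z ^ 2 * B ^ 2 := by
    apply ok.cancel
    apply ok.cancel
    linear_combination h4 - (D + z ^ 2 * B + 2 * d) * hd
  have hmm : ε * w = (z ^ 2 * B) ^ 2 + 2 * (z ^ 2 * B) * d := by
    linear_combination ε * h2 + z ^ 2 * B * D * hε2 + z ^ 2 * B * hd
  -- modulo two
  have g0 : qm R (w ^ 6 + w ^ 3 + 1) = 0 := by
    rw [qm_eq_zero]
    exact ⟨-ρ, by linear_combination hf⟩
  have g1 := (qm_eq_zero _).2 hzw
  have g2 := congrArg (qm R) hmd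
  have g3 := congrArg (qm R) hmm
  simp only [map_mul, map_add, map_sub, map_pow, map_one, map_ofNat, hε', one_mul] at g0 g1 g2 g3
  have hm : qm R (z ^ 2 * B) = qm R w ^ 5 := by
    apply hQ.sq
    rw [map_mul, map_pow]
    linear_combination (-qm R w * (qm R w ^ 3 - 1)) * g0 - g3 -
      (qm R z ^ 2 * qm R B * qm R d) * h0
  have hm1 : (2 : R) ∣ z ^ 2 * B - w ^ 5 := by
    rw [← qm_eq_zero, map_sub, hm, map_pow, sub_self]
  obtain ⟨m1, hm2⟩ := hm1
  have hm3 : z ^ 2 * B = w ^ 5 + 2 * m1 := by linear_combination hm2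
  rw [map_mul, map_pow] at hm
  have hdd : qm R ((d - (1 + w + w ^ 4)) * (d - (1 + w + w ^ 4) - w ^ 5)) = 0 := by
    have e1 : qm R w ^ 5 * qm R d + qm R d ^ 2 = 1 + qm R w ^ 3 := by
      linear_combination g2 - qm R d * hm +
        qm R w ^ 2 * (qm R z ^ 2 * qm R B + qm R w ^ 5) * hm -
        (qm R z * qm R w + 1) * qm R z ^ 2 * qm R B ^ 2 * g1 +
        qm R w ^ 3 * (qm R w ^ 3 - 1) * g0
    simp only [map_mul, map_add, map_sub, map_pow, map_one]
    linear_combination e1 + (qm R w ^ 3 + qm R w ^ 2) * g0 +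
      (-qm R d * qm R w ^ 5 - qm R d * qm R w ^ 4 + qm R w ^ 5 + qm R w ^ 4 -
        qm R d * qm R w - qm R d + qm R w + 1) * h0
  have hxi : ∃ ξ : ℤ, (2 : R) ∣ d - (1 + w + w ^ 4 + (ξ : R) * w ^ 5) := by
    rcases hpr _ _ ((qm_eq_zero _).1 hdd) with h | h
    · exact ⟨0, by simpa using h⟩
    · exact ⟨1, by
        have e : d - (1 + w + w ^ 4 + ((1 : ℤ) : R) * w ^ 5) =
          d - (1 + w + w ^ 4) - w ^ 5 := by push_cast; ring
        rw [e]; exact h⟩
  obtain ⟨ξ, e, he⟩ := hxi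
  have hde : d = 1 + w + w ^ 4 + (ξ : R) * w ^ 5 + 2 * e := by linear_combination he
  have hg : (2 : R) ∣ w * ρ - w ^ 4 * ρ + w ^ 5 + w ^ 6 + w ^ 9 + (ξ : R) * w ^ 10 + c * w := by
    apply ok.dvd_of_four
    refine ⟨-(w ^ 5 * m1 + m1 ^ 2 + w ^ 5 * e + m1 * (1 + w + w ^ 4 + (ξ : R) * w ^ 5 + 2 * e)), ?_⟩
    rw [hm3, hde] at hmm
    linear_combination w * hc - hmm - w * (w ^ 3 - 1) * hf
  have g5 := (qm_eq_zero _).2 hg
  simp only [map_mul, map_add, map_sub, map_pow, map_intCast] at g5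
  have hcn : ∃ n : ℤ, c = (n : R) := by
    rcases hc0 with h | h
    · exact ⟨0, by rw [h]; simp⟩
    · exact ⟨1, by rw [h]; simp⟩
  obtain ⟨n, hn⟩ := hcn
  refine ⟨ξ + n, ?_⟩
  rw [← qm_eq_zero]
  simp only [map_mul, map_add, map_sub, map_pow, map_intCast]
  rw [hn, map_intCast] at g5
  push_cast
  linear_combination qm R w ^ 2 * g5 + (qm R w ^ 6 * ξ + qm R w ^ 5 + qm R w ^ 3 * ξ +
    qm R ρ + qm R w) * g0 + (-qm R w ^ 12 * ξ - qm R w ^ 11 - qm R w ^ 9 * ξ - qm R w ^ 8 -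
    qm R w ^ 6 * ξ - qm R w ^ 7 - qm R w ^ 5 - n * qm R w ^ 3 - qm R ρ * qm R w ^ 3 -
    qm R w ^ 3 * ξ - qm R w ^ 4 - qm R w) * h0

end ring

/-- evaluation at `2i` -/
theorem eval_two_I (g : ℤ[X]) : ∃ a b : ℤ, aeval (2 * Complex.I) g = (a : ℂ) + b * (2 * Complex.I) ∧
    (4 : ℤ) ∣ b - g.coeff 1 := by
  have hm : (X ^ 2 + 4 : ℤ[X]).Monic := by monicity!
  have hd : (X ^ 2 + 4 : ℤ[X]).natDegree = 2 := by compute_degree!
  have h1 := modByMonic_add_div g (X ^ 2 + 4 : ℤ[X])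
  set r := g %ₘ (X ^ 2 + 4) with hr
  set q := g /ₘ (X ^ 2 + 4) with hq
  have h2 : r.natDegree < 2 := by
    rw [← hd]
    exact natDegree_modByMonic_lt g hm (by intro h0; rw [h0] at hd; simp at hd)
  refine ⟨r.coeff 0, r.coeff 1, ?_, ?_⟩
  · rw [← h1, map_add, map_mul, map_add, map_pow, aeval_X, map_ofNat]
    have e1 : (2 * Complex.I) ^ 2 + 4 = 0 := by
      rw [mul_pow, Complex.I_sq]
      norm_num
    rw [e1, zero_mul, add_zero, aeval_eq_sum_range' h2, Finset.sum_range_succ,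
      Finset.sum_range_one]
    simp [Algebra.smul_def]
  · refine ⟨-q.coeff 1, ?_⟩
    have e1 : ((X ^ 2 + 4) * q).coeff 1 = 4 * q.coeff 1 := by
      have e2 : (X ^ 2 + 4) * q = q * X ^ 2 + C 4 * q := by
        have : (C 4 : ℤ[X]) = 4 := rfl
        rw [this]; ring
      rw [e2, coeff_add, coeff_C_mul, coeff_mul_X_pow']
      simp
    rw [← h1, coeff_add, e1]
    ring

theorem unit_two_I {f V k : ℤ[X]} (h : (X ^ 2 + 4) * V - 1 = f * k) : (4 : ℤ) ∣ f.coeff 1 := by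
  obtain ⟨a, b, h1, h2⟩ := eval_two_I f
  obtain ⟨a', b', h3, -⟩ := eval_two_I k
  have h4 := congrArg (aeval (2 * Complex.I)) h
  rw [map_sub, map_mul, map_add, map_pow, aeval_X, map_ofNat, map_one, map_mul, h1, h3] at h4
  have e1 : (2 * Complex.I) ^ 2 + 4 = 0 := by
    rw [mul_pow, Complex.I_sq]
    norm_num
  rw [e1, zero_mul, zero_sub] at h4
  have hn : ∀ a b : ℤ, Complex.normSq ((a : ℂ) + b * (2 * Complex.I)) =
      ((a ^ 2 + 4 * b ^ 2 : ℤ) : ℝ) := by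
    intro a b
    rw [Complex.normSq_apply]
    simp
    ring
  have h5 := congrArg Complex.normSq h4
  rw [Complex.normSq_neg, Complex.normSq_one, Complex.normSq_mul, hn, hn] at h5
  have h6 : (a ^ 2 + 4 * b ^ 2) * (a' ^ 2 + 4 * b' ^ 2) = 1 := by exact_mod_cast h5.symm
  have h7 : a ^ 2 + 4 * b ^ 2 = 1 := by
    rcases Int.eq_one_or_neg_one_of_mul_eq_one h6 with h | h
    · exact h
    · nlinarith [sq_nonneg a, sq_nonneg b]
  have h8 : b = 0 := by nlinarith [sq_nonneg a, sq_nonneg b, sq_nonneg (b - 1), sq_nonneg (b + 1)]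
  rw [h8] at h2
  obtain ⟨c, hc⟩ := h2
  exact ⟨-c, by linarith⟩

theorem fin_ee {k l : ℕ} {ε : ℤ} {w : ℂ} (h : Sys (2 * k) (2 * l) ε w) :
    LR (2 * k) (2 * l) w ≠ 1 := by
  intro hL
  obtain ⟨h1, h2⟩ := case_ee h hL
  have hint := h.integral
  have ok := h.ok
  have hm := minpoly.monic hint
  have hk := h.ha
  have hl := h.hb
  have hLc : PP (2 * k) (w ^ 2 + 2) * PP (2 * l) (FF (2 * k) w ^ 2 + 2) = 1 := by
    rw [← coe_LR, hL]
    rfl
  have hnr := no_real_root hint h.ha h.hb (by omega) hLc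
  have hrd : rd (minpoly ℤ w) = Ph := by
    have e1 := even_deg hm hnr
    have e2 := minpoly.natDegree_pos hint
    have e3 : rd (minpoly ℤ w) ∣ rd ((X + 1) * (X ^ 6 + X ^ 3 + 1)) := by
      apply (two_dvd_iff hint _).1
      simp only [map_add, map_pow, aeval_X, map_one, map_mul]
      exact h1
    have e4 : rd ((X + 1) * (X ^ 6 + X ^ 3 + 1)) = ((X + 1) * Ph : (ZMod 2)[X]) := by
      simp only [rd, Ph, Polynomial.map_add, Polynomial.map_pow, Polynomial.map_X,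
        Polynomial.map_one, Polynomial.map_mul]
    rw [e4] at e3
    have e5 : (rd (minpoly ℤ w)).natDegree = (minpoly ℤ w).natDegree := hm.natDegree_map _
    exact rd_eq_Ph (hm.map _) (by rw [e5]; exact e1) (by rw [e5]; exact e2) e3
  have hPd : (X ^ 6 + X ^ 3 + 1 : ℤ[X]).natDegree = 6 := by compute_degree!
  have hPm : (X ^ 6 + X ^ 3 + 1 : ℤ[X]).Monic := by monicity!
  have hfd : (minpoly ℤ w).natDegree = 6 := by
    rw [← Ph_natDegree, ← hrd]
    exact (hm.natDegree_map _).symm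
  have hrP : rd (X ^ 6 + X ^ 3 + 1) = Ph := by
    simp only [rd, Ph, Polynomial.map_add, Polynomial.map_pow, Polynomial.map_X,
      Polynomial.map_one]
  -- `f = X⁶ + X³ + 1 + 2 r`
  obtain ⟨r, hr⟩ : ∃ r : ℤ[X], minpoly ℤ w - (X ^ 6 + X ^ 3 + 1) = 2 * r := by
    apply rd_eq_zero
    rw [rd, Polynomial.map_sub]
    exact sub_eq_zero.2 (hrd.trans hrP.symm)
  have hC2 : (2 : ℤ[X]) = C 2 := rfl
  have hrdeg : r.degree < (minpoly ℤ w).degree := by
    have e1 : (minpoly ℤ w - (X ^ 6 + X ^ 3 + 1)).degree < (minpoly ℤ w).degree := by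
      apply degree_sub_lt
      · rw [degree_eq_natDegree hm.ne_zero, degree_eq_natDegree hPm.ne_zero, hfd, hPd]
      · exact hm.ne_zero
      · rw [hm.leadingCoeff, hPm.leadingCoeff]
    rw [hr, hC2, degree_C_mul (by norm_num)] at e1
    exact e1
  have hf0 : wR w ^ 6 + wR w ^ 3 + 1 + 2 * aeval (wR w) r = 0 := by
    have e1 : aeval (wR w) (minpoly ℤ w) = 0 := by
      apply Subtype.ext
      rw [coe_aeval, minpoly.aeval]
      rfl
    have e2 := congrArg (aeval (wR w)) hr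
    simp only [map_sub, map_mul, map_add, map_pow, aeval_X, map_one, map_ofNat, e1] at e2
    linear_combination -e2
  have hpr : ∀ x y : Zw w, (2 : Zw w) ∣ x * y → (2 : Zw w) ∣ x ∨ (2 : Zw w) ∣ y := by
    intro x y hxy
    obtain ⟨g, rfl⟩ := exists_poly x
    obtain ⟨g', rfl⟩ := exists_poly y
    rw [← map_mul, two_dvd_iff hint, hrd] at hxy
    rw [two_dvd_iff hint, two_dvd_iff hint, hrd]
    have e1 : rd (g * g') = rd g * rd g' := Polynomial.map_mul _
    rw [e1] at hxy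
    exact Ph_irr.prime.dvd_or_dvd hxy
  have h3 := h.eqW
  rw [al_even l] at h3
  have h4 := te_sq l (zR (2 * k) w ^ 2 + 2)
  obtain ⟨n, hn⟩ := ee_fin ok hpr h.signR h3 (by linear_combination h4) h2 hf0
  -- the coefficient of `X` in `r` is odd
  have hodd : (2 : ℤ) ∣ r.coeff 1 - 1 := by
    have e1 : (2 : Zw w) ∣ aeval (wR w) (r - (X ^ 4 + X + X ^ 5 + C n * X ^ 3)) := by
      simp only [map_sub, map_mul, map_add, map_pow, aeval_X, aeval_C]
      exact hn
    have e2 : (r - (X ^ 4 + X + X ^ 5 + C n * X ^ 3)).degree < (minpoly ℤ w).degree := by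
      apply lt_of_le_of_lt (degree_sub_le _ _)
      apply max_lt hrdeg
      rw [degree_eq_natDegree hm.ne_zero, hfd]
      have : (X ^ 4 + X + X ^ 5 + C n * X ^ 3 : ℤ[X]).degree ≤ 5 := by compute_degree
      exact lt_of_le_of_lt this (by norm_num)
    have e3 := coeff_even hint e2 e1 1
    rw [coeff_sub] at e3
    simpa [coeff_X, coeff_X_pow] using e3
  have hf1 : (minpoly ℤ w).coeff 1 = 2 * r.coeff 1 := by
    have e1 : minpoly ℤ w = (X ^ 6 + X ^ 3 + 1) + C 2 * r := by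
      rw [← hC2]
      linear_combination hr
    rw [e1, coeff_add, coeff_C_mul]
    simp [coeff_X_pow, coeff_one]
  -- `w² + 4` is a unit
  unfold LR at hL
  rw [PP_even, PP_even] at hL
  obtain ⟨V, hV⟩ := exists_poly (al k (wR w ^ 2 + 2) ^ 2 * ((zR (2 * k) w ^ 2 + 2 + 2) *
    al l (zR (2 * k) w ^ 2 + 2) ^ 2))
  have hV1 : aeval (wR w) ((X ^ 2 + 4) * V - 1) = 0 := by
    simp only [map_sub, map_mul, map_add, map_pow, aeval_X, map_one, map_ofNat, hV]
    linear_combination hL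
  have hV2 : aeval w ((X ^ 2 + 4) * V - 1) = 0 := by
    rw [← coe_aeval, hV1]
    rfl
  obtain ⟨q, hq⟩ := minpoly.isIntegrallyClosed_dvd hint hV2
  have h5 := unit_two_I hq
  rw [hf1] at h5
  omega

end Pool.Agent.DFJ
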