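import Pool.Agent.DFJ.Cases

/-!
# DFJ/FinEO: one index even, the other odd: the top coefficient is not `1`
-/

set_option autoImplicit false

namespace Pool.Agent.DFJ

open Polynomial

/-- The computation in `R/2`. -/
theorem eo_fin {Q : Type*} [CommRing Q] (h0 : (2 : Q) = 0) {w z y : Q} (hzw : z * w = 1)
    (h6 : w ^ 6 + w ^ 4 + w ^ 3 + w + 1 = 0) (hy : y ^ 2 + y + z ^ 2 = 0) :
    w ^ 64 = w ∧ y ^ 64 = y + 1 := by
  have hm : z ^ 6 + z ^ 5 + z ^ 3 + z ^ 2 + 1 = 0 := by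
    have h1 : (z * w) ^ 6 + z ^ 2 * (z * w) ^ 4 + z ^ 3 * (z * w) ^ 3 + z ^ 5 * (z * w) + z ^ 6 = 0 := by
      linear_combination z ^ 6 * h6
    rw [hzw] at h1
    linear_combination h1
  have z8 : z ^ 8 = 1 + z := by
    linear_combination (z ^ 2 - z + 1) * hm - (z ^ 5 + z ^ 2 + 1) * h0
  have y2 : y ^ 2 = y + z ^ 2 := by linear_combination hy - (y + z ^ 2) * h0
  have z16 : z ^ 16 = 1 + z ^ 2 := by
    have : z ^ 16 = (z ^ 8) ^ 2 := by ring
    rw [this, z8]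
    linear_combination z * h0
  have z32 : z ^ 32 = 1 + z ^ 4 := by
    have : z ^ 32 = (z ^ 16) ^ 2 := by ring
    rw [this, z16]
    linear_combination z ^ 2 * h0
  have z64 : z ^ 64 = z := by
    have : z ^ 64 = (z ^ 32) ^ 2 := by ring
    rw [this, z32]
    linear_combination z8 + (z ^ 4 + 1) * h0
  have y4 : y ^ 4 = y + z ^ 2 + z ^ 4 := by
    have : y ^ 4 = (y ^ 2) ^ 2 := by ring
    rw [this, y2]
    linear_combination y2 + y * z ^ 2 * h0
  have y8 : y ^ 8 = y + z ^ 2 + z ^ 4 + 1 + z := by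
    have : y ^ 8 = (y ^ 4) ^ 2 := by ring
    rw [this, y4]
    linear_combination y2 + z8 + (y * z ^ 2 + y * z ^ 4 + z ^ 2 * z ^ 4) * h0
  have y16 : y ^ 16 = y + z ^ 4 + z := by
    have : y ^ 16 = (y ^ 8) ^ 2 := by ring
    rw [this, y8]
    linear_combination y2 + z8 + (y * z ^ 2 + y * z ^ 4 + y + y * z + z ^ 2 * z ^ 4 + z ^ 2 +
      z ^ 2 * z + z ^ 4 + z ^ 4 * z + z + z ^ 2 + 1) * h0
  have y32 : y ^ 32 = y + 1 + z := by
    have : y ^ 32 = (y ^ 16) ^ 2 := by ring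
    rw [this, y16]
    linear_combination y2 + z8 + (y * z ^ 4 + y * z + z ^ 4 * z + z ^ 2) * h0
  have y64 : y ^ 64 = y + 1 := by
    have : y ^ 64 = (y ^ 32) ^ 2 := by ring
    rw [this, y32]
    linear_combination y2 + (y + y * z + z + z ^ 2) * h0
  refine ⟨?_, y64⟩
  have h2 : w * (z * w) ^ 64 = w ^ 64 * (z * w) := by
    linear_combination w ^ 65 * z64
  rw [hzw] at h2
  linear_combination -h2

theorem pow64 {w : ℂ} (ok : Ok (Zw w)) (hw : (qm (Zw w) (wR w)) ^ 64 = qm (Zw w) (wR w))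
    (x : Zw w) : (qm (Zw w) x) ^ 64 = qm (Zw w) x := by
  haveI : CharP (Qt (Zw w)) 2 :=
    CharTwo.of_one_ne_zero_of_two_eq_zero ok.Qt_ne ok.toRed.two
  obtain ⟨g, rfl⟩ := exists_poly x
  have h1 : (iterateFrobenius (Qt (Zw w)) 2 6).comp ((qm (Zw w)).comp
      (aeval (wR w) : ℤ[X] →ₐ[ℤ] Zw w).toRingHom) = (qm (Zw w)).comp
      (aeval (wR w) : ℤ[X] →ₐ[ℤ] Zw w).toRingHom := by
    apply Polynomial.ringHom_ext
    · intro a
      have e : ((qm (Zw w)).comp (aeval (wR w) : ℤ[X] →ₐ[ℤ] Zw w).toRingHom) (C a) =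
          ((a : ℤ) : Qt (Zw w)) := by
        have : (C a : ℤ[X]) = ((a : ℤ) : ℤ[X]) := by simp
        rw [this, map_intCast]
      rw [RingHom.comp_apply, e, map_intCast]
    · have e : ((qm (Zw w)).comp (aeval (wR w) : ℤ[X] →ₐ[ℤ] Zw w).toRingHom) X =
          qm (Zw w) (wR w) := by
        rw [RingHom.comp_apply]
        exact congrArg _ (aeval_X (wR w))
      rw [RingHom.comp_apply, e, iterateFrobenius_def]
      exact hw
  have h2 := congrArg (fun φ : ℤ[X] →+* Qt (Zw w) => φ g) h1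
  simp only [RingHom.comp_apply, iterateFrobenius_def] at h2
  exact h2

theorem fin_eo {k l : ℕ} {ε : ℤ} {w : ℂ} (h : Sys (2 * k) (2 * l + 1) ε w) :
    LR (2 * k) (2 * l + 1) w ≠ 1 := by
  intro hL
  obtain ⟨h1, h2, y, h3⟩ := case_eo h hL
  have g1 := (qm_eq_zero _).2 h1
  have g2 := (qm_eq_zero _).2 h2
  have g3 := (qm_eq_zero _).2 h3
  simp only [map_add, map_mul, map_pow, map_one, map_sub] at g1 g2 g3
  obtain ⟨h4, h5⟩ := eo_fin h.ok.toRed.two (sub_eq_zero.1 g2) g1 g3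
  have h6 := pow64 h.ok h4 y
  rw [h5] at h6
  apply h.ok.Qt_ne
  linear_combination h6

end Pool.Agent.DFJ
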