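import Pool.Agent.DFJ.FinEO

/-!
# DFJ/FinOO: both indices odd: the top coefficient is `1` only for the indices `1, 1`
-/

set_option autoImplicit false

namespace Pool.Agent.DFJ

open Polynomial

theorem te_lam {R : Type*} [CommRing R] {x y : R} (h : x * y = 1) (n : ℕ) :
    te n (x + y) = x ^ n + y ^ n := by
  induction n using Nat.strong_induction_on with
  | _ n ih =>
    match n with
    | 0 => simp; norm_num
    | 1 => simp
    | (n + 2) =>
      rw [te_step, ih (n + 1) (by omega), ih n (by omega)]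
      linear_combination (x ^ n + y ^ n) * h

theorem exists_lam (s : ℂ) : ∃ x y : ℂ, x * y = 1 ∧ x + y = s := by
  obtain ⟨r, hr⟩ := IsAlgClosed.exists_eq_mul_self (s ^ 2 - 4)
  exact ⟨(s + r) / 2, (s - r) / 2, by linear_combination (1 / 4 : ℂ) * hr, by ring⟩

/-- equal traces -/
theorem eq_or_inv {x y u v : ℂ} (h : x * y = 1) (h' : u * v = 1) (e : x + y = u + v) :
    x = u ∨ x = v := by
  have h1 : (x - u) * (x - v) = 0 := by
    linear_combination x * e - h + h'
  rcases mul_eq_zero.1 h1 with h2 | h2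
  · left; exact sub_eq_zero.1 h2
  · right; exact sub_eq_zero.1 h2

theorem im_of_norm {x y : ℂ} (h : x * y = 1) (hx : ‖x‖ = 1) : (x + y).im = 0 := by
  have h1 : x * (starRingEnd ℂ) x = 1 := by
    rw [Complex.mul_conj, Complex.normSq_eq_norm_sq, hx]
    norm_num
  have hx0 : x ≠ 0 := left_ne_zero_of_mul_eq_one h
  have h2 : y = (starRingEnd ℂ) x := by
    apply mul_left_cancel₀ hx0
    rw [h, h1]
  rw [h2]
  simp

theorem norm_one_of {x y : ℂ} (h : x * y = 1) {n : ℕ} (hn : 2 ≤ n)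
    (h1 : ‖x‖ ^ n = ‖x‖ ∨ ‖x‖ ^ n = ‖y‖) : ‖x‖ = 1 := by
  have hx0 : ‖x‖ ≠ 0 := norm_ne_zero_iff.2 (left_ne_zero_of_mul_eq_one h)
  rcases h1 with h1 | h1
  · obtain ⟨m, rfl⟩ : ∃ m, n = m + 1 := ⟨n - 1, by omega⟩
    have h2 : ‖x‖ ^ m = 1 := by
      apply mul_right_cancel₀ hx0
      rw [← pow_succ, h1, one_mul]
    exact (pow_eq_one_iff_of_nonneg (norm_nonneg _) (by omega)).1 h2
  · have h2 : ‖x‖ ^ (n + 1) = 1 := by
      rw [pow_succ, h1, mul_comm, ← norm_mul, h, norm_one]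
    exact (pow_eq_one_iff_of_nonneg (norm_nonneg _) (by omega)).1 h2

theorem al_sq_one {s : ℂ} (hs : s.im ≠ 0) {n : ℕ} (hn : 1 ≤ n) (h : al n s ^ 2 = 1) :
    n = 1 := by
  by_contra hne
  have hn2 : 2 ≤ n := by omega
  obtain ⟨x, y, hxy, rfl⟩ := exists_lam s
  have h1 : (te n (x + y)) ^ 2 = (x + y) ^ 2 := by
    rw [te_sq, h]
    ring
  rw [te_lam hxy] at h1
  have h2 : x ^ n * y ^ n = 1 := by rw [← mul_pow, hxy, one_pow]
  apply hs
  apply im_of_norm hxy
  apply norm_one_of hxy hn2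
  rcases sq_eq_sq_iff_eq_or_eq_neg.1 h1 with h3 | h3
  · rcases eq_or_inv h2 hxy h3 with h4 | h4
    · left; rw [← norm_pow, h4]
    · right; rw [← norm_pow, h4]
  · rcases eq_or_inv h2 (u := -x) (v := -y) (by rw [neg_mul_neg, hxy])
      (by rw [h3]; ring) with h4 | h4
    · left; rw [← norm_pow, h4, norm_neg]
    · right; rw [← norm_pow, h4, norm_neg]

theorem exists_poly_lt {w : ℂ} (hw : IsIntegral ℤ w) (x : Zw w) :
    ∃ g : ℤ[X], g.degree < (minpoly ℤ w).degree ∧ aeval (wR w) g = x := by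
  obtain ⟨g, rfl⟩ := exists_poly x
  have hm := minpoly.monic hw
  refine ⟨g %ₘ minpoly ℤ w, degree_modByMonic_lt _ hm, ?_⟩
  have h3 : aeval (wR w) (minpoly ℤ w) = 0 := by
    apply Subtype.ext
    rw [coe_aeval, minpoly.aeval]
    rfl
  have h4 := modByMonic_add_div g (minpoly ℤ w)
  have h5 := congrArg (aeval (wR w)) h4
  rw [map_add, map_mul, h3, zero_mul, add_zero] at h5
  exact h5

/-- the basis property modulo two -/
theorem coeff_even {w : ℂ} (hw : IsIntegral ℤ w) {g : ℤ[X]}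
    (hg : g.degree < (minpoly ℤ w).degree) (h : (2 : Zw w) ∣ aeval (wR w) g) (n : ℕ) :
    (2 : ℤ) ∣ g.coeff n := by
  have h1 := (two_dvd_iff hw g).1 h
  have hm := minpoly.monic hw
  have h2 : (rd g).degree < (rd (minpoly ℤ w)).degree := by
    rw [hm.degree_map]
    exact lt_of_le_of_lt degree_map_le hg
  have h3 : rd g = 0 := eq_zero_of_dvd_of_degree_lt h1 h2
  obtain ⟨k, hk⟩ := rd_eq_zero h3
  rw [hk]
  have : ((2 : ℤ[X]) * k).coeff n = 2 * k.coeff n := by
    have e : (2 : ℤ[X]) = C 2 := rfl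
    rw [e, coeff_C_mul]
  rw [this]
  exact dvd_mul_right _ _

/-- `w` is a unit: the constant coefficient -/
theorem coeff_zero_unit {w : ℂ} (hw : IsIntegral ℤ w) {w' : Zw w} (h : wR w * w' = 1) :
    IsUnit ((minpoly ℤ w).coeff 0) := by
  obtain ⟨g, rfl⟩ := exists_poly w'
  have h1 : aeval w (X * g - 1) = 0 := by
    rw [map_sub, map_mul, aeval_X, map_one, ← coe_aeval]
    have h2 : ((wR w * aeval (wR w) g : Zw w) : ℂ) = ((1 : Zw w) : ℂ) := by rw [h]
    exact sub_eq_zero.2 h2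
  obtain ⟨k, hk⟩ := minpoly.isIntegrallyClosed_dvd hw h1
  have h2 := congrArg (eval (0 : ℤ)) hk
  rw [eval_sub, eval_mul, eval_mul, eval_X, eval_one, zero_mul, zero_sub] at h2
  rw [coeff_zero_eq_eval_zero]
  exact IsUnit.of_mul_eq_one (-(eval 0 k)) (by linarith)

theorem aeval_two {f : ℤ[X]} (hf : f.Monic) (hd : f.natDegree = 2) {A : Type*} [CommRing A]
    [Algebra ℤ A] (x : A) : aeval x f = x ^ 2 + (f.coeff 1 : A) * x + (f.coeff 0 : A) := by
  have h2 : f.coeff 2 = 1 := by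
    rw [← hd]
    exact hf.coeff_natDegree
  rw [aeval_eq_sum_range, hd, Finset.sum_range_succ, Finset.sum_range_succ,
    Finset.sum_range_one, h2]
  simp only [Algebra.smul_def, eq_intCast, pow_zero, pow_one, mul_one, Int.cast_one, one_mul]
  ring

theorem quad_disc {p q : ℤ} (h : ∀ r : ℝ, r ^ 2 + p * r + q ≠ 0) : p ^ 2 < 4 * q := by
  by_contra hc
  push Not at hc
  have h1 : (0 : ℝ) ≤ (p : ℝ) ^ 2 - 4 * q := by
    have : ((4 * q : ℤ) : ℝ) ≤ ((p ^ 2 : ℤ) : ℝ) := by exact_mod_cast hc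
    push_cast at this
    linarith
  have h2 := Real.sq_sqrt h1
  apply h ((-p + Real.sqrt ((p : ℝ) ^ 2 - 4 * q)) / 2)
  linear_combination (1 / 4 : ℝ) * h2

/-- the quadratic case with `p² = 1` -/
theorem quad_norm {w : ℂ} {p : ℤ} (hp : p ^ 2 = 1) (h : w ^ 2 + p * w + 1 = 0) :
    w.im ≠ 0 ∧ w.re = -(p / 2 : ℝ) ∧ w.im ^ 2 = 3 / 4 := by
  have hp' : (p : ℝ) ^ 2 = 1 := by exact_mod_cast hp
  have h1 := congrArg Complex.re h
  have h2 := congrArg Complex.im h
  simp only [pow_two, Complex.add_re, Complex.mul_re, Complex.intCast_re, Complex.intCast_im,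
    Complex.one_re, Complex.zero_re, zero_mul, sub_zero] at h1
  simp only [pow_two, Complex.add_im, Complex.mul_im, Complex.intCast_re, Complex.intCast_im,
    Complex.one_im, Complex.zero_im, zero_mul, add_zero] at h2
  have h3 : w.im ≠ 0 := by
    intro h0
    rw [h0] at h1
    nlinarith [sq_nonneg (w.re + p / 2)]
  have h4 : w.im * (2 * w.re + p) = 0 := by linarith
  have h5 : 2 * w.re + p = 0 := by
    rcases mul_eq_zero.1 h4 with h | h
    · exact absurd h h3
    · exact h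
  have h6 : w.re = -(p / 2 : ℝ) := by linarith
  refine ⟨h3, h6, ?_⟩
  rw [h6] at h1
  nlinarith

theorem fin_oo {k l : ℕ} {ε : ℤ} {w : ℂ} (h : Sys (2 * k + 1) (2 * l + 1) ε w)
    (hkl : k ≠ 0 ∨ l ≠ 0) : LR (2 * k + 1) (2 * l + 1) w ≠ 1 := by
  intro hL
  obtain ⟨h1, h2⟩ := case_oo h hL
  have hint := h.integral
  have ok := h.ok
  have hm := minpoly.monic hint
  have hLc : PP (2 * k + 1) (w ^ 2 + 2) * PP (2 * l + 1) (FF (2 * k + 1) w ^ 2 + 2) = 1 := by
    rw [← coe_LR, hL]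
    rfl
  have hnr := no_real_root hint h.ha h.hb (by omega) hLc
  set f := minpoly ℤ w with hf
  -- the degree
  have hdeg : f.natDegree = 2 := by
    have e1 := even_deg hm hnr
    have e2 := minpoly.natDegree_pos hint
    have e3 : rd f ∣ rd (X ^ 3 + 1) := by
      apply (two_dvd_iff hint _).1
      rw [map_add, map_pow, aeval_X, map_one]
      exact h1
    have e4 : rd (X ^ 3 + 1) = (X ^ 3 + 1 : (ZMod 2)[X]) := by
      rw [rd, Polynomial.map_add, Polynomial.map_pow, Polynomial.map_X, Polynomial.map_one]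
    have e5 : (X ^ 3 + 1 : (ZMod 2)[X]).natDegree = 3 := by compute_degree!
    have e6 : (X ^ 3 + 1 : (ZMod 2)[X]) ≠ 0 := by
      intro h0
      rw [h0] at e5
      simp at e5
    rw [e4] at e3
    have e7 := natDegree_le_of_dvd e3 e6
    rw [e5, hm.natDegree_map] at e7
    rw [← hf] at e2
    obtain ⟨j, hj⟩ := e1
    omega
  obtain ⟨w', hw'⟩ := h.inv
  have hq := coeff_zero_unit hint hw'
  rw [← hf] at hq
  have hroot : ∀ r : ℝ, r ^ 2 + (f.coeff 1 : ℝ) * r + (f.coeff 0 : ℝ) ≠ 0 := by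
    intro r
    rw [← aeval_two hm hdeg]
    exact hnr r
  have hdisc := quad_disc hroot
  have hq1 : f.coeff 0 = 1 := by
    rcases Int.isUnit_iff.1 hq with h | h
    · exact h
    · rw [h] at hdisc
      nlinarith [sq_nonneg (f.coeff 1)]
  rw [hq1] at hdisc
  have hfR : wR w ^ 2 + (f.coeff 1 : Zw w) * wR w + 1 = 0 := by
    have e1 : aeval (wR w) f = 0 := by
      apply Subtype.ext
      rw [coe_aeval, hf, minpoly.aeval]
      rfl
    rw [aeval_two hm hdeg, hq1] at e1
    simpa using e1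
  have hfC : w ^ 2 + (f.coeff 1 : ℂ) * w + 1 = 0 := by
    have e1 : aeval w f = 0 := minpoly.aeval ℤ w
    rw [aeval_two hm hdeg, hq1] at e1
    simpa using e1
  set p := f.coeff 1 with hp
  have hp2 : p ^ 2 = 1 := by
    have e1 : -2 < p := by nlinarith
    have e2 : p < 2 := by nlinarith
    have e3 : p ≠ 0 := by
      intro h0
      rw [h0] at hfR
      have e4 : (2 : Zw w) ∣ wR w + 1 := by
        apply ok.red
        refine ⟨wR w, ?_⟩
        push_cast at hfR
        linear_combination hfR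
      obtain ⟨v, hv⟩ := e4
      have e5 : wR w = 2 * v ^ 2 := by
        apply ok.cancel
        push_cast at hfR
        linear_combination (wR w + 1 + 2 * v) * hv - hfR
      apply ok.nun
      refine ⟨v ^ 2 * w', ?_⟩
      linear_combination w' * e5 - hw'
    interval_cases p
    · norm_num
    · exact absurd rfl e3
    · norm_num
  obtain ⟨him, hre, him2⟩ := quad_norm hp2 hfC
  -- normal form for elements
  have hnf : ∀ x : Zw w, ∃ g : ℤ[X], g.degree < f.degree ∧ aeval (wR w) g = x ∧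
      (x : ℂ) = (g.coeff 0 : ℂ) + (g.coeff 1 : ℂ) * w := by
    intro x
    obtain ⟨g, hg1, hg2⟩ := exists_poly_lt hint x
    refine ⟨g, hg1, hg2, ?_⟩
    have e1 : g.natDegree ≤ 1 := by
      rcases eq_or_ne g 0 with h0 | h0
      · rw [h0]; simp
      · have h1 : g.natDegree < f.natDegree := natDegree_lt_natDegree h0 hg1
        omega
    rw [← hg2, coe_aeval, aeval_eq_sum_range' (n := 2) (by omega)]
    rw [Finset.sum_range_succ, Finset.sum_range_one]
    simp [Algebra.smul_def]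
  -- the norm
  have hnorm : ∀ m n : ℤ, Complex.normSq ((m : ℂ) + (n : ℂ) * w) = ((m ^ 2 - p * m * n + n ^ 2 : ℤ) : ℝ) := by
    intro m n
    rw [Complex.normSq_apply]
    simp only [Complex.add_re, Complex.mul_re, Complex.intCast_re, Complex.intCast_im,
      Complex.add_im, Complex.mul_im, zero_mul, sub_zero, zero_add, add_zero]
    rw [hre]
    have hp' : (p : ℝ) ^ 2 = 1 := by exact_mod_cast hp2
    push_cast
    linear_combination (n : ℝ) ^ 2 * him2 + (n : ℝ) ^ 2 / 4 * hp'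
  -- `z w = ± 1`
  have heq := h.eqW
  have hzd : ((zR (2 * k + 1) w : Zw w) : ℂ) = FF (2 * k + 1) w := coe_FF _ (wR w)
  set z := zR (2 * k + 1) w with hz
  have hzz : z * (z * ((ε : Zw w) * al (2 * l + 1) (z ^ 2 + 2)) * w') = 1 :=
    unit_z hw' (by linear_combination heq)
  obtain ⟨g, hg1, hg2, hg3⟩ := hnf (z * wR w)
  obtain ⟨g', -, -, hg3'⟩ := hnf ((z * ((ε : Zw w) * al (2 * l + 1) (z ^ 2 + 2)) * w') * w')
  have hinv : (z * wR w) * ((z * ((ε : Zw w) * al (2 * l + 1) (z ^ 2 + 2)) * w') * w') = 1 := by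
    linear_combination (wR w * w') * hzz + hw'
  have hN : ((g.coeff 0) ^ 2 - p * g.coeff 0 * g.coeff 1 + g.coeff 1 ^ 2) *
      ((g'.coeff 0) ^ 2 - p * g'.coeff 0 * g'.coeff 1 + g'.coeff 1 ^ 2) = 1 := by
    have e1 : (((z * wR w) * ((z * ((ε : Zw w) * al (2 * l + 1) (z ^ 2 + 2)) * w') * w') : Zw w) : ℂ)
        = 1 := by rw [hinv]; rfl
    have e2 := congrArg Complex.normSq e1
    rw [Subalgebra.coe_mul (Zw w) (z * wR w), Complex.normSq_mul, hg3, hg3', hnorm, hnorm,
      Complex.normSq_one] at e2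
    exact_mod_cast e2
  have hpos : 0 ≤ (g.coeff 0) ^ 2 - p * g.coeff 0 * g.coeff 1 + g.coeff 1 ^ 2 := by
    nlinarith [sq_nonneg (2 * g.coeff 0 - p * g.coeff 1), sq_nonneg (g.coeff 1)]
  have hN1 : (g.coeff 0) ^ 2 - p * g.coeff 0 * g.coeff 1 + g.coeff 1 ^ 2 = 1 := by
    rcases Int.eq_one_or_neg_one_of_mul_eq_one hN with h | h
    · exact h
    · rw [h] at hpos
      norm_num at hpos
  have hev : (2 : ℤ) ∣ g.coeff 1 := by
    have e1 : (2 : Zw w) ∣ aeval (wR w) (g - 1) := by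
      rw [map_sub, hg2, map_one]
      exact h2
    have e2 : (g - 1).degree < f.degree := by
      apply lt_of_le_of_lt (degree_sub_le _ _)
      apply max_lt hg1
      rw [degree_one, degree_eq_natDegree hm.ne_zero, hdeg]
      norm_num
    have e3 := coeff_even hint e2 e1 1
    rw [coeff_sub] at e3
    simpa [coeff_one] using e3
  have hg0 : g.coeff 1 = 0 := by
    obtain ⟨n, hn⟩ := hev
    rw [hn] at hN1 ⊢
    have e1 : (2 * g.coeff 0 - p * (2 * n)) ^ 2 + 12 * n ^ 2 = 4 := by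
      linear_combination 4 * hN1 + 4 * n ^ 2 * hp2
    have e2 : n ^ 2 < 1 := by nlinarith [sq_nonneg (2 * g.coeff 0 - p * (2 * n))]
    have e3 : n = 0 := by nlinarith [sq_nonneg n, sq_nonneg (n - 1), sq_nonneg (n + 1)]
    rw [e3]; rfl
  have hg00 : g.coeff 0 ^ 2 = 1 := by
    rw [hg0] at hN1
    linear_combination hN1
  have hzw : (FF (2 * k + 1) w * w) ^ 2 = 1 := by
    have e1 : FF (2 * k + 1) w * w = (g.coeff 0 : ℂ) := by
      have e2 : ((z * wR w : Zw w) : ℂ) = FF (2 * k + 1) w * w := by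
        rw [Subalgebra.coe_mul, hzd]
        rfl
      rw [← e2, hg3, hg0]
      simp
    rw [e1]
    exact_mod_cast hg00
  have hpC : (p : ℂ) ^ 2 = 1 := by exact_mod_cast hp2
  have hw6 : w ^ 6 = 1 := by
    have e1 : w ^ 3 = p := by linear_combination (w - p) * hfC + w * hpC
    have e2 : w ^ 6 = (w ^ 3) ^ 2 := by ring
    rw [e2, e1, hpC]
  have hw0 := h.hw
  have ha1 : al (2 * k + 1) (w ^ 2 + 2) ^ 2 = 1 := by
    unfold FF at hzw
    linear_combination hzw - al (2 * k + 1) (w ^ 2 + 2) ^ 2 * hw6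
  have hεC : (ε : ℂ) ^ 2 = 1 := by
    rcases h.hε with h | h <;> rw [h] <;> norm_num
  have hb1 : al (2 * l + 1) (FF (2 * k + 1) w ^ 2 + 2) ^ 2 = 1 := by
    have e0 := h.eq
    rw [FF] at e0
    have e1 : FF (2 * k + 1) w ^ 4 * w ^ 4 = 1 := by
      linear_combination ((FF (2 * k + 1) w * w) ^ 2 + 1) * hzw
    set Y := al (2 * l + 1) (FF (2 * k + 1) w ^ 2 + 2) with hY
    linear_combination w ^ 4 * (FF (2 * k + 1) w ^ 2 * Y + ε * w) * e0 - Y ^ 2 * e1 +
      hw6 + w ^ 6 * hεC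
  -- the two traces are not real
  have hp0 : (p : ℝ) ≠ 0 := by
    intro h0
    have : (p : ℝ) ^ 2 = 1 := by exact_mod_cast hp2
    rw [h0] at this
    norm_num at this
  have hs : (w ^ 2 + 2).im ≠ 0 := by
    have e1 : w ^ 2 + 2 = 1 - (p : ℂ) * w := by linear_combination hfC
    rw [e1]
    simp only [Complex.sub_im, Complex.one_im, Complex.mul_im, Complex.intCast_re,
      Complex.intCast_im, zero_mul, add_zero, zero_sub]
    exact neg_ne_zero.2 (mul_ne_zero hp0 him)
  have hu : (FF (2 * k + 1) w ^ 2 + 2).im ≠ 0 := by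
    have e0 : w ^ 3 = p := by linear_combination (w - p) * hfC + w * hpC
    have e1 : FF (2 * k + 1) w ^ 2 + 2 = 2 + (p : ℂ) * w := by
      linear_combination w ^ 4 * hzw - FF (2 * k + 1) w ^ 2 * hw6 + w * e0
    rw [e1]
    simp only [Complex.add_im, Complex.mul_im, Complex.intCast_re, Complex.intCast_im, zero_mul,
      add_zero]
    have e2 : (2 : ℂ).im = 0 := rfl
    rw [e2, zero_add]
    exact mul_ne_zero hp0 him
  have r1 := al_sq_one hs (by omega) ha1
  have r2 := al_sq_one hu (by omega) hb1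
  omega

end Pool.Agent.DFJ
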