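import Pool.Agent.DFJ.Cross

/-!
# DFJ/FoxRel: Fox derivatives of the relator
-/

set_option autoImplicit false

namespace Pool.Agent.DFJ

/-- generator -/
abbrev ga : FreeGroup (Fin 2) := FreeGroup.of 0
/-- generator -/
abbrev gb : FreeGroup (Fin 2) := FreeGroup.of 1
/-- the element `b a⁻¹` -/
abbrev gx : FreeGroup (Fin 2) := gb * ga⁻¹
/-- the element `b⁻¹ a` -/
abbrev gy : FreeGroup (Fin 2) := gb⁻¹ * ga

variable {S : Type*} [Ring S] {ρ : FreeGroup (Fin 2) →* S} {d : Fin 2 → FreeGroup (Fin 2) → S}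

/-- the derivations for a representation -/
structure FoxR (ρ : FreeGroup (Fin 2) →* S) (d : Fin 2 → FreeGroup (Fin 2) → S) : Prop where
  of : ∀ j i, d j (FreeGroup.of i) = if i = j then 1 else 0
  mul : ∀ j u v, d j (u * v) = d j u + ρ u * d j v

variable (h : FoxR ρ d)

include h

theorem FoxR.fund (u : FreeGroup (Fin 2)) :
    d 0 u * (ρ ga - 1) + d 1 u * (ρ gb - 1) = ρ u - 1 := by
  induction u using FreeGroup.induction_on with
  | C1 => rw [d_one (h.mul 0), d_one (h.mul 1), map_one]; simp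
  | of i =>
    rw [h.of, h.of]
    fin_cases i
    · simp
    · simp
  | inv_of i hi =>
    rw [d_inv (h.mul 0), d_inv (h.mul 1), neg_mul, neg_mul, mul_assoc, mul_assoc, ← neg_add,
      ← mul_add, hi, mul_sub, ← map_mul, inv_mul_cancel, map_one, mul_one]
    abel
  | mul u v hu hv =>
    rw [h.mul, h.mul, add_mul, add_mul, mul_assoc, mul_assoc, map_mul]
    have e : d 0 u * (ρ ga - 1) + ρ u * (d 0 v * (ρ ga - 1)) +
        (d 1 u * (ρ gb - 1) + ρ u * (d 1 v * (ρ gb - 1))) =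
        (d 0 u * (ρ ga - 1) + d 1 u * (ρ gb - 1)) +
          ρ u * (d 0 v * (ρ ga - 1) + d 1 v * (ρ gb - 1)) := by
      rw [mul_add]; abel
    rw [e, hu, hv, mul_sub, mul_one]
    abel

theorem FoxR.a0 : d 0 ga = 1 := by rw [h.of]; simp
theorem FoxR.b0 : d 0 gb = 0 := by rw [h.of]; simp

theorem FoxR.x0 : d 0 gx = -ρ gx := by
  rw [gx, h.mul, h.b0, d_inv (h.mul 0), h.a0, mul_one, mul_neg, ← map_mul, zero_add]

theorem FoxR.y0 : d 0 gy = ρ gb⁻¹ := by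
  rw [gy, h.mul, d_inv (h.mul 0), h.b0, h.a0, mul_one, mul_zero, neg_zero, zero_add]

theorem FoxR.w0 (m : ℤ) : d 0 (wd ga gb m) =
    -(om ρ gx m * ρ gx) + ρ (gx ^ m) * (om ρ gy m * ρ gb⁻¹) := by
  unfold wd
  rw [h.mul, d_zpow (h.mul 0), d_zpow (h.mul 0), h.x0, h.y0, mul_neg]

theorem FoxR.rel0 (m n : ℤ) (hr : ρ (relator m n) = 1) : d 0 (relator m n) =
    1 + (ρ ga - 1) * (om ρ (wd ga gb m) n *
      (-(om ρ gx m * ρ gx) + ρ (gx ^ m) * (om ρ gy m * ρ gb⁻¹))) := by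
  have h1 : d 0 (relator m n) = 1 + (ρ ga - 1) * d 0 (wd ga gb m ^ n) := by
    have h2 : ρ (ga * wd ga gb m ^ n * gb⁻¹) * ρ (wd ga gb m ^ n)⁻¹ = 1 := by
      rw [← map_mul]; exact hr
    unfold relator
    rw [h.mul, h.mul, h.mul, d_inv (h.mul 0), d_inv (h.mul 0), h.a0, h.b0, mul_zero, neg_zero,
      mul_zero, add_zero, mul_neg, ← mul_assoc, h2, one_mul, sub_mul, one_mul]
    abel
  rw [h1, d_zpow (h.mul 0), h.w0]

theorem FoxR.key {r : FreeGroup (Fin 2)} (hr : ρ r = 1) :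
    (d 0 r + d 1 r * ρ gx) * ρ ga = d 0 r + d 1 r := by
  have h1 := h.fund r
  rw [hr, sub_self] at h1
  have h2 : ρ gx * ρ ga = ρ gb := by rw [← map_mul]; simp [gx]
  have h3 : d 0 r * (ρ ga - 1) + d 1 r * (ρ gb - 1) =
    d 0 r * ρ ga + d 1 r * ρ gb - (d 0 r + d 1 r) := by
    rw [mul_sub, mul_sub, mul_one, mul_one]; abel
  rw [h3, sub_eq_zero] at h1
  rw [add_mul, mul_assoc, h2, h1]

/-- first identity -/
theorem FoxR.id1 {r : FreeGroup (Fin 2)} (hr : ρ r = 1) :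
    d 1 r * (ρ gx - 1) = (d 0 r + d 1 r * ρ gx) * (1 - ρ ga) := by
  rw [mul_sub _ 1 (ρ ga), h.key hr, mul_one, mul_sub, mul_one]
  abel

/-- second identity -/
theorem FoxR.id0 {r : FreeGroup (Fin 2)} (hr : ρ r = 1) :
    d 0 r * (1 - ρ gx) = (d 0 r + d 1 r * ρ gx) * (1 - ρ (ga * gb * ga⁻¹)) := by
  have h4 : ga * gb * ga⁻¹ = ga * gx := by simp [gx, mul_assoc]
  have h5 : ρ (ga * gx) = ρ ga * ρ gx := map_mul _ _ _
  rw [h4, h5, mul_sub _ 1 (ρ ga * ρ gx), ← mul_assoc, h.key hr,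
    add_mul (d 0 r) (d 1 r) (ρ gx), mul_sub, mul_one, mul_one]
  abel

end Pool.Agent.DFJ
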