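import Mathlib

/-!
# DFJ/Laur: coefficients of Laurent polynomials
-/

set_option autoImplicit false

namespace Pool.Agent.DFJ

open LaurentPolynomial

theorem coeff_T_mul (n k : ℤ) (f : ℂ[T;T⁻¹]) : (T n * f).coeff k = f.coeff (k - n) := by
  have h : (AddMonoidAlgebra.single n (1 : ℂ) * f).coeff k = 1 * f.coeff (-n + k) :=
    AddMonoidAlgebra.coeff_single_mul_apply _ _ _ _
  have e : T n = (AddMonoidAlgebra.single n (1 : ℂ)) := rfl
  rw [e, h, one_mul]
  congr 1
  ring

theorem coeff_C_mul (c : ℂ) (k : ℤ) (f : ℂ[T;T⁻¹]) : (C c * f).coeff k = c * f.coeff k := by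
  have h : (AddMonoidAlgebra.single (0 : ℤ) c * f).coeff k = c * f.coeff (-0 + k) :=
    AddMonoidAlgebra.coeff_single_mul_apply _ _ _ _
  have e : C c = (AddMonoidAlgebra.single (0 : ℤ) c) := rfl
  rw [e, h]
  congr 2
  ring

/-- The shape of the quotient. -/
theorem shape {τ p : ℂ[T;T⁻¹]} {c L : ℂ} (h : τ * (T 2 - C c * T 1 + 1) = p)
    (hp : ∀ k, p.coeff k ≠ 0 → -2 ≤ k ∧ k ≤ 2) (h1 : p.coeff 2 = L) (h2 : p.coeff (-2) = L)
    (hL : L ≠ 0) :
    τ.coeff 0 = L ∧ τ.coeff (-2) = L ∧ ∀ k, τ.coeff k ≠ 0 → -2 ≤ k ∧ k ≤ 0 := by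
  have key : ∀ k, τ.coeff (k - 2) - c * τ.coeff (k - 1) + τ.coeff k = p.coeff k := by
    intro k
    rw [← h]
    have e : τ * (T 2 - C c * T 1 + 1) = T 2 * τ - C c * (T 1 * τ) + τ := by ring
    rw [e, AddMonoidAlgebra.coeff_add, AddMonoidAlgebra.coeff_sub, Finsupp.add_apply,
      Finsupp.sub_apply, coeff_T_mul, coeff_C_mul, coeff_T_mul]
  have hne : τ.coeff.support.Nonempty := by
    by_contra h0
    rw [Finset.not_nonempty_iff_eq_empty, Finsupp.support_eq_empty] at h0
    have h3 := key 2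
    rw [h0, h1] at h3
    simp at h3
    exact hL h3.symm
  have hmax : ∀ k, τ.coeff k ≠ 0 → k ≤ 0 := by
    intro k hk
    have hk' : k ∈ τ.coeff.support := Finsupp.mem_support_iff.2 hk
    have hM := Finset.le_max' _ k hk'
    set M := τ.coeff.support.max' ⟨k, hk'⟩ with hMd
    have hMm : M ∈ τ.coeff.support := Finset.max'_mem _ _
    have h3 : ∀ j, M < j → τ.coeff j = 0 := by
      intro j hj
      by_contra hj0
      have := Finset.le_max' _ j (Finsupp.mem_support_iff.2 hj0)
      omega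
    have h4 := key (M + 2)
    rw [h3 (M + 2 - 1) (by omega), h3 (M + 2) (by omega)] at h4
    have h5 : M + 2 - 2 = M := by ring
    rw [h5, mul_zero, sub_zero, add_zero] at h4
    have h6 := (hp (M + 2) (by rw [← h4]; exact Finsupp.mem_support_iff.1 hMm)).2
    omega
  have hmin : ∀ k, τ.coeff k ≠ 0 → -2 ≤ k := by
    intro k hk
    have hk' : k ∈ τ.coeff.support := Finsupp.mem_support_iff.2 hk
    have hM := Finset.min'_le _ k hk'
    set M := τ.coeff.support.min' ⟨k, hk'⟩ with hMd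
    have hMm : M ∈ τ.coeff.support := Finset.min'_mem _ _
    have h3 : ∀ j, j < M → τ.coeff j = 0 := by
      intro j hj
      by_contra hj0
      have := Finset.min'_le _ j (Finsupp.mem_support_iff.2 hj0)
      omega
    have h4 := key M
    rw [h3 (M - 1) (by omega), h3 (M - 2) (by omega), mul_zero, sub_zero, zero_add] at h4
    have h6 := (hp M (by rw [← h4]; exact Finsupp.mem_support_iff.1 hMm)).1
    omega
  have hz : ∀ k, (k < -2 ∨ 0 < k) → τ.coeff k = 0 := by
    intro k hk
    by_contra h0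
    have := hmax k h0
    have := hmin k h0
    omega
  refine ⟨?_, ?_, fun k hk => ⟨hmin k hk, hmax k hk⟩⟩
  · have h3 := key 2
    rw [hz (2 - 1) (by omega), hz 2 (by omega), h1] at h3
    have e : (2 : ℤ) - 2 = 0 := by norm_num
    rw [e] at h3
    linear_combination h3
  · have h3 := key (-2)
    rw [hz (-2 - 1) (by omega), hz (-2 - 2) (by omega), h2] at h3
    linear_combination h3

end Pool.Agent.DFJ
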