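import Pool.Agent.DFJ.Arith
import Pool.Agent.DFJ.Defs

/-!
# DFJ/Mat: two parabolic matrices
-/

set_option autoImplicit false

namespace Pool.Agent.DFJ

open Matrix

/-- the trace -/
abbrev tr (g : SLC) : ℂ := (mx g).trace

theorem mx_inv (g : SLC) : mx g⁻¹ = tr g • (1 : Matrix (Fin 2) (Fin 2) ℂ) - mx g := by
  have h : mx g⁻¹ = (mx g).adjugate := rfl
  rw [h, adjugate_fin_two]
  ext i j
  fin_cases i <;> fin_cases j <;> simp [trace_fin_two]

theorem tr_inv (g : SLC) : tr g⁻¹ = tr g := by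
  unfold tr
  rw [mx_inv, trace_sub, trace_smul, trace_one]
  simp
  ring

theorem mx_sq (g : SLC) : mx g * mx g = tr g • mx g - 1 := by
  have h1 : mx g * mx g⁻¹ = 1 := by
    rw [← mx_mul, mul_inv_cancel, mx_one]
  rw [mx_inv, mul_sub, mul_smul_comm, mul_one] at h1
  rw [← h1]
  abel

theorem mx_pow_step (g : SLC) (k : ℕ) : mx (g ^ (k + 2)) = tr g • mx (g ^ (k + 1)) - mx (g ^ k) := by
  have e1 : g ^ (k + 2) = g ^ k * (g * g) := by rw [pow_add, pow_two]
  have e2 : g ^ (k + 1) = g ^ k * g := pow_succ g k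
  rw [e1, e2, mx_mul, mx_mul, mx_mul, mx_sq, mul_sub, mul_smul_comm, mul_one]

theorem tr_pow (g : SLC) (k : ℕ) : tr (g ^ k) = te k (tr g) := by
  induction k using Nat.strong_induction_on with
  | _ n ih =>
    match n with
    | 0 =>
      rw [pow_zero, te_zero, tr, mx_one, trace_one]
      simp
    | 1 => simp
    | (n + 2) =>
      have h1 := ih (n + 1) (by omega)
      have h2 := ih n (by omega)
      unfold tr at h1 h2 ⊢
      rw [mx_pow_step, trace_sub, trace_smul, te_step, h1, h2, smul_eq_mul]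

theorem tr_zpow (g : SLC) (n : ℤ) : tr (g ^ n) = te n.natAbs (tr g) := by
  obtain ⟨k, rfl | rfl⟩ := n.eq_nat_or_neg
  · rw [zpow_natCast, tr_pow, Int.natAbs_natCast]
  · rw [_root_.zpow_neg, zpow_natCast, tr_inv, tr_pow, Int.natAbs_neg, Int.natAbs_natCast]

/-- a nilpotent matrix -/
structure Nil2 (E : Matrix (Fin 2) (Fin 2) ℂ) : Prop where
  tr0 : E.trace = 0
  det0 : E.det = 0

theorem Nil2.sandwich {E : Matrix (Fin 2) (Fin 2) ℂ} (hE : Nil2 E) (M : Matrix (Fin 2) (Fin 2) ℂ) :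
    E * M * E = (M * E).trace • E := by
  have h2 := hE.det0
  rw [det_fin_two] at h2
  ext i j
  fin_cases i <;> fin_cases j <;> simp [trace_fin_two, mul_apply, Fin.sum_univ_two]
  · linear_combination (-M 1 1) * h2
  · linear_combination (M 0 1) * h2
  · linear_combination (M 1 0) * h2
  · linear_combination (-M 0 0) * h2

theorem c_pow {E : Matrix (Fin 2) (Fin 2) ℂ} (hE : Nil2 E) (g : SLC) (k : ℕ) :
    (mx (g ^ k) * E).trace = al k (tr g) * (mx g * E).trace := by
  induction k using Nat.strong_induction_on with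
  | _ n ih =>
    match n with
    | 0 => rw [pow_zero, mx_one, one_mul, hE.tr0, al_zero, zero_mul]
    | 1 => simp
    | (n + 2) =>
      rw [mx_pow_step, sub_mul, smul_mul_assoc, trace_sub, trace_smul, ih (n + 1) (by omega),
        ih n (by omega), al_step, smul_eq_mul]
      ring

theorem c_inv {E : Matrix (Fin 2) (Fin 2) ℂ} (hE : Nil2 E) (g : SLC) :
    (mx g⁻¹ * E).trace = - (mx g * E).trace := by
  rw [mx_inv, sub_mul, smul_mul_assoc, one_mul, trace_sub, trace_smul, hE.tr0]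
  simp

theorem c_zpow_sq {E : Matrix (Fin 2) (Fin 2) ℂ} (hE : Nil2 E) (g : SLC) (n : ℤ) :
    (mx (g ^ n) * E).trace ^ 2 =
      (al n.natAbs (tr g) * (mx g * E).trace) ^ 2 := by
  obtain ⟨k, rfl | rfl⟩ := n.eq_nat_or_neg
  · rw [zpow_natCast, c_pow hE, Int.natAbs_natCast]
  · rw [_root_.zpow_neg, zpow_natCast, c_inv hE, c_pow hE, Int.natAbs_neg, Int.natAbs_natCast, neg_sq]

/-- the trace of a commutator with a parabolic element -/
theorem tr_gEgE {E : Matrix (Fin 2) (Fin 2) ℂ} (hE : Nil2 E) (g : SLC) :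
    (mx g * E * mx g⁻¹ * E).trace =
      -(mx g * E).trace ^ 2 := by
  have e1 : mx g * E * mx g⁻¹ * E =
      tr g • (mx g * (E * 1 * E)) - mx g * (E * mx g * E) := by
    rw [mx_inv]
    simp only [mul_sub, sub_mul, mul_smul_comm, smul_mul_assoc, mul_one, mul_assoc]
  rw [e1, hE.sandwich, hE.sandwich, one_mul, hE.tr0]
  simp only [zero_smul, mul_zero, smul_zero, zero_sub, trace_neg, mul_smul_comm, trace_smul,
    smul_eq_mul]
  ring

/-- commuting nilpotents -/
theorem comm_of_tr {E F : Matrix (Fin 2) (Fin 2) ℂ} (hE : Nil2 E) (hF : Nil2 F)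
    (h : (F * E).trace = 0) : E * F = F * E := by
  have h1 := hE.tr0
  have h2 := hE.det0
  have h3 := hF.tr0
  have h4 := hF.det0
  rw [trace_fin_two] at h1 h3 h
  rw [det_fin_two] at h2 h4
  have h5 : E 1 1 = -E 0 0 := by linear_combination h1
  have h6 : F 1 1 = -F 0 0 := by linear_combination h3
  simp only [mul_apply, Fin.sum_univ_two] at h
  rw [h5] at h2 h
  rw [h6] at h4 h
  have k1 : E 0 1 * F 1 0 = F 0 1 * E 1 0 := by
    have : (E 0 1 * F 1 0 - F 0 1 * E 1 0) ^ 2 = 0 := by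
      linear_combination (E 0 1 * F 1 0 + F 0 1 * E 1 0 - 2 * E 0 0 * F 0 0) * h +
        4 * F 0 1 * F 1 0 * h2 - 4 * E 0 0 ^ 2 * h4
    exact sub_eq_zero.1 (pow_eq_zero_iff (two_ne_zero) |>.1 this)
  have k2 : E 0 0 * F 0 1 = E 0 1 * F 0 0 := by
    have : (E 0 0 * F 0 1 - E 0 1 * F 0 0) ^ 2 = 0 := by
      linear_combination (-E 0 1 * F 0 1) * h - F 0 1 ^ 2 * h2 - E 0 1 ^ 2 * h4
    exact sub_eq_zero.1 (pow_eq_zero_iff (two_ne_zero) |>.1 this)
  have k3 : E 1 0 * F 0 0 = E 0 0 * F 1 0 := by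
    have : (E 1 0 * F 0 0 - E 0 0 * F 1 0) ^ 2 = 0 := by
      linear_combination (-E 1 0 * F 1 0) * h - F 1 0 ^ 2 * h2 - E 1 0 ^ 2 * h4
    exact sub_eq_zero.1 (pow_eq_zero_iff (two_ne_zero) |>.1 this)
  ext i j
  fin_cases i <;> fin_cases j <;> simp [mul_apply, Fin.sum_univ_two, h5, h6]
  · linear_combination k1
  · linear_combination 2 * k2
  · linear_combination 2 * k3
  · linear_combination -k1

end Pool.Agent.DFJ
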