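import Pool.Agent.DFJ.Mat

/-!
# DFJ/MatSys: a parabolic representation gives a solution of the system
-/

set_option autoImplicit false

namespace Pool.Agent.DFJ

open Matrix

/-- the nilpotent part of a parabolic matrix with trace `2κ`, `κ² = 1` -/
def nl (κ : ℂ) (A : SLC) : Matrix (Fin 2) (Fin 2) ℂ := κ • mx A - 1

variable {κ : ℂ} {A B : SLC}

theorem nl_nil (hκ : κ ^ 2 = 1) (h : tr A = 2 * κ) : Nil2 (nl κ A) := by
  have h1 : (mx A 0 0 + mx A 1 1) = 2 * κ := by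
    rw [← trace_fin_two]; exact h
  have h2 : mx A 0 0 * mx A 1 1 - mx A 0 1 * mx A 1 0 = 1 := by
    rw [← det_fin_two]; exact mx_det A
  constructor
  · rw [nl, trace_sub, trace_smul, trace_one]
    simp only [smul_eq_mul, Fintype.card_fin]
    have : (mx A).trace = 2 * κ := h
    rw [this]
    push_cast
    linear_combination 2 * hκ
  · rw [nl, det_fin_two]
    simp
    linear_combination κ ^ 2 * h2 - κ * h1 - hκ

theorem mx_eq_nl (hκ : κ ^ 2 = 1) (A : SLC) : mx A = κ • (1 + nl κ A) := by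
  rw [nl, add_sub_cancel, smul_smul, ← pow_two, hκ, one_smul]

theorem mx_inv_nl (hκ : κ ^ 2 = 1) (h : tr A = 2 * κ) : mx A⁻¹ = κ • (1 - nl κ A) := by
  rw [mx_inv, h]
  conv_lhs => rw [mx_eq_nl hκ A]
  rw [smul_add, smul_sub, two_mul, add_smul]
  abel

theorem nl_sq (hκ : κ ^ 2 = 1) (h : tr A = 2 * κ) : nl κ A * nl κ A = 0 := by
  have h1 := (nl_nil hκ h).sandwich 1
  rw [mul_one, one_mul, (nl_nil hκ h).tr0, zero_smul] at h1
  exact h1

theorem mx_comm1 (hκ : κ ^ 2 = 1) (h : tr A = 2 * κ) (g : SLC) :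
    mx (g * A⁻¹ * g⁻¹ * A) = 1 + nl κ A - mx g * nl κ A * mx g⁻¹ -
      mx g * nl κ A * mx g⁻¹ * nl κ A := by
  have e : mx g * mx g⁻¹ = 1 := by rw [← mx_mul, mul_inv_cancel, mx_one]
  rw [mx_mul, mx_mul, mx_mul, mx_inv_nl hκ h]
  conv_lhs => rw [mx_eq_nl hκ A]
  simp only [mul_smul_comm, smul_mul_assoc, smul_smul, ← pow_two, hκ, one_smul]
  simp only [mul_sub, sub_mul, mul_add, mul_one, one_mul, e]
  abel

theorem mx_comm2 (hκ : κ ^ 2 = 1) (h : tr A = 2 * κ) (g : SLC) :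
    mx (g * A * g⁻¹ * A⁻¹) = 1 - nl κ A + mx g * nl κ A * mx g⁻¹ -
      mx g * nl κ A * mx g⁻¹ * nl κ A := by
  have e : mx g * mx g⁻¹ = 1 := by rw [← mx_mul, mul_inv_cancel, mx_one]
  rw [mx_mul, mx_mul, mx_mul, mx_inv_nl hκ h]
  conv_lhs => rw [mx_eq_nl hκ A]
  simp only [mul_smul_comm, smul_mul_assoc, smul_smul, ← pow_two, hκ, one_smul]
  simp only [mul_sub, add_mul, mul_add, mul_one, one_mul, e]
  abel

theorem tr_conj0 (hκ : κ ^ 2 = 1) (h : tr A = 2 * κ) (g : SLC) :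
    (mx g * nl κ A * mx g⁻¹).trace = 0 := by
  have e : mx g⁻¹ * mx g = 1 := by rw [← mx_mul, inv_mul_cancel, mx_one]
  rw [trace_mul_comm, ← mul_assoc, e, one_mul, (nl_nil hκ h).tr0]

theorem tr_comm1 (hκ : κ ^ 2 = 1) (h : tr A = 2 * κ) (g : SLC) :
    tr (g * A⁻¹ * g⁻¹ * A) = (mx g * nl κ A).trace ^ 2 + 2 := by
  unfold tr
  rw [mx_comm1 hκ h, trace_sub, trace_sub, trace_add, tr_conj0 hκ h, tr_gEgE (nl_nil hκ h),
    (nl_nil hκ h).tr0, trace_one]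
  simp
  ring

theorem tr_comm2 (hκ : κ ^ 2 = 1) (h : tr A = 2 * κ) (g : SLC) :
    tr (g * A * g⁻¹ * A⁻¹) = (mx g * nl κ A).trace ^ 2 + 2 := by
  unfold tr
  rw [mx_comm2 hκ h, trace_sub, trace_add, trace_sub, tr_conj0 hκ h, tr_gEgE (nl_nil hκ h),
    (nl_nil hκ h).tr0, trace_one]
  simp
  ring

theorem c_comm1 (hκ : κ ^ 2 = 1) (h : tr A = 2 * κ) (g : SLC) :
    (mx (g * A⁻¹ * g⁻¹ * A) * nl κ A).trace = (mx g * nl κ A).trace ^ 2 := by
  rw [mx_comm1 hκ h, sub_mul, sub_mul, add_mul, one_mul, nl_sq hκ h, mul_assoc _ (nl κ A) (nl κ A),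
    nl_sq hκ h, mul_zero, add_zero, sub_zero, trace_sub, (nl_nil hκ h).tr0,
    tr_gEgE (nl_nil hκ h)]
  ring

theorem tr_X (hκ : κ ^ 2 = 1) (hA : tr A = 2 * κ) (hB : tr B = 2 * κ) :
    tr (B * A⁻¹) = 2 - (nl κ B * nl κ A).trace := by
  unfold tr
  rw [mx_mul, mx_inv_nl hκ hA, mx_eq_nl hκ B]
  simp only [mul_smul_comm, smul_mul_assoc, smul_smul, ← pow_two, hκ, one_smul]
  rw [mul_sub, mul_one, add_mul, one_mul, trace_sub, trace_add, trace_add, trace_one,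
    (nl_nil hκ hA).tr0, (nl_nil hκ hB).tr0]
  simp

theorem c_X (hκ : κ ^ 2 = 1) (hA : tr A = 2 * κ) (B : SLC) :
    (mx (B * A⁻¹) * nl κ A).trace = (nl κ B * nl κ A).trace := by
  rw [mx_mul, mx_inv_nl hκ hA]
  conv_lhs => rw [mx_eq_nl hκ B]
  simp only [mul_smul_comm, smul_mul_assoc, smul_smul, ← pow_two, hκ, one_smul]
  rw [mul_assoc, sub_mul, one_mul, nl_sq hκ hA, sub_zero, add_mul, one_mul, trace_add,
    (nl_nil hκ hA).tr0, zero_add]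

theorem wd_eq {G : Type*} [Group G] (a b : G) (m : ℤ) :
    wd a b m = (b * a⁻¹) ^ m * a⁻¹ * ((b * a⁻¹) ^ m)⁻¹ * a := by
  unfold wd
  have e1 : b⁻¹ * a = a⁻¹ * (b * a⁻¹)⁻¹ * (a⁻¹)⁻¹ := by group
  rw [e1, conj_zpow, _root_.inv_zpow]
  group

theorem comm_of_nl (hκ : κ ^ 2 = 1) (hA : tr A = 2 * κ) (hB : tr B = 2 * κ)
    (h : (nl κ B * nl κ A).trace = 0) : A * B = B * A := by
  have h1 := comm_of_tr (nl_nil hκ hA) (nl_nil hκ hB) h
  apply Subtype.ext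
  change mx (A * B) = mx (B * A)
  rw [mx_mul, mx_mul, mx_eq_nl hκ A, mx_eq_nl hκ B]
  simp only [mul_smul_comm, smul_mul_assoc, mul_add, add_mul, mul_one, one_mul, h1]
  simp only [smul_add]
  abel

/-- A nonabelian parabolic representation gives a solution of the system. -/
theorem mat_sys (hκ : κ ^ 2 = 1) (hA : tr A = 2 * κ) (hB : tr B = 2 * κ) (hne : A * B ≠ B * A)
    {m n : ℤ} (hm : m ≠ 0) (hn : n ≠ 0) (hr : A * wd A B m ^ n = wd A B m ^ n * B) :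
    ∃ w : ℂ, Sys m.natAbs n.natAbs 1 w ∧ tr (B * A⁻¹) = w ^ 2 + 2 ∧
      tr (wd A B m) = FF m.natAbs w ^ 2 + 2 := by
  set c := (nl κ B * nl κ A).trace with hc
  have hX := tr_X hκ hA hB
  have hcX := c_X hκ hA B
  have hc0 : c ≠ 0 := fun h0 => hne (comm_of_nl hκ hA hB h0)
  have hW : tr (wd A B m) = (al m.natAbs (tr (B * A⁻¹)) * c) ^ 2 + 2 := by
    rw [wd_eq, tr_comm1 hκ hA, c_zpow_sq (nl_nil hκ hA), hcX]
  have hcW : (mx (wd A B m) * nl κ A).trace = (al m.natAbs (tr (B * A⁻¹)) * c) ^ 2 := by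
    rw [wd_eq, c_comm1 hκ hA, c_zpow_sq (nl_nil hκ hA), hcX]
  have hX2 : B * A⁻¹ = (wd A B m ^ (-n)) * A * (wd A B m ^ (-n))⁻¹ * A⁻¹ := by
    rw [← _root_.zpow_neg, neg_neg, mul_assoc _ A, hr, _root_.zpow_neg]
    group
  have hX3 : tr (B * A⁻¹) = (al n.natAbs (tr (wd A B m)) *
      (al m.natAbs (tr (B * A⁻¹)) * c) ^ 2) ^ 2 + 2 := by
    conv_lhs => rw [hX2]
    rw [tr_comm2 hκ hA, c_zpow_sq (nl_nil hκ hA), hcW, Int.natAbs_neg]
  set v := (al m.natAbs (tr (B * A⁻¹)) * c) ^ 2 with hv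
  have hw2 : (v * al n.natAbs (v + 2)) ^ 2 = -c := by
    rw [← hW]
    linear_combination -hX3 + hX
  have hX4 : tr (B * A⁻¹) = (v * al n.natAbs (v + 2)) ^ 2 + 2 := by
    rw [hw2, hX]; ring
  have hz2 : FF m.natAbs (v * al n.natAbs (v + 2)) ^ 2 = v := by
    unfold FF
    rw [← hX4, hw2, hv]
    ring
  refine ⟨v * al n.natAbs (v + 2), ⟨?_, ?_, Or.inl rfl, ?_, ?_⟩, hX4, ?_⟩
  · exact Int.natAbs_pos.2 hm
  · exact Int.natAbs_pos.2 hn
  · intro h0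
    rw [h0] at hw2
    apply hc0
    have h1 : (0 : ℂ) ^ 2 = 0 := by norm_num
    rw [h1] at hw2
    exact neg_eq_zero.1 hw2.symm
  · rw [FF, hz2]
    simp
  · rw [hz2, hW]

end Pool.Agent.DFJ
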