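import Pool.Agent.DFJ.Phi

/-!
# DFJ/OO: both indices odd

`Q = R/2`; an element `x` of `Q` with `x ^ 2 = 0` is `0`.
-/

set_option autoImplicit false

namespace Pool.Agent.DFJ

/-- The quotient `R/2`. -/
abbrev Qt (R : Type*) [CommRing R] : Type _ := R ⧸ Ideal.span {(2 : R)}

/-- The quotient map. -/
abbrev qm (R : Type*) [CommRing R] : R →+* Qt R := Ideal.Quotient.mk (Ideal.span {(2 : R)})

variable {R : Type*} [CommRing R]

theorem qm_eq_zero (x : R) : qm R x = 0 ↔ (2 : R) ∣ x := by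
  rw [Ideal.Quotient.eq_zero_iff_mem, Ideal.mem_span_singleton]

theorem Qt_two : (2 : Qt R) = 0 := by
  have h := (qm_eq_zero (2 : R)).2 (dvd_refl 2)
  rwa [map_ofNat] at h

/-- a commutative ring of characteristic two without nilpotent elements -/
structure Red (Q : Type*) [CommRing Q] : Prop where
  two : (2 : Q) = 0
  red : ∀ x : Q, x ^ 2 = 0 → x = 0

theorem Ok.toRed (ok : Ok R) : Red (Qt R) := by
  refine ⟨Qt_two, fun x hx => ?_⟩
  obtain ⟨x, rfl⟩ := Ideal.Quotient.mk_surjective x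
  rw [← map_pow] at hx
  exact (qm_eq_zero x).2 (ok.red x ((qm_eq_zero _).1 hx))

theorem Ok.Qt_ne (ok : Ok R) : (1 : Qt R) ≠ 0 := by
  intro h
  rw [← map_one (qm R)] at h
  exact ok.nun ((qm_eq_zero _).1 h)

variable {Q : Type*} [CommRing Q]

theorem Red.sq (hQ : Red Q) {x y : Q} (h : x ^ 2 = y ^ 2) : x = y := by
  have h1 : (x - y) ^ 2 = 0 := by
    linear_combination h + (y ^ 2 - x * y) * hQ.two
  exact sub_eq_zero.1 (hQ.red _ h1)

theorem Red.neg (hQ : Red Q) (x : Q) : -x = x := by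
  linear_combination (-x) * hQ.two

/-- The computation in `R/2`. -/
theorem oo_two (hQ : Red Q) {w z A B C D w' : Q} (hw : w * w' = 1)
    (h1 : z = w ^ 2 * (A * C)) (h2 : w = z ^ 2 * (B * D)) (h3 : C ^ 2 * w ^ 2 = A ^ 2 * w ^ 2)
    (h4 : D ^ 2 * z ^ 2 = B ^ 2 * z ^ 2) (h5 : A * B = 1)
    (h6 : A ^ 2 * w ^ 2 * (1 - D ^ 2) + B ^ 2 * z ^ 2 * (1 - C ^ 2) = 0) :
    w ^ 3 + 1 = 0 ∧ z * w = 1 := by
  have h0 := hQ.two
  have hC : C = A := by
    apply hQ.sq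
    linear_combination w' ^ 2 * h3 - (C ^ 2 - A ^ 2) * (w * w' + 1) * hw
  have hz : z * (z * (B * D) * w') = 1 := by
    linear_combination hw - w' * h2
  have hD : D = B := by
    apply hQ.sq
    linear_combination (z * (B * D) * w') ^ 2 * h4 -
      (D ^ 2 - B ^ 2) * (z * (z * (B * D) * w') + 1) * hz
  subst hC hD
  have hzw : z * w = 1 := by
    have h7 : z * w = (z * w) ^ 2 := by
      linear_combination w * h1 + w ^ 2 * (C * C) * h2 + z ^ 2 * w ^ 2 * (C * D + 1) * h5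
    have h8 : (z * w) * ((z * (D * D) * w') * w') = 1 := by
      linear_combination (z * (z * (D * D) * w')) * hw + hz
    linear_combination ((z * (D * D) * w') * w') * h7 * (-1) + (1 - z * w) * h8
  refine ⟨?_, hzw⟩
  have h9 : z + w ^ 2 + w + z ^ 2 = 0 := by
    linear_combination h1 + h2 + (w ^ 2 * (C * D + 1) + z ^ 2 * (C * D + 1)) * h5 + h6 +
      (z ^ 2 + w ^ 2) * h0
  have h10 : (w ^ 3 + 1) ^ 2 = 0 := by
    have h11 : (w + 1) * (w ^ 3 + 1) = 0 := by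
      linear_combination w ^ 2 * h9 - (w + z * w + 1) * hzw
    linear_combination (w ^ 2 + w + 1) * h11 + (w ^ 3 + 1) * (-w ^ 2 - w) * h0
  exact hQ.red _ h10

theorem Red.sign (hQ : Red Q) {ε : Q} (h : ε = 1 ∨ ε = -1) : ε = 1 := by
  rcases h with h | h
  · exact h
  · rw [h, hQ.neg]

theorem sign_map {S : Type*} [CommRing S] (f : R →+* S) {ε : R} (h : ε = 1 ∨ ε = -1) :
    f ε = 1 ∨ f ε = -1 := by
  rcases h with h | h
  · left; rw [h, map_one]
  · right; rw [h, map_neg, map_one]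

theorem Phi.sign {κ : R} (h : κ = 1 ∨ κ = -1) : Phi κ κ := by
  rcases h with h | h
  · rw [h]; exact Phi.one
  · rw [h]; exact Phi.neg_one

theorem sign_sq {κ : R} (h : κ = 1 ∨ κ = -1) : κ ^ 2 = 1 := by
  rcases h with h | h <;> rw [h] <;> ring

/-- Both indices odd. -/
theorem oo (ok : Ok R) {w z A B C D w' ε κ : R} (hε : ε = 1 ∨ ε = -1) (hκ : κ = 1 ∨ κ = -1)
    (hw : w * w' = 1) (h1 : z = w ^ 2 * (A * C)) (h2 : w = ε * (z ^ 2 * (B * D)))
    (h3 : C ^ 2 * (w ^ 2 + 4) - A ^ 2 * w ^ 2 = 4) (h4 : D ^ 2 * (z ^ 2 + 4) - B ^ 2 * z ^ 2 = 4)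
    (h5 : A * B = κ) (hA : Phi A (A * C)) (hB : Phi B (B * D)) :
    (2 : R) ∣ w ^ 3 + 1 ∧ (2 : R) ∣ z * w - 1 := by
  have hκ2 := sign_sq hκ
  have hP := hA.mul hB
  rw [h5] at hP
  obtain ⟨e0, he0⟩ := hP.unique ok (Phi.sign hκ)
  have hCD : C * D = 1 + 4 * (κ * e0) := by
    linear_combination κ * he0 + (-(κ * (C * D))) * h5 + (1 - C * D) * hκ2
  set e := κ * e0 with he
  have hX : A ^ 2 * w ^ 2 * (1 - D ^ 2) + B ^ 2 * z ^ 2 * (1 - C ^ 2) =
      2 * ((e + 2 * e ^ 2) * w ^ 2 * z ^ 2 - 2 * (1 - C ^ 2) * (1 - D ^ 2)) := by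
    apply ok.cancel
    apply ok.cancel
    have hAB : A ^ 2 * B ^ 2 = 1 := by
      linear_combination (A * B + κ) * h5 + hκ2
    linear_combination (-(D ^ 2 * z ^ 2)) * h3 - (A ^ 2 * w ^ 2 + 4 * (1 - C ^ 2)) * h4 +
      w ^ 2 * z ^ 2 * (C * D + 1 + 4 * e) * hCD - w ^ 2 * z ^ 2 * hAB
  have hQ := ok.toRed
  have hε' := hQ.sign (sign_map (qm R) hε)
  have hκ' := hQ.sign (sign_map (qm R) hκ)
  have f1 := congrArg (qm R) h1
  have f2 := congrArg (qm R) h2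
  have f3 := congrArg (qm R) h3
  have f4 := congrArg (qm R) h4
  have f5 := congrArg (qm R) h5
  have f6 := congrArg (qm R) hX
  have f7 := congrArg (qm R) hw
  simp only [map_mul, map_add, map_sub, map_pow, map_one, map_ofNat, hε', hκ', one_mul] at f1 f2 f3 f4 f5 f6 f7
  have h0 := hQ.two
  obtain ⟨r1, r2⟩ := oo_two hQ f7 f1 f2
    (by linear_combination f3 + (2 - 2 * qm R C ^ 2) * h0)
    (by linear_combination f4 + (2 - 2 * qm R D ^ 2) * h0) f5
    (by linear_combination f6 + ((qm R e + 2 * qm R e ^ 2) * qm R w ^ 2 * qm R z ^ 2 -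
      2 * (1 - qm R C ^ 2) * (1 - qm R D ^ 2)) * h0)
  constructor
  · rw [← qm_eq_zero, map_add, map_pow, map_one]
    exact r1
  · rw [← qm_eq_zero, map_sub, map_mul, map_one, r2, sub_self]

end Pool.Agent.DFJ
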