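import Pool.Agent.DFJ.Cheb

/-!
# DFJ/Phi: the Frobenius lift modulo 4

`R` is a commutative ring such that `2` is a non-zero-divisor and `R/2` is reduced (`Ok`).
`Phi x y` means `x = E² + 2F`, `y = E⁴ + 2F²` modulo `4`: `y` is the image of `x` under the
Frobenius lift of `R/4`. It is compatible with sums and products, and `y` is unique modulo `4`.
-/

set_option autoImplicit false

namespace Pool.Agent.DFJ

/-- `2` is a non-zero-divisor, not a unit, and `R/2` is reduced. -/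
structure Ok (R : Type*) [CommRing R] : Prop where
  inj : ∀ x : R, 2 * x = 0 → x = 0
  nun : ¬ (2 : R) ∣ 1
  red : ∀ x : R, (2 : R) ∣ x ^ 2 → (2 : R) ∣ x

variable {R : Type*} [CommRing R]

theorem Ok.cancel (ok : Ok R) {x y : R} (h : 2 * x = 2 * y) : x = y := by
  have h1 : 2 * (x - y) = 0 := by linear_combination h
  exact sub_eq_zero.1 (ok.inj _ h1)

theorem Ok.dvd_of_four (ok : Ok R) {x : R} (h : (4 : R) ∣ 2 * x) : (2 : R) ∣ x := by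
  obtain ⟨c, hc⟩ := h
  exact ⟨c, ok.cancel (by linear_combination hc)⟩

/-- congruent squares -/
theorem Ok.sq_congr (ok : Ok R) {x y : R} (h : (2 : R) ∣ x ^ 2 - y ^ 2) : (2 : R) ∣ x - y := by
  apply ok.red
  obtain ⟨c, hc⟩ := h
  exact ⟨c + y ^ 2 - x * y, by linear_combination hc⟩

/-- The graph of the Frobenius lift of `R/4`. -/
def Phi (x y : R) : Prop :=
  ∃ E F : R, (4 : R) ∣ x - (E ^ 2 + 2 * F) ∧ (4 : R) ∣ y - (E ^ 4 + 2 * F ^ 2)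

theorem Phi.add {x y x' y' : R} (h : Phi x y) (h' : Phi x' y') : Phi (x + x') (y + y') := by
  obtain ⟨E, F, ⟨a, ha⟩, ⟨b, hb⟩⟩ := h
  obtain ⟨E', F', ⟨a', ha'⟩, ⟨b', hb'⟩⟩ := h'
  refine ⟨E + E', F + F' - E * E', ⟨a + a', ?_⟩, ?_⟩
  · linear_combination ha + ha'
  · refine ⟨b + b' - (E ^ 3 * E' + 2 * E ^ 2 * E' ^ 2 + E * E' ^ 3 + F * F' -
      E * E' * (F + F')), ?_⟩
    linear_combination hb + hb'

theorem Phi.mul {x y x' y' : R} (h : Phi x y) (h' : Phi x' y') : Phi (x * x') (y * y') := by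
  obtain ⟨E, F, ⟨a, ha⟩, ⟨b, hb⟩⟩ := h
  obtain ⟨E', F', ⟨a', ha'⟩, ⟨b', hb'⟩⟩ := h'
  refine ⟨E * E', E ^ 2 * F' + E' ^ 2 * F, ⟨a * x' + a' * (E ^ 2 + 2 * F) + F * F', ?_⟩, ?_⟩
  · linear_combination x' * ha + (E ^ 2 + 2 * F) * ha'
  · refine ⟨b * y' + b' * (E ^ 4 + 2 * F ^ 2) + F ^ 2 * F' ^ 2 -
      E ^ 2 * F' * E' ^ 2 * F, ?_⟩
    linear_combination y' * hb + (E ^ 4 + 2 * F ^ 2) * hb'

theorem Phi.sq (x : R) : Phi (x ^ 2) (x ^ 4) := ⟨x, 0, ⟨0, by ring⟩, ⟨0, by ring⟩⟩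

theorem Phi.one : Phi (1 : R) 1 := ⟨1, 0, ⟨0, by ring⟩, ⟨0, by ring⟩⟩

theorem Phi.neg_one : Phi (-1 : R) (-1) := ⟨1, -1, ⟨0, by ring⟩, ⟨-1, by ring⟩⟩

theorem Phi.two : Phi (2 : R) 2 := ⟨0, 1, ⟨0, by ring⟩, ⟨0, by ring⟩⟩

theorem Phi.zero : Phi (0 : R) 0 := ⟨0, 0, ⟨0, by ring⟩, ⟨0, by ring⟩⟩

theorem Phi.one_add_two (y : R) : Phi (1 + 2 * y) (1 + 2 * y ^ 2) :=
  ⟨1, y, ⟨0, by ring⟩, ⟨0, by ring⟩⟩

theorem Phi.sub {x y x' y' : R} (h : Phi x y) (h' : Phi x' y') : Phi (x - x') (y - y') := by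
  have h1 := h.add (Phi.neg_one.mul h')
  have e1 : x + -1 * x' = x - x' := by ring
  have e2 : y + -1 * y' = y - y' := by ring
  rwa [e1, e2] at h1

theorem Phi.congr {x y y' : R} (h : Phi x y) (h' : (4 : R) ∣ y - y') : Phi x y' := by
  obtain ⟨E, F, h1, ⟨b, hb⟩⟩ := h
  obtain ⟨c, hc⟩ := h'
  exact ⟨E, F, h1, ⟨b - c, by linear_combination hb - hc⟩⟩

/-- uniqueness -/
theorem Phi.unique (ok : Ok R) {x y y' : R} (h : Phi x y) (h' : Phi x y') :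
    (4 : R) ∣ y - y' := by
  obtain ⟨E, F, ⟨a, ha⟩, ⟨b, hb⟩⟩ := h
  obtain ⟨E', F', ⟨a', ha'⟩, ⟨b', hb'⟩⟩ := h'
  have h1 : (2 : R) ∣ E - E' := by
    apply ok.sq_congr
    exact ⟨F' - F + 2 * (a' - a), by linear_combination ha' - ha⟩
  obtain ⟨G, hG⟩ := h1
  have hE : E = E' + 2 * G := by linear_combination hG
  have h2 : (2 : R) ∣ F - F' := by
    apply ok.dvd_of_four
    refine ⟨a' - a - E' * G - G ^ 2, ?_⟩
    rw [hE] at ha
    linear_combination ha' - ha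
  obtain ⟨H, hH⟩ := h2
  have hF : F = F' + 2 * H := by linear_combination hH
  refine ⟨b - b' + (2 * E' ^ 3 * G + 6 * E' ^ 2 * G ^ 2 + 8 * E' * G ^ 3 + 4 * G ^ 4) +
    (2 * F' * H + 2 * H ^ 2), ?_⟩
  rw [hE, hF] at hb
  linear_combination hb - hb'

theorem Phi.al {s t : R} (h : Phi s t) (n : ℕ) : Phi (al n s) (al n t) := by
  induction n using Nat.strong_induction_on with
  | _ n ih =>
    match n with
    | 0 => exact Phi.zero
    | 1 => exact Phi.one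
    | (n + 2) =>
      rw [al_step, al_step]
      exact (h.mul (ih (n + 1) (by omega))).sub (ih n (by omega))

/-- the Frobenius lift at `s = w² + 2` -/
theorem Phi.s (w : R) : Phi (w ^ 2 + 2) ((w ^ 2 + 2) ^ 2 - 2) := by
  refine ((Phi.sq w).add Phi.two).congr ⟨-w ^ 2, ?_⟩
  ring

end Pool.Agent.DFJ
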