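import Pool.Agent.DFJ.FinOO

/-!
# DFJ/Phi9: the polynomial `X⁶ + X³ + 1` over `𝔽₂`
-/

set_option autoImplicit false

namespace Pool.Agent.DFJ

open Polynomial

/-- `X⁶ + X³ + 1` -/
noncomputable def Ph : (ZMod 2)[X] := X ^ 6 + X ^ 3 + 1

theorem Ph_cyc : cyclotomic 9 (ZMod 2) = Ph := by
  have h := cyclotomic_prime_pow_eq_geom_sum (R := ZMod 2) (p := 3) (n := 1) (by norm_num)
  have e : 3 ^ (1 + 1) = 9 := by norm_num
  rw [e] at h
  rw [h, Ph, Finset.sum_range_succ, Finset.sum_range_succ, Finset.sum_range_one]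
  ring

theorem Ph_natDegree : Ph.natDegree = 6 := by
  unfold Ph
  compute_degree!

theorem Ph_monic : Ph.Monic := by
  unfold Ph
  monicity!

theorem Ph_irr : Irreducible Ph := by
  have : Fact (Nat.Prime 2) := ⟨Nat.prime_two⟩
  have h2 : ¬ 2 ∣ 9 := by norm_num
  apply ZMod.irreducible_of_dvd_cyclotomic_of_natDegree h2
  · rw [Ph_cyc]
  · rw [Ph_natDegree]
    symm
    rw [orderOf_eq_iff (by norm_num)]
    constructor
    · apply Units.ext
      rw [Units.val_pow_eq_pow_val, ZMod.coe_unitOfCoprime, Units.val_one]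
      decide
    · intro m hm hm0 h
      have h1 := congrArg Units.val h
      rw [Units.val_pow_eq_pow_val, ZMod.coe_unitOfCoprime, Units.val_one] at h1
      revert h1
      interval_cases m <;> decide

theorem rd_eq_Ph {f : (ZMod 2)[X]} (hf : f.Monic) (he : Even f.natDegree) (hp : 0 < f.natDegree)
    (h : f ∣ (X + 1) * Ph) : f = Ph := by
  have h1 : (X + 1 : (ZMod 2)[X]).natDegree = 1 := by compute_degree!
  have h2 : (X + 1 : (ZMod 2)[X]).Monic := by monicity!
  have h3 : ((X + 1 : (ZMod 2)[X]) * Ph).natDegree = 7 := by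
    rw [h2.natDegree_mul Ph_monic, h1, Ph_natDegree]
  have h4 : ((X + 1 : (ZMod 2)[X]) * Ph) ≠ 0 := (h2.mul Ph_monic).ne_zero
  have h5 := natDegree_le_of_dvd h h4
  rw [h3] at h5
  have hdvd : Ph ∣ f := by
    by_contra hnd
    have hc : IsCoprime f Ph := ((Ph_irr.coprime_iff_not_dvd).2 hnd).symm
    have h6 : f ∣ X + 1 := hc.dvd_of_dvd_mul_right h
    have h7 := natDegree_le_of_dvd h6 h2.ne_zero
    rw [h1] at h7
    obtain ⟨j, hj⟩ := he
    omega
  have h8 := natDegree_le_of_dvd hdvd hf.ne_zero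
  rw [Ph_natDegree] at h8
  have h9 : f.natDegree = 6 := by
    obtain ⟨j, hj⟩ := he
    omega
  exact (eq_of_monic_of_dvd_of_natDegree_le Ph_monic hf hdvd (by rw [h9, Ph_natDegree]))

end Pool.Agent.DFJ
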