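import Pool.Agent.DFJ.Adj

/-!
# DFJ/Real: real roots
-/

set_option autoImplicit false

namespace Pool.Agent.DFJ

open Polynomial Filter

theorem al_growth {x : ℝ} (hx : 2 ≤ x) (n : ℕ) : 0 ≤ al n x ∧ al n x + 1 ≤ al (n + 1) x := by
  induction n with
  | zero => simp
  | succ n ih =>
    obtain ⟨h1, h2⟩ := ih
    refine ⟨by linarith, ?_⟩
    rw [al_step n x]
    nlinarith

theorem al_ge_one {x : ℝ} (hx : 2 ≤ x) {n : ℕ} (hn : 1 ≤ n) : 1 ≤ al n x := by
  obtain ⟨n, rfl⟩ : ∃ m, n = m + 1 := ⟨n - 1, by omega⟩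
  have h := al_growth hx n
  linarith [h.1, h.2]

theorem PP_gt {x : ℝ} (hx : 2 ≤ x) {n : ℕ} (hn : 2 ≤ n) : 1 < PP n x := by
  rcases Nat.even_or_odd' n with ⟨k, rfl | rfl⟩
  · rw [PP_even]
    have h := al_ge_one hx (n := k) (by omega)
    nlinarith
  · rw [PP_odd]
    have h1 := al_ge_one hx (n := k) (by omega)
    have h2 := (al_growth hx k).2
    nlinarith

theorem PP_ge {x : ℝ} (hx : 2 ≤ x) {n : ℕ} (hn : 1 ≤ n) : 1 ≤ PP n x := by
  rcases Nat.lt_or_ge n 2 with h | h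
  · have : n = 1 := by omega
    rw [this, PP_one]
  · exact (PP_gt hx h).le

theorem no_real {a b : ℕ} (ha : 1 ≤ a) (hb : 1 ≤ b) (hab : 2 ≤ a ∨ 2 ≤ b) (r : ℝ) :
    PP a (r ^ 2 + 2) * PP b (FF a r ^ 2 + 2) ≠ 1 := by
  have h1 : 2 ≤ r ^ 2 + 2 := by nlinarith [sq_nonneg r]
  have h2 : 2 ≤ FF a r ^ 2 + 2 := by nlinarith [sq_nonneg (FF a r)]
  have h3 := PP_ge h1 ha
  have h4 := PP_ge h2 hb
  intro h
  rcases hab with h5 | h5
  · have h6 := PP_gt h1 h5
    nlinarith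
  · have h6 := PP_gt h2 h5
    nlinarith

/-- A monic real polynomial of odd degree has a root. -/
theorem odd_root {p : ℝ[X]} (hp : p.Monic) (ho : Odd p.natDegree) : ∃ r, p.eval r = 0 := by
  have hpos : 0 < p.natDegree := ho.pos
  have h1 : Tendsto (fun x => p.eval x) atTop atTop := by
    apply p.tendsto_atTop_of_leadingCoeff_nonneg
    · exact natDegree_pos_iff_degree_pos.1 hpos
    · rw [hp.leadingCoeff]; norm_num
  have h2 : Tendsto (fun x => (-(p.comp (-X))).eval x) atTop atTop := by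
    apply (-(p.comp (-X))).tendsto_atTop_of_leadingCoeff_nonneg
    · rw [degree_neg]
      apply natDegree_pos_iff_degree_pos.1
      rw [natDegree_comp, natDegree_neg, natDegree_X, mul_one]
      exact hpos
    · rw [leadingCoeff_neg, leadingCoeff_comp (by rw [natDegree_neg, natDegree_X]; norm_num),
        hp.leadingCoeff, leadingCoeff_neg, leadingCoeff_X, one_mul, ho.neg_one_pow]
      norm_num
  obtain ⟨x, hx⟩ := (h1.eventually_ge_atTop 0).exists
  obtain ⟨y, hy⟩ := (h2.eventually_ge_atTop 0).exists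
  have hy2 : p.eval (-y) ≤ 0 := by
    rw [eval_neg, eval_comp, eval_neg, eval_X] at hy
    linarith
  have hc : Continuous fun x => p.eval x := p.continuous
  have h3 : (0 : ℝ) ∈ Set.range fun x => p.eval x :=
    mem_range_of_exists_le_of_exists_ge hc ⟨-y, hy2⟩ ⟨x, hx⟩
  obtain ⟨r, hr⟩ := h3
  exact ⟨r, hr⟩

theorem even_deg {f : ℤ[X]} (hf : f.Monic) (h : ∀ r : ℝ, aeval r f ≠ 0) : Even f.natDegree := by
  by_contra ho
  rw [Nat.not_even_iff_odd] at ho
  have h1 : (f.map (algebraMap ℤ ℝ)).Monic := hf.map _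
  have h2 : (f.map (algebraMap ℤ ℝ)).natDegree = f.natDegree := hf.natDegree_map _
  obtain ⟨r, hr⟩ := odd_root h1 (by rw [h2]; exact ho)
  apply h r
  rwa [eval_map_algebraMap] at hr

/-- The polynomial of the top coefficient. -/
noncomputable def LL (a b : ℕ) : ℤ[X] := PP a (X ^ 2 + 2) * PP b (FF a X ^ 2 + 2)

theorem aeval_LL {A : Type*} [CommRing A] [Algebra ℤ A] (a b : ℕ) (x : A) :
    aeval x (LL a b) = PP a (x ^ 2 + 2) * PP b (FF a x ^ 2 + 2) := by
  unfold LL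
  have h1 : ∀ g : ℤ[X], aeval x g = (aeval x : ℤ[X] →ₐ[ℤ] A).toRingHom g := fun _ => rfl
  have h2 : (aeval x : ℤ[X] →ₐ[ℤ] A).toRingHom X = x := aeval_X x
  rw [h1, map_mul, map_PP, map_PP, map_add, map_add, map_pow, map_pow, map_FF, h2, map_ofNat]

/-- If the top coefficient is one then the minimal polynomial has no real root. -/
theorem no_real_root {w : ℂ} (hw : IsIntegral ℤ w) {a b : ℕ} (ha : 1 ≤ a) (hb : 1 ≤ b)
    (hab : 2 ≤ a ∨ 2 ≤ b) (hL : PP a (w ^ 2 + 2) * PP b (FF a w ^ 2 + 2) = 1) (r : ℝ) :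
    aeval r (minpoly ℤ w) ≠ 0 := by
  intro hr
  have h1 : aeval w (LL a b - 1) = 0 := by
    rw [map_sub, aeval_LL, hL, map_one, sub_self]
  obtain ⟨k, hk⟩ := minpoly.isIntegrallyClosed_dvd hw h1
  have h2 : aeval r (LL a b - 1) = 0 := by
    rw [hk, map_mul, hr, zero_mul]
  rw [map_sub, aeval_LL, map_one, sub_eq_zero] at h2
  exact no_real ha hb hab r h2

end Pool.Agent.DFJ
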