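import Pool.Agent.DFJ.Stall

/-!
# DFJ/StallB: the commutator subgroup is finitely generated when both parameters are `± 1`
-/

set_option autoImplicit false

namespace Pool.Agent.DFJ

open scoped commutatorElement

section grp

variable {G : Type*} [Group G] {a b : G} {m n : ℤ}

theorem eq_one' (hr : a * wd a b m ^ n = wd a b m ^ n * b) :
    ((a * (b * a⁻¹) * a⁻¹) ^ m * ((b * a⁻¹)⁻¹) ^ m) ^ n =
      ((b * a⁻¹) ^ m * ((a⁻¹ * b)⁻¹) ^ m) ^ n * (b * a⁻¹) := by
  have h1 : wd a b m = (b * a⁻¹) ^ m * ((a⁻¹ * b)⁻¹) ^ m := by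
    unfold wd
    congr 2
    group
  have h0 : wd a b m ^ n * (b * a⁻¹) = a * wd a b m ^ n * a⁻¹ := by
    rw [← mul_assoc, ← hr]
  rw [← h1, h0, ← conj_zpow, h1]
  congr 1
  have h2 : a * ((b * a⁻¹) ^ m * ((a⁻¹ * b)⁻¹) ^ m) * a⁻¹ =
      (a * (b * a⁻¹) ^ m * a⁻¹) * (a * ((a⁻¹ * b)⁻¹) ^ m * a⁻¹) := by group
  rw [h2, ← conj_zpow, ← conj_zpow]
  congr 2
  group

theorem eq_two' (hr : a * wd a b m ^ n = wd a b m ^ n * b) :
    ((b * a⁻¹) ^ m * ((a⁻¹ * b)⁻¹) ^ m) ^ n =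
      ((a⁻¹ * b) ^ m * ((a⁻¹ * (a⁻¹ * b) * a)⁻¹) ^ m) ^ n * (a⁻¹ * b) := by
  have h1 : wd a b m = (b * a⁻¹) ^ m * ((a⁻¹ * b)⁻¹) ^ m := by
    unfold wd
    congr 2
    group
  have h2 : (a⁻¹ * b) ^ m * ((a⁻¹ * (a⁻¹ * b) * a)⁻¹) ^ m = a⁻¹ * wd a b m * (a⁻¹)⁻¹ := by
    rw [h1]
    have h3 : a⁻¹ * ((b * a⁻¹) ^ m * ((a⁻¹ * b)⁻¹) ^ m) * (a⁻¹)⁻¹ =
      (a⁻¹ * (b * a⁻¹) ^ m * (a⁻¹)⁻¹) * (a⁻¹ * ((a⁻¹ * b)⁻¹) ^ m * (a⁻¹)⁻¹) := by group
    rw [h3, ← conj_zpow, ← conj_zpow]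
    congr 2
    · group
    · simp [mul_assoc]
  rw [h2, conj_zpow, ← h1]
  have h4 : a⁻¹ * wd a b m ^ n * (a⁻¹)⁻¹ * (a⁻¹ * b) = a⁻¹ * (wd a b m ^ n * b) := by
    rw [inv_inv]; group
  rw [h4, ← hr, inv_mul_cancel_left]

theorem mem_of_zpow {H : Subgroup G} {g : G} {k : ℤ} (hk : k.natAbs = 1) (h : g ^ k ∈ H) :
    g ∈ H := by
  rcases Int.natAbs_eq_iff.1 hk with rfl | rfl
  · simpa using h
  · simpa using h

theorem comm_eq (hgen : Subgroup.closure {a, b} = ⊤) (hr : a * wd a b m ^ n = wd a b m ^ n * b)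
    (hm : m.natAbs = 1) (hn : n.natAbs = 1) :
    commutator G = Subgroup.closure {b * a⁻¹, a⁻¹ * b} := by
  set H := Subgroup.closure {b * a⁻¹, a⁻¹ * b} with hH
  have hp : b * a⁻¹ ∈ H := Subgroup.subset_closure (by simp)
  have hq : a⁻¹ * b ∈ H := Subgroup.subset_closure (by simp)
  have hx : a * (b * a⁻¹) * a⁻¹ ∈ H := by
    have h1 : ((a * (b * a⁻¹) * a⁻¹) ^ m * ((b * a⁻¹)⁻¹) ^ m) ^ n ∈ H := by
      rw [eq_one' hr]
      exact mul_mem (zpow_mem (mul_mem (zpow_mem hp _) (zpow_mem (inv_mem hq) _)) _) hp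
    have h2 := mem_of_zpow hn h1
    have h3 := (H.mul_mem_cancel_right (zpow_mem (inv_mem hp) m)).1 h2
    exact mem_of_zpow hm h3
  have hy : a⁻¹ * (a⁻¹ * b) * a ∈ H := by
    have h1 : ((a⁻¹ * b) ^ m * ((a⁻¹ * (a⁻¹ * b) * a)⁻¹) ^ m) ^ n * (a⁻¹ * b) ∈ H := by
      rw [← eq_two' hr]
      exact zpow_mem (mul_mem (zpow_mem hp _) (zpow_mem (inv_mem hq) _)) _
    have h2 := mem_of_zpow hn ((H.mul_mem_cancel_right hq).1 h1)
    have h3 := (H.mul_mem_cancel_left (zpow_mem hq m)).1 h2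
    have h4 := mem_of_zpow hm h3
    exact (inv_mem_iff).1 h4
  have hc1 : ∀ h ∈ H, a * h * a⁻¹ ∈ H := by
    intro h hh
    induction hh using Subgroup.closure_induction with
    | mem x hx' =>
      rcases hx' with rfl | rfl
      · exact hx
      · have e : a * (a⁻¹ * b) * a⁻¹ = b * a⁻¹ := by group
        rw [e]; exact hp
    | one => simp
    | mul x y _ _ hx hy =>
      have e : a * (x * y) * a⁻¹ = (a * x * a⁻¹) * (a * y * a⁻¹) := by group
      rw [e]; exact mul_mem hx hy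
    | inv x _ hx =>
      have e : a * x⁻¹ * a⁻¹ = (a * x * a⁻¹)⁻¹ := by group
      rw [e]; exact inv_mem hx
  have hc2 : ∀ h ∈ H, a⁻¹ * h * a ∈ H := by
    intro h hh
    induction hh using Subgroup.closure_induction with
    | mem x hx' =>
      rcases hx' with rfl | rfl
      · have e : a⁻¹ * (b * a⁻¹) * a = a⁻¹ * b := by group
        rw [e]; exact hq
      · exact hy
    | one => simp
    | mul x y _ _ hx hy =>
      have e : a⁻¹ * (x * y) * a = (a⁻¹ * x * a) * (a⁻¹ * y * a) := by group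
      rw [e]; exact mul_mem hx hy
    | inv x _ hx =>
      have e : a⁻¹ * x⁻¹ * a = (a⁻¹ * x * a)⁻¹ := by group
      rw [e]; exact inv_mem hx
  have ha : a ∈ Subgroup.normalizer (H : Set G) := by
    rw [Subgroup.mem_normalizer_iff]
    intro h
    constructor
    · exact hc1 h
    · intro h1
      have := hc2 _ h1
      have e : a⁻¹ * (a * h * a⁻¹) * a = h := by group
      rwa [e] at this
  have hnorm : H.Normal := by
    rw [← Subgroup.normalizer_eq_top_iff, eq_top_iff, ← hgen, Subgroup.closure_le]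
    rintro x (rfl | rfl)
    · exact ha
    · have e : x = (x * a⁻¹) * a := by group
      rw [e]
      exact mul_mem (Subgroup.le_normalizer hp) ha
  apply le_antisymm
  · have hpow : ∀ g : G, ∃ k : ℤ, (g : G ⧸ H) = (a : G ⧸ H) ^ k := by
      intro g
      have hg : g ∈ Subgroup.closure {a, b} := by rw [hgen]; exact Subgroup.mem_top g
      induction hg using Subgroup.closure_induction with
      | mem x hx =>
        rcases hx with rfl | rfl
        · exact ⟨1, by rw [zpow_one]⟩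
        · refine ⟨1, ?_⟩
          rw [zpow_one, eq_comm, QuotientGroup.eq]
          exact hq
      | one => exact ⟨0, by rw [zpow_zero]; rfl⟩
      | mul x y _ _ hx hy =>
        obtain ⟨k, hk⟩ := hx
        obtain ⟨l, hl⟩ := hy
        exact ⟨k + l, by rw [QuotientGroup.mk_mul, hk, hl, zpow_add]⟩
      | inv x _ hx =>
        obtain ⟨k, hk⟩ := hx
        exact ⟨-k, by rw [QuotientGroup.mk_inv, hk, zpow_neg]⟩
    rw [commutator_def, Subgroup.commutator_le]
    intro g _ h _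
    obtain ⟨k, hk⟩ := hpow g
    obtain ⟨l, hl⟩ := hpow h
    rw [← QuotientGroup.eq_one_iff]
    have : ((⁅g, h⁆ : G) : G ⧸ H) = ⁅(g : G ⧸ H), (h : G ⧸ H)⁆ := by
      rw [commutatorElement_def, commutatorElement_def]; rfl
    rw [this, commutatorElement_eq_one_iff_commute, hk, hl]
    exact (Commute.refl _).zpow_zpow k l
  · rw [hH, Subgroup.closure_le]
    have hpc : b * a⁻¹ ∈ commutator G := by
      have h : ⁅(wd a b m ^ n)⁻¹, a⁆ = b * a⁻¹ := by
        rw [commutatorElement_def, inv_inv, mul_assoc _ a, hr, inv_mul_cancel_left]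
      rw [← h]
      exact Subgroup.commutator_mem_commutator (Subgroup.mem_top _) (Subgroup.mem_top _)
    rintro x (rfl | rfl)
    · exact hpc
    · have e : a⁻¹ * b = a⁻¹ * (b * a⁻¹) * (a⁻¹)⁻¹ := by group
      rw [e]
      exact Subgroup.Normal.conj_mem inferInstance _ hpc _

end grp

theorem k_gen (m n : ℤ) : Subgroup.closure {ka m n, kb m n} = ⊤ := by
  have h := PresentedGroup.closure_range_of ({relator m n} : Set (FreeGroup (Fin 2)))
  rw [← h]
  congr 1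
  ext x
  constructor
  · rintro (rfl | rfl)
    · exact ⟨0, rfl⟩
    · exact ⟨1, rfl⟩
  · rintro ⟨i, rfl⟩
    fin_cases i
    · left; rfl
    · right; rfl

/-- The commutator subgroup is finitely generated if and only if both parameters are `± 1`. -/
theorem fg_iff {m n : ℤ} (hm : m ≠ 0) (hn : n ≠ 0) :
    (commutator (KnotGroup m n)).FG ↔ m.natAbs = 1 ∧ n.natAbs = 1 := by
  constructor
  · exact unit_of_fg hm hn
  · rintro ⟨h1, h2⟩
    classical
    refine ⟨{kb m n * (ka m n)⁻¹, (ka m n)⁻¹ * kb m n}, ?_⟩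
    rw [comm_eq (k_gen m n) (k_rel m n) h1 h2]
    congr 1
    simp

end Pool.Agent.DFJ
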