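import Pool.Agent.DFJ.TorFinal
import Pool.Agent.DFJ.StallB

/-!
# DFJ/Result: genus one two-bridge knots
-/

set_option autoImplicit false

namespace Pool.Agent.DFJ

open LaurentPolynomial Matrix

theorem genus_one {m n : ℤ} (hm : m ≠ 0) (hn : n ≠ 0)
    (φ : KnotGroup m n →* Multiplicative ℤ) (hφ : Function.Surjective φ)
    (α : KnotGroup m n →* SLC) (hpar : (mx (α (PresentedGroup.of 0))).trace ^ 2 = 4)
    (hna : α (PresentedGroup.of 0) * α (PresentedGroup.of 1) ≠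
      α (PresentedGroup.of 1) * α (PresentedGroup.of 0)) :
    (∃! τ, IsTorsion φ α τ) ∧ ∀ τ, IsTorsion φ α τ →
      HasDegree τ 2 ∧ (IsMonic τ ↔ (commutator (KnotGroup m n)).FG) := by
  obtain ⟨L, h1, h2, h3, h4⟩ := torsion_main hm hn φ hφ α hpar hna
  refine ⟨h3, fun τ hτ => ⟨(h4 τ hτ).degree h1, ?_⟩⟩
  rw [(h4 τ hτ).monic h1, h2, fg_iff hm hn]

end Pool.Agent.DFJ
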