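import Pool.Agent.DFJ.Real

/-!
# DFJ/Setup: the system `z = FF a w`, `FF b z = ε w`
-/

set_option autoImplicit false

namespace Pool.Agent.DFJ

open Polynomial

/-- The system for `w`. -/
structure Sys (a b : ℕ) (ε : ℤ) (w : ℂ) : Prop where
  ha : 1 ≤ a
  hb : 1 ≤ b
  hε : ε = 1 ∨ ε = -1
  hw : w ≠ 0
  eq : FF b (FF a w) = ε * w

variable {a b : ℕ} {ε : ℤ} {w : ℂ}

theorem aeval_GG (a b : ℕ) (ε : ℤ) (w : ℂ) : aeval w (GG a b ε) = FF b (FF a w) - ε * w := by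
  unfold GG
  have h1 : ∀ g : ℤ[X], aeval w g = (aeval w : ℤ[X] →ₐ[ℤ] ℂ).toRingHom g := fun _ => rfl
  have h2 : (aeval w : ℤ[X] →ₐ[ℤ] ℂ).toRingHom X = w := aeval_X w
  rw [map_sub, h1 (FF b (FF a X)), map_FF, map_FF, h2, map_mul, aeval_X, aeval_C]
  rfl

theorem Sys.integral (h : Sys a b ε w) : IsIntegral ℤ w := by
  refine ⟨GG a b ε, monic_GG h.ha h.hb ε, ?_⟩
  have h1 := aeval_GG a b ε w
  rw [h.eq, sub_self] at h1
  exact h1

theorem Sys.sep (h : Sys a b ε w) : (rd (minpoly ℤ w)).Separable := by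
  have h1 : aeval w (GG a b ε) = 0 := by rw [aeval_GG, h.eq, sub_self]
  obtain ⟨k, hk⟩ := minpoly.isIntegrallyClosed_dvd h.integral h1
  refine (separable_GG a b h.hε).of_dvd ⟨rd k, ?_⟩
  rw [hk, Polynomial.map_mul]

theorem Sys.ok (h : Sys a b ε w) : Ok (Zw w) := Ok_Zw h.integral h.sep

/-- The element `z`. -/
noncomputable def zR (a : ℕ) (w : ℂ) : Zw w := FF a (wR w)

theorem coe_FF {w : ℂ} (n : ℕ) (x : Zw w) : ((FF n x : Zw w) : ℂ) = FF n (x : ℂ) :=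
  map_FF (Zw w).val.toRingHom n x

theorem coe_PP {w : ℂ} (n : ℕ) (x : Zw w) : ((PP n x : Zw w) : ℂ) = PP n (x : ℂ) :=
  map_PP (Zw w).val.toRingHom n x

theorem Sys.eqR (h : Sys a b ε w) : FF b (zR a w) = (ε : Zw w) * wR w := by
  apply Subtype.ext
  unfold zR
  rw [coe_FF, coe_FF]
  have h1 : (((ε : Zw w) * wR w : Zw w) : ℂ) = ε * w := by
    push_cast
    rfl
  rw [h1]
  exact h.eq

theorem Sys.signR (h : Sys a b ε w) : (ε : Zw w) = 1 ∨ (ε : Zw w) = -1 := by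
  rcases h.hε with h | h
  · left; rw [h]; simp
  · right; rw [h]; simp

theorem zR_def (a : ℕ) (w : ℂ) : zR a w = wR w ^ 2 * al a (wR w ^ 2 + 2) := rfl

/-- the second equation solved for `w` -/
theorem Sys.eqW (h : Sys a b ε w) :
    wR w = (ε : Zw w) * (zR a w ^ 2 * al b (zR a w ^ 2 + 2)) := by
  have h1 : zR a w ^ 2 * al b (zR a w ^ 2 + 2) = (ε : Zw w) * wR w := h.eqR
  have h2 := sign_sq h.signR
  rw [h1]
  linear_combination (-(wR w)) * h2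

theorem wR_ne (hw : w ≠ 0) : wR w ≠ 0 := by
  intro h
  apply hw
  have h1 : ((wR w : Zw w) : ℂ) = ((0 : Zw w) : ℂ) := by rw [h]
  exact h1

theorem Sys.inv (h : Sys a b ε w) : ∃ w' : Zw w, wR w * w' = 1 := by
  have h1 := h.eqW
  rw [zR_def a w] at h1
  set X := al a (wR w ^ 2 + 2) with hX
  set Y := al b ((wR w ^ 2 * X) ^ 2 + 2) with hY
  refine ⟨(ε : Zw w) * (wR w ^ 2 * X ^ 2 * Y), ?_⟩
  have h2 : wR w * (wR w * ((ε : Zw w) * (wR w ^ 2 * X ^ 2 * Y)) - 1) = 0 := by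
    linear_combination (-1 : Zw w) * h1
  rcases mul_eq_zero.1 h2 with h3 | h3
  · exact absurd h3 (wR_ne h.hw)
  · exact sub_eq_zero.1 h3

/-- `x² = -1 - 4q` is impossible. -/
theorem Ok.no_neg {R : Type*} [CommRing R] (ok : Ok R) {x q : R} (h : x ^ 2 = -1 - 4 * q) :
    False := by
  have h1 : (2 : R) ∣ x - 1 := by
    apply ok.sq_congr
    exact ⟨-1 - 2 * q, by linear_combination h⟩
  obtain ⟨y, hy⟩ := h1
  have h2 : x = 1 + 2 * y := by linear_combination hy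
  rw [h2] at h
  apply ok.nun
  refine ⟨-(y + y ^ 2 + q), ?_⟩
  apply ok.cancel
  linear_combination h

/-- the top coefficient in `ℤ[w]` -/
noncomputable def LR (a b : ℕ) (w : ℂ) : Zw w :=
  PP a (wR w ^ 2 + 2) * PP b (zR a w ^ 2 + 2)

theorem coe_LR (a b : ℕ) (w : ℂ) :
    ((LR a b w : Zw w) : ℂ) = PP a (w ^ 2 + 2) * PP b (FF a w ^ 2 + 2) := by
  have e1 : ((PP a (wR w ^ 2 + 2) : Zw w) : ℂ) = PP a (w ^ 2 + 2) := by
    rw [coe_PP]; rfl
  have e2 : ((PP b (zR a w ^ 2 + 2) : Zw w) : ℂ) = PP b (FF a w ^ 2 + 2) := by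
    rw [coe_PP]
    have : ((zR a w ^ 2 + 2 : Zw w) : ℂ) = FF a w ^ 2 + 2 := by
      have h1 : ((zR a w : Zw w) : ℂ) = FF a w := coe_FF a (wR w)
      push_cast
      rw [h1]
      rfl
    rw [this]
  rw [← e1, ← e2]
  rfl

/-- exchange of the two parameters -/
theorem Sys.swap (h : Sys a b ε w) : Sys b a 1 (FF a w) := by
  have hz : FF a w ≠ 0 := by
    intro h0
    have h1 := h.eq
    rw [h0] at h1
    unfold FF at h1
    have h2 : (ε : ℂ) * w = 0 := by rw [← h1]; ring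
    have h3 : (ε : ℂ) ≠ 0 := by
      rcases h.hε with h | h <;> rw [h] <;> norm_num
    rcases mul_eq_zero.1 h2 with h4 | h4
    · exact h3 h4
    · exact h.hw h4
  refine ⟨h.hb, h.ha, Or.inl rfl, hz, ?_⟩
  rw [h.eq]
  have h1 : ((ε : ℂ) * w) ^ 2 = w ^ 2 := by
    have h2 : (ε : ℂ) ^ 2 = 1 := by
      rcases h.hε with h | h <;> rw [h] <;> norm_num
    rw [mul_pow, h2, one_mul]
  unfold FF
  rw [h1]
  simp

theorem Sys.swap_L (h : Sys a b ε w) :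
    PP b (FF a w ^ 2 + 2) * PP a (FF b (FF a w) ^ 2 + 2) =
      PP a (w ^ 2 + 2) * PP b (FF a w ^ 2 + 2) := by
  rw [h.eq]
  have h1 : ((ε : ℂ) * w) ^ 2 = w ^ 2 := by
    have h2 : (ε : ℂ) ^ 2 = 1 := by
      rcases h.hε with h | h <;> rw [h] <;> norm_num
    rw [mul_pow, h2, one_mul]
  rw [h1, mul_comm]

end Pool.Agent.DFJ
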