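import Pool.Agent.DFJ.FoxRel

/-!
# DFJ/Stall: when the commutator subgroup of the knot group is finitely generated
-/

set_option autoImplicit false

namespace Pool.Agent.DFJ

open scoped commutatorElement

/-- The affine permutation `z ↦ u z + c`. -/
def aff (u : ℂˣ) (c : ℂ) : Equiv.Perm ℂ where
  toFun z := u * z + c
  invFun z := (u⁻¹ : ℂˣ) * (z - c)
  left_inv z := by simp
  right_inv z := by simp

theorem aff_apply (u : ℂˣ) (c z : ℂ) : aff u c z = u * z + c := rfl

theorem aff_mul (u v : ℂˣ) (c d : ℂ) : aff u c * aff v d = aff (u * v) (u * d + c) := by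
  ext z
  rw [Equiv.Perm.mul_apply, aff_apply, aff_apply, aff_apply]
  push_cast
  ring

theorem aff_one : aff 1 0 = 1 := by
  ext z
  rw [aff_apply]
  simp

theorem aff_inv (u : ℂˣ) (c : ℂ) : (aff u c)⁻¹ = aff u⁻¹ (-((u⁻¹ : ℂˣ) * c)) := by
  rw [inv_eq_iff_mul_eq_one, aff_mul, mul_inv_cancel, ← aff_one]
  congr 1
  simp

theorem aff_zpow (c : ℂ) (m : ℤ) : (aff 1 c) ^ m = aff 1 (m * c) := by
  induction m using Int.induction_on with
  | zero => rw [zpow_zero, Int.cast_zero, zero_mul, aff_one]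
  | succ m ih =>
    rw [zpow_add_one, ih, aff_mul, one_mul, Units.val_one]
    congr 1
    push_cast
    ring
  | pred m ih =>
    rw [zpow_sub_one, ih, aff_inv, aff_mul]
    congr 1
    · simp
    · push_cast
      simp
      ring

theorem aff_inj {u v : ℂˣ} {c d : ℂ} (h : aff u c = aff v d) : u = v ∧ c = d := by
  have h0 := congrArg (fun f : Equiv.Perm ℂ => f 0) h
  have h1 := congrArg (fun f : Equiv.Perm ℂ => f 1) h
  simp only [aff_apply, mul_zero, zero_add, mul_one] at h0 h1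
  refine ⟨Units.ext ?_, h0⟩
  rw [h0] at h1
  exact add_right_cancel h1

section meta1

variable {m n : ℤ} {l : ℂˣ} (hl : (m * n : ℂ) * (l ^ 2 - 2 * l + 1) = l)

/-- the generator `a` of the knot group -/
abbrev ka (m n : ℤ) : KnotGroup m n := PresentedGroup.of 0
/-- the generator `b` of the knot group -/
abbrev kb (m n : ℤ) : KnotGroup m n := PresentedGroup.of 1

theorem k_rel (m n : ℤ) : ka m n * wd (ka m n) (kb m n) m ^ n =
    wd (ka m n) (kb m n) m ^ n * kb m n := by
  have h : (PresentedGroup.mk {relator m n}) (relator m n) = 1 :=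
    PresentedGroup.one_of_mem (Set.mem_singleton _)
  have h2 : (PresentedGroup.mk {relator m n}) (relator m n) =
      ka m n * wd (ka m n) (kb m n) m ^ n * (kb m n)⁻¹ * (wd (ka m n) (kb m n) m ^ n)⁻¹ := by
    unfold wd
    rfl
  rw [h2, mul_inv_eq_one] at h
  exact mul_inv_eq_iff_eq_mul.1 h

include hl

theorem aff_rel : ∀ r ∈ ({relator m n} : Set (FreeGroup (Fin 2))),
    FreeGroup.lift (![aff l 0, aff l 1] : Fin 2 → Equiv.Perm ℂ) r = 1 := by
  intro r hr
  rw [Set.mem_singleton_iff] at hr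
  rw [hr]
  have ea : FreeGroup.lift (![aff l 0, aff l 1] : Fin 2 → Equiv.Perm ℂ) (FreeGroup.of 0) =
    aff l 0 := FreeGroup.lift_apply_of
  have eb : FreeGroup.lift (![aff l 0, aff l 1] : Fin 2 → Equiv.Perm ℂ) (FreeGroup.of 1) =
    aff l 1 := FreeGroup.lift_apply_of
  have hl0 : (l : ℂ) ≠ 0 := l.ne_zero
  unfold relator wd
  simp only [map_mul, map_inv, map_zpow, ea, eb]
  have e1 : aff l 1 * (aff l 0)⁻¹ = aff 1 1 := by
    rw [aff_inv, aff_mul, mul_inv_cancel]
    congr 1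
    simp
  have e2 : (aff l 1)⁻¹ * aff l 0 = aff 1 (-((l⁻¹ : ℂˣ) : ℂ)) := by
    rw [aff_inv, aff_mul, inv_mul_cancel]
    congr 1
    simp
  rw [e1, e2, aff_zpow, aff_zpow, aff_mul, one_mul, aff_zpow, mul_inv_eq_one, mul_inv_eq_iff_eq_mul,
    aff_mul, aff_mul, mul_one, one_mul]
  congr 1
  push_cast
  field_simp
  linear_combination hl

/-- the metabelian quotient -/
noncomputable def qh : KnotGroup m n →* Equiv.Perm ℂ := PresentedGroup.toGroup (aff_rel hl)

theorem qh_a : qh hl (ka m n) = aff l 0 := PresentedGroup.toGroup.of (aff_rel hl)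

theorem qh_b : qh hl (kb m n) = aff l 1 := PresentedGroup.toGroup.of (aff_rel hl)

theorem qh_form (g : KnotGroup m n) : ∃ (u : ℂˣ) (c : ℂ), qh hl g = aff u c := by
  have hg : g ∈ Subgroup.closure (Set.range (PresentedGroup.of : Fin 2 → KnotGroup m n)) := by
    rw [PresentedGroup.closure_range_of]
    exact Subgroup.mem_top g
  induction hg using Subgroup.closure_induction with
  | mem x hx =>
    obtain ⟨i, rfl⟩ := hx
    fin_cases i
    · exact ⟨l, 0, qh_a hl⟩
    · exact ⟨l, 1, qh_b hl⟩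
  | one => exact ⟨1, 0, by rw [map_one, aff_one]⟩
  | mul x y _ _ hx hy =>
    obtain ⟨u, c, hu⟩ := hx
    obtain ⟨v, d, hv⟩ := hy
    exact ⟨u * v, u * d + c, by rw [map_mul, hu, hv, aff_mul]⟩
  | inv x _ hx =>
    obtain ⟨u, c, hu⟩ := hx
    exact ⟨u⁻¹, _, by rw [map_inv, hu, aff_inv]⟩

/-- elements acting by translations -/
def tsub : Subgroup (KnotGroup m n) where
  carrier := {g | ∃ c : ℂ, qh hl g = aff 1 c}
  one_mem' := ⟨0, by rw [map_one, aff_one]⟩
  mul_mem' := by
    rintro x y ⟨c, hc⟩ ⟨d, hd⟩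
    exact ⟨_, by rw [map_mul, hc, hd, aff_mul, one_mul]⟩
  inv_mem' := by
    rintro x ⟨c, hc⟩
    exact ⟨_, by rw [map_inv, hc, aff_inv, inv_one]⟩

theorem comm_le : commutator (KnotGroup m n) ≤ tsub hl := by
  rw [commutator_def, Subgroup.commutator_le]
  intro g _ h _
  obtain ⟨u, c, hu⟩ := qh_form hl g
  obtain ⟨v, d, hv⟩ := qh_form hl h
  obtain ⟨w, c', hw⟩ := qh_form hl ⁅g, h⁆
  have h1 : w = 1 := by
    have hw' := hw
    rw [commutatorElement_def, map_mul, map_mul, map_mul, map_inv, map_inv, hu, hv, aff_inv,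
      aff_inv, aff_mul, aff_mul, aff_mul] at hw'
    rw [← (aff_inj hw').1, mul_comm u v, mul_inv_cancel_right, mul_inv_cancel]
  exact ⟨c', by rw [hw, h1]⟩

/-- the translations of the commutator subgroup -/
def tmod : AddSubgroup ℂ where
  carrier := {c | ∃ g ∈ commutator (KnotGroup m n), qh hl g = aff 1 c}
  zero_mem' := ⟨1, one_mem _, by rw [map_one, aff_one]⟩
  add_mem' := by
    rintro c d ⟨g, hg, hc⟩ ⟨h, hh, hd⟩
    refine ⟨g * h, mul_mem hg hh, ?_⟩
    rw [map_mul, hc, hd, aff_mul, one_mul, Units.val_one, one_mul, add_comm]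
  neg_mem' := by
    rintro c ⟨g, hg, hc⟩
    refine ⟨g⁻¹, inv_mem hg, ?_⟩
    rw [map_inv, hc, aff_inv, inv_one, Units.val_one, one_mul]

theorem one_mem_tmod : (1 : ℂ) ∈ tmod hl := by
  refine ⟨⁅(wd (ka m n) (kb m n) m ^ n)⁻¹, ka m n⁆, ?_, ?_⟩
  · exact Subgroup.commutator_mem_commutator (Subgroup.mem_top _) (Subgroup.mem_top _)
  · have h : ⁅(wd (ka m n) (kb m n) m ^ n)⁻¹, ka m n⁆ = kb m n * (ka m n)⁻¹ := by
      rw [commutatorElement_def, inv_inv, mul_assoc _ (ka m n), k_rel, inv_mul_cancel_left]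
    rw [h, map_mul, map_inv, qh_a, qh_b, aff_inv, aff_mul, mul_inv_cancel]
    congr 1
    simp

theorem conj_mem_tmod {c : ℂ} (hc : c ∈ tmod hl) : (l : ℂ) * c ∈ tmod hl ∧
    ((l⁻¹ : ℂˣ) : ℂ) * c ∈ tmod hl := by
  obtain ⟨g, hg, hc⟩ := hc
  constructor
  · refine ⟨ka m n * g * (ka m n)⁻¹, Subgroup.Normal.conj_mem inferInstance g hg _, ?_⟩
    rw [map_mul, map_mul, map_inv, hc, qh_a, aff_mul, aff_inv, aff_mul, mul_one, mul_inv_cancel]
    congr 1
    simp
  · refine ⟨(ka m n)⁻¹ * g * ((ka m n)⁻¹)⁻¹, Subgroup.Normal.conj_mem inferInstance g hg _, ?_⟩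
    rw [map_mul, map_mul, inv_inv, map_inv, hc, qh_a, aff_inv, aff_mul, aff_mul, mul_one,
      inv_mul_cancel]
    congr 1
    simp

theorem tmod_fg (h : (commutator (KnotGroup m n)).FG) :
    (AddSubgroup.toIntSubmodule (tmod hl)).FG := by
  obtain ⟨S, hS⟩ := h
  classical
  refine ⟨S.image (fun g => qh hl g 0), ?_⟩
  apply le_antisymm
  · rw [Submodule.span_le]
    intro c hc
    rw [Finset.coe_image] at hc
    obtain ⟨g, hg, rfl⟩ := hc
    have hg' : g ∈ commutator (KnotGroup m n) := by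
      rw [← hS]; exact Subgroup.subset_closure hg
    obtain ⟨c, hc⟩ := comm_le hl hg'
    refine ⟨g, hg', ?_⟩
    have : (fun g => qh hl g 0) g = c := by
      change qh hl g 0 = c
      rw [hc, aff_apply]; simp
    rw [this, hc]
  · rintro c ⟨g, hg, hc⟩
    have key : ∀ g, g ∈ Subgroup.closure (S : Set (KnotGroup m n)) → ∀ c, qh hl g = aff 1 c →
        c ∈ Submodule.span ℤ ((S.image (fun g => qh hl g 0) : Finset ℂ) : Set ℂ) := by
      intro g hg
      induction hg using Subgroup.closure_induction with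
      | mem x hx =>
        intro c hc
        apply Submodule.subset_span
        rw [Finset.coe_image]
        refine ⟨x, hx, ?_⟩
        change qh hl x 0 = c
        rw [hc, aff_apply]; simp
      | one =>
        intro c hc
        rw [map_one, ← aff_one] at hc
        rw [← (aff_inj hc).2]
        exact zero_mem _
      | mul x y hx' hy' hx hy =>
        intro c hc
        rw [hS] at hx' hy'
        obtain ⟨c1, hc1⟩ := comm_le hl hx'
        obtain ⟨c2, hc2⟩ := comm_le hl hy'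
        rw [map_mul, hc1, hc2, aff_mul] at hc
        rw [← (aff_inj hc).2, Units.val_one, one_mul]
        exact add_mem (hy c2 hc2) (hx c1 hc1)
      | inv x hx' hx =>
        intro c hc
        rw [hS] at hx'
        obtain ⟨c1, hc1⟩ := comm_le hl hx'
        rw [map_inv, hc1, aff_inv] at hc
        rw [← (aff_inj hc).2, inv_one, Units.val_one, one_mul]
        exact neg_mem (hx c1 hc1)
    rw [← hS] at hg
    exact key g hg c hc

theorem int_of_fg (h : (commutator (KnotGroup m n)).FG) :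
    IsIntegral ℤ (l : ℂ) ∧ IsIntegral ℤ ((l⁻¹ : ℂˣ) : ℂ) := by
  have hfg := tmod_fg hl h
  have hne : AddSubgroup.toIntSubmodule (tmod hl) ≠ ⊥ := by
    intro h0
    have h1 : (1 : ℂ) ∈ AddSubgroup.toIntSubmodule (tmod hl) := one_mem_tmod hl
    rw [h0, Submodule.mem_bot] at h1
    exact one_ne_zero h1
  exact ⟨isIntegral_of_smul_mem_submodule _ hne hfg _ fun c hc => (conj_mem_tmod hl hc).1,
    isIntegral_of_smul_mem_submodule _ hne hfg _ fun c hc => (conj_mem_tmod hl hc).2⟩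

end meta1

theorem unit_of_fg {m n : ℤ} (hm : m ≠ 0) (hn : n ≠ 0) (h : (commutator (KnotGroup m n)).FG) :
    m.natAbs = 1 ∧ n.natAbs = 1 := by
  have hN : ((m * n : ℤ) : ℂ) ≠ 0 := by exact_mod_cast mul_ne_zero hm hn
  obtain ⟨s, hs⟩ := IsAlgClosed.exists_eq_mul_self (4 * ((m * n : ℤ) : ℂ) + 1)
  set N : ℂ := ((m * n : ℤ) : ℂ) with hNd
  have hroot : N * (((2 * N + 1 + s) / (2 * N)) ^ 2 - 2 * ((2 * N + 1 + s) / (2 * N)) + 1) =
      (2 * N + 1 + s) / (2 * N) := by
    field_simp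
    linear_combination -hs
  have hl0 : (2 * N + 1 + s) / (2 * N) ≠ 0 := by
    intro h0
    rw [h0] at hroot
    apply hN
    linear_combination hroot
  set l : ℂˣ := Units.mk0 _ hl0 with hld
  have hl : (m * n : ℂ) * (l ^ 2 - 2 * l + 1) = l := by
    have : (m * n : ℂ) = N := by rw [hNd]; push_cast; ring
    rw [this]
    exact hroot
  obtain ⟨h1, h2⟩ := int_of_fg hl h
  have h3 : (l : ℂ) + ((l⁻¹ : ℂˣ) : ℂ) - 2 = 1 / N := by
    have hl1 : (l : ℂ) ≠ 0 := l.ne_zero
    have : (m * n : ℂ) = N := by rw [hNd]; push_cast; ring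
    rw [this] at hl
    rw [Units.val_inv_eq_inv_val]
    field_simp
    linear_combination hl
  have h4 : IsIntegral ℤ (1 / N) := by
    rw [← h3]
    exact (h1.add h2).sub (isIntegral_algebraMap (x := (2 : ℤ)))
  have h5 : (1 / N : ℂ) = algebraMap ℚ ℂ (1 / ((m * n : ℤ) : ℚ)) := by
    rw [hNd]
    simp
  rw [h5] at h4
  have h6 : IsIntegral ℤ (1 / ((m * n : ℤ) : ℚ)) :=
    (isIntegral_algebraMap_iff (algebraMap ℚ ℂ).injective).1 h4
  obtain ⟨k, hk⟩ := (IsIntegrallyClosed.isIntegral_iff (R := ℤ) (K := ℚ)).1 h6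
  have hNq : ((m * n : ℤ) : ℚ) ≠ 0 := by exact_mod_cast mul_ne_zero hm hn
  have h7 : (k : ℚ) * ((m * n : ℤ) : ℚ) = 1 := by
    have : (algebraMap ℤ ℚ) k = (k : ℚ) := rfl
    rw [← this, hk]
    field_simp
  have h8 : k * (m * n) = 1 := by exact_mod_cast h7
  have h9 : (k * m) * n = 1 := by rw [mul_assoc]; exact h8
  have h10 : (k * n) * m = 1 := by rw [mul_assoc, mul_comm n m]; exact h8
  exact ⟨Int.natAbs_eq_iff.2 (by
    rcases Int.eq_one_or_neg_one_of_mul_eq_one' h10 with h | h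
    · left; exact h.2
    · right; exact h.2), Int.natAbs_eq_iff.2 (by
    rcases Int.eq_one_or_neg_one_of_mul_eq_one' h9 with h | h
    · left; exact h.2
    · right; exact h.2)⟩

end Pool.Agent.DFJ
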