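import Pool.Agent.DFJ.TorMain

/-!
# DFJ/TorFinal: the torsion of a nonabelian parabolic representation
-/

set_option autoImplicit false

namespace Pool.Agent.DFJ

open LaurentPolynomial Matrix

variable {m n : ℤ}

theorem rel_rho (α : KnotGroup m n →* SLC) :
    rho α ga * wd (rho α ga) (rho α gb) m ^ n = wd (rho α ga) (rho α gb) m ^ n * rho α gb := by
  have h : rho α (ga * wd ga gb m ^ n * gb⁻¹ * (wd ga gb m ^ n)⁻¹) = 1 := rho_rel α
  rw [map_mul, map_mul, map_mul, map_inv, map_inv, map_zpow, map_wd] at h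
  rw [mul_inv_eq_one] at h
  exact mul_inv_eq_iff_eq_mul.1 h

/-- two conjugate elements have the same trace -/
theorem tr_conj (g h : SLC) : tr (g * h * g⁻¹) = tr h := by
  unfold tr
  rw [mx_mul, trace_mul_comm, ← mx_mul, inv_mul_cancel_left]

theorem tr_ab (α : KnotGroup m n →* SLC) : tr (rho α gb) = tr (rho α ga) := by
  have h := rel_rho α
  have h1 : rho α gb = (wd (rho α ga) (rho α gb) m ^ n)⁻¹ * rho α ga *
      ((wd (rho α ga) (rho α gb) m ^ n)⁻¹)⁻¹ := by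
    rw [mul_assoc, inv_inv, h]
    group
  rw [h1, tr_conj]

theorem tr_gy (α : KnotGroup m n →* SLC) : tr (rho α gy) = tr (rho α gx) := by
  have h1 : rho α gy = (rho α ga)⁻¹ * (rho α gx)⁻¹ * ((rho α ga)⁻¹)⁻¹ := by
    rw [← map_inv, ← map_inv, ← map_inv, ← map_mul, ← map_mul]
    congr 1
    simp [gx, gy]
  rw [h1, tr_conj, tr_inv]

/-- The torsion of a nonabelian representation with parabolic meridians. -/
theorem torsion_main (hm : m ≠ 0) (hn : n ≠ 0) (φ : KnotGroup m n →* Multiplicative ℤ)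
    (hφ : Function.Surjective φ) (α : KnotGroup m n →* SLC)
    (ha : tr (rho α ga) ^ 2 = 4) (hna : rho α ga * rho α gb ≠ rho α gb * rho α ga) :
    ∃ L : ℂ, L ≠ 0 ∧ ((L = 1 ∨ L = -1) ↔ m.natAbs = 1 ∧ n.natAbs = 1) ∧
      (∃! τ, IsTorsion φ α τ) ∧ ∀ τ, IsTorsion φ α τ → Shape τ L := by
  -- the system
  have hκ : (tr (rho α ga) / 2) ^ 2 = 1 := by linear_combination ha / 4
  have hA : tr (rho α ga) = 2 * (tr (rho α ga) / 2) := by ring
  have hB : tr (rho α gb) = 2 * (tr (rho α ga) / 2) := by rw [tr_ab]; ring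
  obtain ⟨w, hw, hX, hW⟩ := mat_sys hκ hA hB hna hm hn (rel_rho α)
  have hXe : rho α gb * (rho α ga)⁻¹ = rho α gx := by rw [← map_inv, ← map_mul]
  have hWe : wd (rho α ga) (rho α gb) m = rho α (wd ga gb m) := (map_wd _ _ _ _).symm
  rw [hXe] at hX
  rw [hWe] at hW
  have hX2 : tr (rho α gx) ≠ 2 := by
    rw [hX]
    intro h
    exact hw.hw (pow_eq_zero_iff two_ne_zero |>.1 (by linear_combination h))
  have hW2 : tr (rho α (wd ga gb m)) ≠ 2 := by
    rw [hW]
    intro h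
    exact hw.swap.hw (pow_eq_zero_iff two_ne_zero |>.1 (by linear_combination h))
  set L := Lc m.natAbs n.natAbs w with hLdef
  have hL0 : L ≠ 0 := Lc_ne_zero hw
  have hLe : L = PP n.natAbs (tr (rho α (wd ga gb m))) * PP m.natAbs (tr (rho α gx)) := by
    rw [hX, hW, hLdef, Lc, mul_comm]
  have hdom : ∀ {x y z : ℂ[T;T⁻¹]}, z ≠ 0 → x * z = y * z → x = y := by
    intro x y z hz h
    exact mul_right_cancel₀ hz h
  -- the exponent
  have he := chi_surj φ hφ
  set e := (chi φ ga).toAdd with hedef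
  -- the denominator
  have hden : ∀ c, tr (rho α gb) = c →
      (ringMap φ α (MonoidAlgebra.of ℤ _ (FreeGroup.of 1) - 1)).det =
        T e ^ 2 - C c * T e + 1 := by
    intro c hc
    rw [map_sub, map_one, ringMap_of]
    have h1 : Rh φ α (FreeGroup.of 1) = (T e : ℂ[T;T⁻¹]) • emb (mx (rho α gb)) := by
      rw [Rh_eq, hedef, chi_ab φ]
    rw [h1, det_denom c _ hc]
  have hden0 : (ringMap φ α (MonoidAlgebra.of ℤ _ (FreeGroup.of 1) - 1)).det ≠ 0 := by
    rw [hden _ rfl]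
    intro h
    have h2 := congrArg (fun f : ℂ[T;T⁻¹] => f.coeff 0) h
    have e1 : T e ^ 2 = (T (2 * e) : ℂ[T;T⁻¹]) := by rw [T_pow]; norm_num
    have e3 : (1 : ℂ[T;T⁻¹]) = C 1 := (map_one _).symm
    rw [e1, e3, mul_comm (C _) (T e)] at h2
    simp only [AddMonoidAlgebra.coeff_add, AddMonoidAlgebra.coeff_sub, Finsupp.add_apply,
      Finsupp.sub_apply, coeff_T_mul, C_apply, T_apply] at h2
    rw [if_neg (by omega), if_neg (by omega)] at h2
    simp at h2
  -- the Fox derivative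
  obtain ⟨D, hD1, hD2⟩ : ∃ D, IsFox D ∧ ∀ D', IsFox D' → D' = D := by
    have hex : ∀ j : Fin 2, ∃ Dj : FreeGroup (Fin 2) → MonoidAlgebra ℤ (FreeGroup (Fin 2)),
        (∀ i, Dj (FreeGroup.of i) = if i = j then 1 else 0) ∧
        ∀ u v, Dj (u * v) = Dj u + MonoidAlgebra.of ℤ _ u * Dj v := fun j =>
      exists_fox (MonoidAlgebra.of ℤ (FreeGroup (Fin 2))) (fun i => if i = j then 1 else 0)
    choose D hD using hex
    exact ⟨D, ⟨fun j i => (hD j).1 i, fun j u v => (hD j).2 u v⟩,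
      fun D' hD' => fox_unique hD' ⟨fun j i => (hD j).1 i, fun j u v => (hD j).2 u v⟩⟩
  have hfox := foxR_of φ α hD1
  set d : Fin 2 → FreeGroup (Fin 2) → Matrix (Fin 2) (Fin 2) ℂ[T;T⁻¹] :=
    fun j u => ringMap φ α (D j u) with hddef
  -- existence
  have hexi : (d 0 (relator m n)).det = (C ((2 - tr (rho α gx))⁻¹) *
      (d 0 (relator m n) + d 1 (relator m n) * Rh φ α gx).det) *
      (ringMap φ α (MonoidAlgebra.of ℤ _ (FreeGroup.of 1) - 1)).det := by
    have h1 := congrArg Matrix.det (hfox.id0 (Rh_rel φ α))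
    rw [det_mul, det_mul, det_one_sub, det_one_sub, Rh_eq0 φ α (chi_gx φ)] at h1
    have h2 : (emb (mx (rho α gx)) - 1).det = C (2 - tr (rho α gx)) := by
      rw [← det_sub_one, ← emb_det, map_sub, map_one]
    have h3 : (Rh φ α (ga * gb * ga⁻¹) - 1).det =
        (ringMap φ α (MonoidAlgebra.of ℤ _ (FreeGroup.of 1) - 1)).det := by
      have h4 : Rh φ α (ga * gb * ga⁻¹) = (T e : ℂ[T;T⁻¹]) • emb (mx (rho α (ga * gb * ga⁻¹))) := by
        rw [Rh_eq, map_mul (chi φ), map_mul (chi φ), map_inv (chi φ), ← chi_ab φ,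
          mul_inv_cancel_right]
      rw [h4, det_denom _ _ rfl, hden _ rfl, map_mul, map_mul, map_inv, tr_conj]
    rw [h2, h3] at h1
    have h5 : (C ((2 - tr (rho α gx))⁻¹) : ℂ[T;T⁻¹]) * C (2 - tr (rho α gx)) = 1 := by
      rw [← map_mul, inv_mul_cancel₀ (fun h => hX2 (sub_eq_zero.1 h).symm), map_one]
    rw [Rh_eq0 φ α (chi_gx φ)]
    linear_combination C ((2 - tr (rho α gx))⁻¹) * h1 - (d 0 (relator m n)).det * h5
  have hφ1 : φ (PresentedGroup.of 1) ≠ 1 := by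
    have h1 : φ (PresentedGroup.of 1) = chi φ gb := rfl
    rw [h1, ← chi_ab φ]
    intro h2
    rw [hedef, h2, toAdd_one] at he
    omega
  refine ⟨L, hL0, ?_, ⟨_, ⟨hφ1, D, hD1, hexi⟩, ?_⟩, ?_⟩
  · constructor
    · rintro (h | h)
      · exact (Lc_eq_one hw).1 h
      · exact absurd h (Lc_ne_neg hw)
    · intro h
      exact Or.inl ((Lc_eq_one hw).2 h)
  · rintro τ ⟨-, D', hD', h⟩
    rw [hD2 D' hD'] at h
    exact hdom hden0 (h.symm.trans hexi)
  · rintro τ ⟨-, D', hD', h⟩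
    rw [hD2 D' hD', hden _ rfl] at h
    obtain ⟨P₀, P₁, P₂, h1, h2, h3⟩ := fox_shape φ α hfox
    have ht : (T e : ℂ[T;T⁻¹]) * T (-e) = 1 := by rw [← T_add]; simp
    obtain ⟨c₁, c₀, c₂, h4⟩ := det_three P₁ P₀ P₂ ht
    have h5 : (d 0 (relator m n)).det =
        ((T e : ℂ[T;T⁻¹]) • emb P₁ + emb P₀ + (T (-e) : ℂ[T;T⁻¹]) • emb P₂).det := by
      rw [h1]
    rw [h4, h2, h3, det_omc hW2, det_omc hX2, det_omc (by rw [tr_gy]; exact hX2), tr_gy,
      ← hLe] at h5
    obtain ⟨k1, k2, k3⟩ := coeff_three he h5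
    exact shape_of he h.symm k1 k2 k3 hL0

end Pool.Agent.DFJ
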