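import Pool.Agent.DFJ.TorShape

/-!
# DFJ/TorMain: the torsion of a representation
-/

set_option autoImplicit false

namespace Pool.Agent.DFJ

open LaurentPolynomial Matrix

section gen

variable {r : FreeGroup (Fin 2)}
  (φ : PresentedGroup ({r} : Set (FreeGroup (Fin 2))) →* Multiplicative ℤ)
  (α : PresentedGroup ({r} : Set (FreeGroup (Fin 2))) →* SLC)

/-- the representation on the free group -/
def rho : FreeGroup (Fin 2) →* SLC := α.comp (PresentedGroup.mk {r})

/-- the degree on the free group -/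
def chi : FreeGroup (Fin 2) →* Multiplicative ℤ := φ.comp (PresentedGroup.mk {r})

/-- the twisted representation on the free group -/
noncomputable def Rh : FreeGroup (Fin 2) →* Matrix (Fin 2) (Fin 2) ℂ[T;T⁻¹] :=
  (twist φ α).comp (PresentedGroup.mk {r})

theorem Rh_eq (u : FreeGroup (Fin 2)) :
    Rh φ α u = (T (chi φ u).toAdd : ℂ[T;T⁻¹]) • emb (mx (rho α u)) := rfl

theorem Rh_eq0 {u : FreeGroup (Fin 2)} (h : chi φ u = 1) : Rh φ α u = emb (mx (rho α u)) := by
  rw [Rh_eq, h, toAdd_one, T_zero, one_smul]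

theorem ringMap_of (u : FreeGroup (Fin 2)) :
    ringMap φ α (MonoidAlgebra.of ℤ (FreeGroup (Fin 2)) u) = Rh φ α u := by
  unfold ringMap
  rw [MonoidAlgebra.lift_of]
  rfl

theorem rho_rel : rho α r = 1 := by
  unfold rho
  rw [MonoidHom.comp_apply]
  have h : PresentedGroup.mk ({r} : Set (FreeGroup (Fin 2))) r = 1 :=
    PresentedGroup.one_of_mem (Set.mem_singleton r)
  rw [h, map_one]

theorem chi_rel : chi φ r = 1 := by
  unfold chi
  rw [MonoidHom.comp_apply]
  have h : PresentedGroup.mk ({r} : Set (FreeGroup (Fin 2))) r = 1 :=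
    PresentedGroup.one_of_mem (Set.mem_singleton r)
  rw [h, map_one]

theorem Rh_rel : Rh φ α r = 1 := by
  rw [Rh_eq0 φ α (chi_rel φ), rho_rel, mx_one, map_one]

theorem foxR_of {D : Fin 2 → FreeGroup (Fin 2) → MonoidAlgebra ℤ (FreeGroup (Fin 2))}
    (hD : IsFox D) : FoxR (Rh φ α) fun j u => ringMap φ α (D j u) := by
  constructor
  · intro j i
    rw [hD.1]
    split_ifs
    · rw [map_one]
    · rw [map_zero]
  · intro j u v
    rw [hD.2, map_add, map_mul, ringMap_of]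

end gen

theorem om_comp {G H S : Type*} [Group G] [Group H] [Ring S] (ρ : G →* H) (ρ' : H →* S) (g : G)
    (n : ℤ) : om (ρ'.comp ρ) g n = om ρ' (ρ g) n := by
  cases n with
  | ofNat k =>
    change om _ g (k : ℤ) = om _ _ (k : ℤ)
    rw [om_ofNat, om_ofNat]
    rfl
  | negSucc k =>
    rw [om_negSucc, om_negSucc, MonoidHom.comp_apply, map_zpow]
    rfl

theorem map_wd {G H : Type*} [Group G] [Group H] (f : G →* H) (a b : G) (m : ℤ) :
    f (wd a b m) = wd (f a) (f b) m := by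
  unfold wd
  rw [map_mul, map_zpow, map_zpow, map_mul, map_mul, map_inv, map_inv]

variable {m n : ℤ} (φ : KnotGroup m n →* Multiplicative ℤ) (α : KnotGroup m n →* SLC)

theorem om_Rh {u : FreeGroup (Fin 2)} (h : chi φ u = 1) (k : ℤ) :
    om (Rh φ α) u k = emb (omc (rho α u) k) := by
  have h1 : ∀ j : ℤ, Rh φ α (u ^ j) = (((emb : Matrix (Fin 2) (Fin 2) ℂ →* _).comp
      (mxh.comp (rho α)))) (u ^ j) := by
    intro j
    rw [Rh_eq0 φ α (by rw [map_zpow, h, _root_.one_zpow])]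
    rfl
  rw [om_congr h1, omc, ← om_comp, ← map_om]

theorem chi_ab : chi φ ga = chi φ gb := by
  have h : chi φ (ga * wd ga gb m ^ n * gb⁻¹ * (wd ga gb m ^ n)⁻¹) = 1 := chi_rel φ
  have h2 : chi φ (ga * wd ga gb m ^ n * gb⁻¹ * (wd ga gb m ^ n)⁻¹) =
      chi φ ga * (chi φ gb)⁻¹ := by
    rw [map_mul, map_mul, map_mul, map_inv, map_inv, mul_assoc (chi φ ga),
      mul_comm (chi φ (wd ga gb m ^ n)), ← mul_assoc, mul_assoc, mul_inv_cancel, mul_one]
  rw [h2] at h
  exact mul_inv_eq_one.1 h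

theorem chi_gx : chi φ gx = 1 := by
  rw [gx, map_mul, map_inv, chi_ab φ, mul_inv_cancel]

theorem chi_gy : chi φ gy = 1 := by
  rw [gy, map_mul, map_inv, chi_ab φ, inv_mul_cancel]

theorem chi_wd : chi φ (wd ga gb m) = 1 := by
  unfold wd
  rw [map_mul, map_zpow, map_zpow]
  have h1 := chi_gx φ
  have h2 := chi_gy φ
  rw [h1, h2, _root_.one_zpow, one_mul]

theorem fox_expand {S : Type*} [CommRing S] {R : Type*} [Ring R] [Algebra S R] {t t' : S}
    (h : t * t' = 1) (a w x y : R) :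
    1 + (t • a - 1) * (w * (-x + t' • y)) =
      t • (-(a * (w * x))) + (1 + w * x + a * (w * y)) + t' • (-(w * y)) := by
  have e : (t • a) * (w * (t' • y)) = a * (w * y) := by
    rw [mul_smul_comm, mul_smul_comm, smul_mul_assoc, smul_smul, mul_comm, h, one_smul]
  have e2 : (t • a) * (w * x) = t • (a * (w * x)) := smul_mul_assoc _ _ _
  have e3 : w * (t' • y) = t' • (w * y) := mul_smul_comm _ _ _
  rw [mul_add, mul_neg, sub_mul, one_mul, mul_add, e, mul_neg, e2, e3, smul_neg, smul_neg]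
  abel

/-- the Fox derivative of the relator -/
theorem fox_shape {d : Fin 2 → FreeGroup (Fin 2) → Matrix (Fin 2) (Fin 2) ℂ[T;T⁻¹]}
    (hd : FoxR (Rh φ α) d) : ∃ P₀ P₁ P₂ : Matrix (Fin 2) (Fin 2) ℂ,
      d 0 (relator m n) = (T (chi φ ga).toAdd : ℂ[T;T⁻¹]) • emb P₁ + emb P₀ +
        (T (-(chi φ ga).toAdd) : ℂ[T;T⁻¹]) • emb P₂ ∧
      P₁.det = (omc (rho α (wd ga gb m)) n).det * (omc (rho α gx) m).det ∧
      P₂.det = (omc (rho α (wd ga gb m)) n).det * (omc (rho α gy) m).det := by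
  set e := (chi φ ga).toAdd with he
  have h := hd.rel0 m n (Rh_rel φ α)
  have h1 : Rh φ α ga = (T e : ℂ[T;T⁻¹]) • emb (mx (rho α ga)) := rfl
  have h2 : Rh φ α gb⁻¹ = (T (-e) : ℂ[T;T⁻¹]) • emb (mx (rho α gb⁻¹)) := by
    rw [Rh_eq, map_inv (chi φ), ← chi_ab φ, toAdd_inv]
  have h3 : Rh φ α gx = emb (mx (rho α gx)) := Rh_eq0 φ α (chi_gx φ)
  have h4 : Rh φ α (gx ^ m) = emb (mx (rho α (gx ^ m))) :=
    Rh_eq0 φ α (by rw [map_zpow, chi_gx φ, _root_.one_zpow])
  rw [om_Rh φ α (chi_wd φ), om_Rh φ α (chi_gx φ), om_Rh φ α (chi_gy φ), h1, h2, h3, h4,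
    mul_smul_comm, mul_smul_comm] at h
  have ht : (T e : ℂ[T;T⁻¹]) * T (-e) = 1 := by rw [← T_add]; simp
  rw [fox_expand ht] at h
  refine ⟨1 + omc (rho α (wd ga gb m)) n * (omc (rho α gx) m * mx (rho α gx)) +
    mx (rho α ga) * (omc (rho α (wd ga gb m)) n * (mx (rho α (gx ^ m)) *
      (omc (rho α gy) m * mx (rho α gb⁻¹)))),
    -(mx (rho α ga) * (omc (rho α (wd ga gb m)) n * (omc (rho α gx) m * mx (rho α gx)))),
    -(omc (rho α (wd ga gb m)) n * (mx (rho α (gx ^ m)) *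
      (omc (rho α gy) m * mx (rho α gb⁻¹)))), ?_, ?_, ?_⟩
  · rw [h]
    simp only [map_mul, map_neg, map_add, map_one]
  · have hn : ∀ M : Matrix (Fin 2) (Fin 2) ℂ, (-M).det = M.det := by
      intro M
      rw [det_neg]; simp
    rw [hn, det_mul, det_mul, det_mul, mx_det, mx_det]
    ring
  · have hn : ∀ M : Matrix (Fin 2) (Fin 2) ℂ, (-M).det = M.det := by
      intro M
      rw [det_neg]; simp
    rw [hn, det_mul, det_mul, det_mul, mx_det, mx_det]
    ring

/-- The Fox derivatives are unique. -/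
theorem fox_unique {D D' : Fin 2 → FreeGroup (Fin 2) → MonoidAlgebra ℤ (FreeGroup (Fin 2))}
    (hD : IsFox D) (hD' : IsFox D') : D = D' := by
  funext j u
  induction u using FreeGroup.induction_on with
  | C1 => rw [d_one (hD.2 j), d_one (hD'.2 j)]
  | of i => rw [hD.1, hD'.1]
  | inv_of i hi => rw [d_inv (hD.2 j), d_inv (hD'.2 j), hi]
  | mul u v hu hv => rw [hD.2, hD'.2, hu, hv]

theorem det_one_sub {R : Type*} [CommRing R] (M : Matrix (Fin 2) (Fin 2) R) :
    (1 - M).det = (M - 1).det := by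
  rw [← neg_sub, det_neg]
  simp

/-- the denominator -/
theorem det_denom (c : ℂ) (B : SLC) (hB : tr B = c) (e : ℤ) :
    ((T e : ℂ[T;T⁻¹]) • emb (mx B) - 1).det = T e ^ 2 - C c * T e + 1 := by
  have h1 : mx B 0 0 * mx B 1 1 - mx B 0 1 * mx B 1 0 = 1 := by
    rw [← det_fin_two]; exact mx_det B
  have h2 : mx B 0 0 + mx B 1 1 = c := by rw [← hB]; exact (trace_fin_two _).symm
  rw [det_fin_two]
  simp only [Matrix.sub_apply, Matrix.smul_apply, emb_apply, smul_eq_mul, one_apply_eq]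
  rw [one_apply_ne (by decide), one_apply_ne (by decide)]
  have h3 := congrArg (C : ℂ →+* ℂ[T;T⁻¹]) h1
  have h4 := congrArg (C : ℂ →+* ℂ[T;T⁻¹]) h2
  simp only [map_sub, map_mul, map_add, map_one] at h3 h4
  linear_combination T e ^ 2 * h3 - T e * h4

/-- the exponent of the meridian -/
theorem chi_surj (hφ : Function.Surjective φ) : (chi φ ga).toAdd = 1 ∨ (chi φ ga).toAdd = -1 := by
  have h1 : ∀ u, ∃ k : ℤ, chi φ u = chi φ ga ^ k := by
    intro u
    induction u using FreeGroup.induction_on with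
    | C1 => exact ⟨0, by rw [map_one, _root_.zpow_zero]⟩
    | of i =>
      refine ⟨1, ?_⟩
      rw [_root_.zpow_one]
      fin_cases i
      · rfl
      · exact (chi_ab φ).symm
    | inv_of i hi =>
      obtain ⟨k, hk⟩ := hi
      exact ⟨-k, by rw [map_inv, hk, _root_.zpow_neg]⟩
    | mul u v hu hv =>
      obtain ⟨k, hk⟩ := hu
      obtain ⟨l, hl⟩ := hv
      exact ⟨k + l, by rw [map_mul, hk, hl, _root_.zpow_add]⟩
  obtain ⟨g, hg⟩ := hφ (Multiplicative.ofAdd 1)
  obtain ⟨u, rfl⟩ := QuotientGroup.mk_surjective g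
  obtain ⟨k, hk⟩ := h1 u
  have h2 : chi φ u = Multiplicative.ofAdd 1 := hg
  rw [h2] at hk
  have h3 := congrArg Multiplicative.toAdd hk
  rw [toAdd_ofAdd, toAdd_zpow, smul_eq_mul] at h3
  exact Int.eq_one_or_neg_one_of_mul_eq_one' h3.symm |>.imp (fun h => h.2) (fun h => h.2)

end Pool.Agent.DFJ
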