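import Pool.Agent.DFJ.FoxRel
import Pool.Agent.DFJ.MatSys
import Pool.Agent.DFJ.Laur

/-!
# DFJ/TorShape: the determinant of the Fox derivative
-/

set_option autoImplicit false

namespace Pool.Agent.DFJ

open LaurentPolynomial Matrix

/-- the underlying matrix, as a homomorphism -/
def mxh : SLC →* Matrix (Fin 2) (Fin 2) ℂ where
  toFun := mx
  map_one' := rfl
  map_mul' _ _ := rfl

theorem det_sub_one (g : SLC) : (mx g - 1).det = 2 - tr g := by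
  have h1 : mx g 0 0 * mx g 1 1 - mx g 0 1 * mx g 1 0 = 1 := by
    rw [← det_fin_two]; exact mx_det g
  have h2 : tr g = mx g 0 0 + mx g 1 1 := trace_fin_two _
  rw [h2, det_fin_two]
  simp only [Matrix.sub_apply, one_apply_eq]
  rw [one_apply_ne (by decide), one_apply_ne (by decide)]
  linear_combination h1

/-- `(g^n - 1) / (g - 1)` -/
def omc (g : SLC) (n : ℤ) : Matrix (Fin 2) (Fin 2) ℂ := om mxh g n

theorem det_omc {g : SLC} (hg : tr g ≠ 2) (n : ℤ) : (omc g n).det = PP n.natAbs (tr g) := by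
  have h1 : (mx g - 1) * omc g n = mx (g ^ n) - 1 := om_spec mxh g n
  have h2 := congrArg Matrix.det h1
  rw [det_mul, det_sub_one, det_sub_one, tr_zpow] at h2
  have h3 := PP_spec n.natAbs (tr g)
  have h4 : (2 - tr g) ≠ 0 := fun h => hg (sub_eq_zero.1 h).symm
  apply mul_left_cancel₀ h4
  linear_combination h2 + h3

/-- constants -/
noncomputable def emb : Matrix (Fin 2) (Fin 2) ℂ →+* Matrix (Fin 2) (Fin 2) ℂ[T;T⁻¹] :=
  (C : ℂ →+* ℂ[T;T⁻¹]).mapMatrix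

theorem emb_apply (M : Matrix (Fin 2) (Fin 2) ℂ) (i j : Fin 2) : emb M i j = C (M i j) := rfl

theorem emb_det (M : Matrix (Fin 2) (Fin 2) ℂ) : (emb M).det = C M.det := by
  rw [det_fin_two, det_fin_two, emb_apply, emb_apply, emb_apply, emb_apply, map_sub, map_mul,
    map_mul]

/-- a determinant -/
theorem det_three (P₁ P₀ P₂ : Matrix (Fin 2) (Fin 2) ℂ) {t t' : ℂ[T;T⁻¹]} (h : t * t' = 1) :
    ∃ c₁ c₀ c₂ : ℂ, (t • emb P₁ + emb P₀ + t' • emb P₂).det =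
      t ^ 2 * C P₁.det + t * C c₁ + C c₀ + t' * C c₂ + t' ^ 2 * C P₂.det := by
  refine ⟨P₁ 0 0 * P₀ 1 1 + P₀ 0 0 * P₁ 1 1 - (P₁ 0 1 * P₀ 1 0 + P₀ 0 1 * P₁ 1 0),
    P₀ 0 0 * P₀ 1 1 - P₀ 0 1 * P₀ 1 0 + (P₁ 0 0 * P₂ 1 1 + P₂ 0 0 * P₁ 1 1 -
      (P₁ 0 1 * P₂ 1 0 + P₂ 0 1 * P₁ 1 0)),
    P₂ 0 0 * P₀ 1 1 + P₀ 0 0 * P₂ 1 1 - (P₂ 0 1 * P₀ 1 0 + P₀ 0 1 * P₂ 1 0), ?_⟩
  rw [det_fin_two, det_fin_two, det_fin_two]
  simp only [Matrix.add_apply, Matrix.smul_apply, emb_apply, smul_eq_mul, map_add, map_sub,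
    map_mul]
  linear_combination (C (P₁ 0 0) * C (P₂ 1 1) + C (P₂ 0 0) * C (P₁ 1 1) -
      (C (P₁ 0 1) * C (P₂ 1 0) + C (P₂ 0 1) * C (P₁ 1 0))) * h

/-- the coefficients of the determinant -/
theorem coeff_three {p : ℂ[T;T⁻¹]} {e : ℤ} (he : e = 1 ∨ e = -1) {L c₁ c₀ c₂ : ℂ}
    (h : p = T e ^ 2 * C L + T e * C c₁ + C c₀ + T (-e) * C c₂ + T (-e) ^ 2 * C L) :
    (∀ k, p.coeff k ≠ 0 → -2 ≤ k ∧ k ≤ 2) ∧ p.coeff 2 = L ∧ p.coeff (-2) = L := by
  have key : ∀ k, p.coeff k = (if k - 2 * e = 0 then L else 0) + (if k - e = 0 then c₁ else 0) +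
      (if k = 0 then c₀ else 0) + (if k - (-e) = 0 then c₂ else 0) +
      (if k - 2 * (-e) = 0 then L else 0) := by
    intro k
    have e1 : T e ^ 2 = (T (2 * e) : ℂ[T;T⁻¹]) := by rw [T_pow]; norm_num
    have e2 : T (-e) ^ 2 = (T (2 * (-e)) : ℂ[T;T⁻¹]) := by rw [T_pow]; norm_num
    rw [h, e1, e2]
    simp only [AddMonoidAlgebra.coeff_add, Finsupp.add_apply, coeff_T_mul, C_apply]
  refine ⟨fun k hk => ?_, ?_, ?_⟩
  · by_contra hc
    apply hk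
    rw [key]
    rcases he with rfl | rfl
    · rw [if_neg (by omega), if_neg (by omega), if_neg (by omega), if_neg (by omega),
        if_neg (by omega)]
      simp
    · rw [if_neg (by omega), if_neg (by omega), if_neg (by omega), if_neg (by omega),
        if_neg (by omega)]
      simp
  · rw [key]
    rcases he with rfl | rfl <;> norm_num
  · rw [key]
    rcases he with rfl | rfl <;> norm_num

/-- the shape of the torsion -/
def Shape (τ : ℂ[T;T⁻¹]) (L : ℂ) : Prop :=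
  ∃ p : ℤ, τ.coeff p = L ∧ τ.coeff (p + 2) = L ∧ ∀ k, τ.coeff k ≠ 0 → p ≤ k ∧ k ≤ p + 2

theorem Shape.degree {τ : ℂ[T;T⁻¹]} {L : ℂ} (h : Shape τ L) (hL : L ≠ 0) : HasDegree τ 2 := by
  obtain ⟨p, h1, h2, h3⟩ := h
  exact ⟨p, by rw [h1]; exact hL, by
    have : (p + ((2 : ℕ) : ℤ)) = p + 2 := by norm_num
    rw [this, h2]; exact hL, fun k hk => by
    have := h3 k hk
    exact ⟨this.1, by push_cast; exact this.2⟩⟩

theorem Shape.monic {τ : ℂ[T;T⁻¹]} {L : ℂ} (h : Shape τ L) (hL : L ≠ 0) :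
    IsMonic τ ↔ (L = 1 ∨ L = -1) := by
  obtain ⟨p, h1, h2, h3⟩ := h
  constructor
  · rintro ⟨q, hq, hq2⟩
    have e1 : p + 2 ≤ q := hq2 _ (by rw [h2]; exact hL)
    have e2 : τ.coeff q ≠ 0 := by
      rcases hq with h | h <;> rw [h] <;> norm_num
    have e3 := (h3 q e2).2
    have e4 : q = p + 2 := by omega
    rw [e4, h2] at hq
    exact hq
  · intro h
    exact ⟨p + 2, by rw [h2]; exact h, fun k hk => (h3 k hk).2⟩

/-- The quotient, for both orientations. -/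
theorem shape_of {τ p : ℂ[T;T⁻¹]} {e : ℤ} (he : e = 1 ∨ e = -1) {c L : ℂ}
    (h : τ * (T e ^ 2 - C c * T e + 1) = p)
    (hp : ∀ k, p.coeff k ≠ 0 → -2 ≤ k ∧ k ≤ 2) (h1 : p.coeff 2 = L) (h2 : p.coeff (-2) = L)
    (hL : L ≠ 0) : Shape τ L := by
  rcases he with rfl | rfl
  · have e1 : T 1 ^ 2 = (T 2 : ℂ[T;T⁻¹]) := by rw [T_pow]; norm_num
    rw [e1] at h
    obtain ⟨k1, k2, k3⟩ := shape h hp h1 h2 hL
    exact ⟨-2, k2, by norm_num; exact k1, fun k hk => by have := k3 k hk; omega⟩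
  · have e1 : T (-1) ^ 2 = (T (-2) : ℂ[T;T⁻¹]) := by rw [T_pow]; norm_num
    have e2 : (T (-2) : ℂ[T;T⁻¹]) * T 2 = 1 := by rw [← T_add]; norm_num [T_zero]
    have e3 : (T (-2) : ℂ[T;T⁻¹]) * T 1 = T (-1) := by rw [← T_add]; norm_num
    have h' : (T (-2) * τ) * (T 2 - C c * T 1 + 1) = p := by
      rw [← h, e1]
      linear_combination τ * e2 - τ * C c * e3
    obtain ⟨k1, k2, k3⟩ := shape h' hp h1 h2 hL
    rw [coeff_T_mul] at k1 k2
    refine ⟨0, ?_, ?_, ?_⟩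
    · rw [← k2]; norm_num
    · rw [← k1]; norm_num
    · intro k hk
      have := k3 (k - 2) (by rw [coeff_T_mul]; norm_num; exact hk)
      omega

end Pool.Agent.DFJ
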